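import Mathlib

/-!
# The disordered copolymer model based on a renewal process: definitions

Conventions of the problem `MP_65efe8_pr`.
-/

open MeasureTheory Filter Topology

namespace Pool.Agent.H95.Cop

/-- A polymer trajectory: `(p i).1` is the length of the `i`-th excursion (`i = 0, 1, 2, ...`) of the
renewal process and `(p i).2` is its sign, `true` meaning the sign `-1` (excursion below the
interface). -/
abbrev Traj : Type := ℕ → ℕ × Bool

/-- The law of one excursion: its length has law `K`, its sign is an independent fair coin. -/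
noncomputable def excursionLaw (K : PMF ℕ) : Measure (ℕ × Bool) :=
  K.toMeasure.prod (PMF.uniformOfFintype Bool).toMeasure

/-- The law of the polymer: excursions (lengths and signs) are i.i.d. -/
noncomputable def trajLaw (K : PMF ℕ) : Measure Traj :=
  Measure.infinitePi (fun _ : ℕ => excursionLaw K)

/-- The renewal times `τ_0 = 0 < τ_1 < ...` of a trajectory: `τ_i` is the sum of the lengths of the
first `i` excursions. -/
def renewalTime (p : Traj) (i : ℕ) : ℕ := ∑ j ∈ Finset.range i, (p j).1

/-- The index of the excursion that contains the monomer `n ≥ 1`, i.e. the least `i` with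
`n ≤ τ_{i+1}` (so that `τ_i < n ≤ τ_{i+1}`). -/
noncomputable def excursionIndex (p : Traj) (n : ℕ) : ℕ := sInf {i : ℕ | n ≤ renewalTime p (i + 1)}

/-- `Δ_n`: it is `1` if the monomer `n` lies in an excursion with sign `-1` and `0` otherwise. -/
noncomputable def Delta (p : Traj) (n : ℕ) : ℝ := if (p (excursionIndex p n)).2 then 1 else 0

/-- The partition function
`Z_{N,ω} = E[exp(-2 λ ∑_{n=1}^N Δ_n (ω_n + h))]`. -/
noncomputable def partitionFunction (K : PMF ℕ) (lam h : ℝ) (N : ℕ) (ω : ℕ → ℝ) : ℝ :=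
  ∫ p, Real.exp (-2 * lam * ∑ n ∈ Finset.Icc 1 N, Delta p n * (ω n + h)) ∂(trajLaw K)

/-- The quenched average `(1/N) E log Z_{N,ω}`, for i.i.d. charges `ω_n` of law `μ`. -/
noncomputable def finiteFreeEnergy (K : PMF ℕ) (μ : Measure ℝ) (lam h : ℝ) (N : ℕ) : ℝ :=
  (1 / (N : ℝ)) * ∫ ω, Real.log (partitionFunction K lam h N ω) ∂(Measure.infinitePi (fun _ : ℕ => μ))

/-- The free energy: `HasFreeEnergy K μ λ h f` means `f(λ,h) = lim_N (1/N) E log Z_{N,ω} = f` (the
limit exists and is equal to `f`; it is proved in `Pool.Agent.H95.Cop.Final` that it always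
exists). -/
def HasFreeEnergy (K : PMF ℕ) (μ : Measure ℝ) (lam h f : ℝ) : Prop :=
  Tendsto (fun N : ℕ => finiteFreeEnergy K μ lam h N) atTop (𝓝 f)

/-- The critical curve `h_c(λ) = sup {h ≥ 0 : f(λ,h) > 0}`. -/
noncomputable def criticalCurve (K : PMF ℕ) (μ : Measure ℝ) (lam : ℝ) : ℝ :=
  sSup {h : ℝ | 0 ≤ h ∧ ∃ f : ℝ, 0 < f ∧ HasFreeEnergy K μ lam h f}

end Pool.Agent.H95.Cop
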