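import Mathlib
import Pool.Agent.H95.ProdMeas
import Pool.Agent.H95.Cop.Defs

open MeasureTheory ProbabilityTheory Filter Topology
open scoped ENNReal

namespace Pool.Agent.H95.Cop

open Pool.Agent.H95

/-- cons for sequences -/
def cons {E : Type*} (a : E) (p : ℕ → E) : ℕ → E := fun n => Nat.casesOn n a p

@[simp] lemma cons_zero {E : Type*} (a : E) (p : ℕ → E) : cons a p 0 = a := rfl
@[simp] lemma cons_succ {E : Type*} (a : E) (p : ℕ → E) (n : ℕ) : cons a p (n + 1) = p n := rfl

lemma measurable_cons {E : Type*} [MeasurableSpace E] :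
    Measurable (fun q : E × (ℕ → E) => cons q.1 q.2) := by
  refine measurable_pi_lambda _ (fun n => ?_)
  cases n with
  | zero => simp only [cons_zero]; fun_prop
  | succ n => simp only [cons_succ]; fun_prop

lemma measurePreserving_cons {E : Type*} [MeasurableSpace E] (ν : Measure E) [IsProbabilityMeasure ν] :
    MeasurePreserving (fun q : E × (ℕ → E) => cons q.1 q.2) (ν.prod (iid ν)) (iid ν) := by
  refine ⟨measurable_cons, ?_⟩
  have h0 : MeasurePreserving (Function.eval 0 : (ℕ → E) → E) (iid ν) ν :=
    measurePreserving_eval_infinitePi (fun _ : ℕ => ν) 0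
  have h1 : MeasurePreserving (Prod.map (Function.eval 0 : (ℕ → E) → E) (id : (ℕ → E) → (ℕ → E)))
      ((iid ν).prod (iid ν)) (ν.prod (iid ν)) := h0.prod (MeasurePreserving.id _)
  rw [← h1.map_eq, Measure.map_map measurable_cons h1.measurable]
  have : (fun q : E × (ℕ → E) => cons q.1 q.2) ∘
      (Prod.map (Function.eval 0 : (ℕ → E) → E) (id : (ℕ → E) → (ℕ → E))) = splice 1 := by
    funext q n
    cases n with
    | zero => simp [splice, cons]
    | succ n => simp [splice, cons]
  rw [this]
  exact (measurePreserving_splice ν 1).map_eq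

instance (K : PMF ℕ) : IsProbabilityMeasure (excursionLaw K) := by
  unfold excursionLaw; infer_instance

instance (K : PMF ℕ) : IsProbabilityMeasure (trajLaw K) := by
  unfold trajLaw; infer_instance

lemma trajLaw_eq (K : PMF ℕ) : trajLaw K = iid (excursionLaw K) := rfl

lemma measurable_renewalTime (i : ℕ) : Measurable (fun p : Traj => renewalTime p i) := by
  unfold renewalTime
  fun_prop

lemma sInf_eq_iff_nat (S : Set ℕ) (i : ℕ) :
    sInf S = i ↔ (i ∈ S ∧ ∀ j < i, j ∉ S) ∨ (i = 0 ∧ ∀ j, j ∉ S) := by
  constructor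
  · intro h
    by_cases hS : S.Nonempty
    · left
      subst h
      exact ⟨Nat.sInf_mem hS, fun j hj => Nat.notMem_of_lt_sInf hj⟩
    · right
      rw [Set.not_nonempty_iff_eq_empty] at hS
      subst hS
      simp at h
      exact ⟨h.symm, by simp⟩
  · rintro (⟨h1, h2⟩ | ⟨rfl, h2⟩)
    · apply le_antisymm (Nat.sInf_le h1)
      by_contra hlt
      push Not at hlt
      exact h2 _ hlt (Nat.sInf_mem ⟨i, h1⟩)
    · have : S = ∅ := Set.eq_empty_of_forall_notMem h2
      subst this
      simp

lemma measurable_excursionIndex (n : ℕ) : Measurable (fun p : Traj => excursionIndex p n) := by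
  apply measurable_to_countable'
  intro i
  have hm : ∀ j, MeasurableSet {p : Traj | n ≤ renewalTime p (j + 1)} := fun j =>
    measurableSet_le measurable_const (measurable_renewalTime (j + 1))
  have : (fun p : Traj => excursionIndex p n) ⁻¹' {i} =
      ({p : Traj | n ≤ renewalTime p (i + 1)} ∩
        ⋂ j ∈ Finset.range i, {p : Traj | n ≤ renewalTime p (j + 1)}ᶜ) ∪
      ({_p : Traj | i = 0} ∩ ⋂ j : ℕ, {p : Traj | n ≤ renewalTime p (j + 1)}ᶜ) := by
    ext p
    simp only [Set.mem_preimage, Set.mem_singleton_iff, excursionIndex, sInf_eq_iff_nat,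
      Set.mem_union, Set.mem_inter_iff, Set.mem_iInter, Set.mem_compl_iff, Finset.mem_range,
      Set.mem_ofPred_eq]
  rw [this]
  exact ((hm i).inter (Finset.measurableSet_biInter _ (fun j _ => (hm j).compl))).union
    ((MeasurableSet.const _).inter (MeasurableSet.iInter (fun j => (hm j).compl)))

lemma measurable_Delta (n : ℕ) : Measurable (fun p : Traj => Delta p n) := by
  have h1 : Measurable (fun q : ℕ × Traj => (if (q.2 q.1).2 then (1:ℝ) else 0)) := by
    apply measurable_from_prod_countable_right
    intro i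
    have : Measurable (fun p : Traj => (p i).2) := by fun_prop
    exact (Measurable.of_discrete (f := fun b : Bool => (if b then (1:ℝ) else 0))).comp this
  have h2 : Measurable (fun p : Traj => (excursionIndex p n, p)) :=
    (measurable_excursionIndex n).prodMk measurable_id
  exact h1.comp h2

/-- total charge between sites `a` and `b` -/
noncomputable def H (x : ℕ → ℝ) (a b : ℕ) : ℝ := ∑ i ∈ Finset.Ico a b, x i

/-- partition function with total charges `x` -/
noncomputable def W (K : PMF ℕ) (N : ℕ) (x : ℕ → ℝ) : ℝ :=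
  ∫ p, Real.exp (∑ i ∈ Finset.range N, Delta p (i + 1) * x i) ∂(trajLaw K)

lemma partitionFunction_eq (K : PMF ℕ) (lam h : ℝ) (N : ℕ) (ω : ℕ → ℝ) :
    partitionFunction K lam h N ω = W K N (fun i => -2 * lam * (ω (i + 1) + h)) := by
  unfold partitionFunction W
  congr 1
  funext p
  congr 1
  rw [Finset.mul_sum, Finset.range_eq_Ico, Finset.sum_Ico_add' (fun i => Delta p i * (-2 * lam * (ω i + h)))
    0 N 1]
  have : Finset.Icc 1 N = Finset.Ico (0 + 1) (N + 1) := by ext; simp; 
  rw [this]
  apply Finset.sum_congr rfl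
  intro i _
  ring


/-- the exponent -/
noncomputable def expo (N : ℕ) (x : ℕ → ℝ) (p : Traj) : ℝ :=
  ∑ i ∈ Finset.range N, Delta p (i + 1) * x i

lemma W_def (K : PMF ℕ) (N : ℕ) (x : ℕ → ℝ) :
    W K N x = ∫ p, Real.exp (expo N x p) ∂(trajLaw K) := rfl

lemma Delta_mem (p : Traj) (n : ℕ) : Delta p n = 0 ∨ Delta p n = 1 := by
  unfold Delta; split_ifs <;> simp

lemma Delta_nonneg (p : Traj) (n : ℕ) : 0 ≤ Delta p n := by
  rcases Delta_mem p n with h | h <;> rw [h] <;> norm_num

lemma Delta_le_one (p : Traj) (n : ℕ) : Delta p n ≤ 1 := by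
  rcases Delta_mem p n with h | h <;> rw [h] <;> norm_num

lemma abs_expo_le (N : ℕ) (x : ℕ → ℝ) (p : Traj) :
    |expo N x p| ≤ ∑ i ∈ Finset.range N, |x i| := by
  unfold expo
  refine (Finset.abs_sum_le_sum_abs _ _).trans (Finset.sum_le_sum (fun i _ => ?_))
  rw [abs_mul, abs_of_nonneg (Delta_nonneg _ _)]
  have := Delta_le_one p (i + 1)
  have h2 := abs_nonneg (x i)
  nlinarith

lemma measurable_expo (N : ℕ) : Measurable (fun q : (ℕ → ℝ) × Traj => expo N q.1 q.2) := by
  unfold expo
  apply Finset.measurable_sum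
  intro i _
  have h1 : Measurable (fun q : (ℕ → ℝ) × Traj => Delta q.2 (i + 1)) :=
    (measurable_Delta (i + 1)).comp measurable_snd
  have h2 : Measurable (fun q : (ℕ → ℝ) × Traj => q.1 i) := by fun_prop
  exact h1.mul h2

lemma measurable_expo_right (N : ℕ) (x : ℕ → ℝ) : Measurable (fun p : Traj => expo N x p) :=
  (measurable_expo N).comp (measurable_const.prodMk measurable_id)

lemma integrable_exp_expo (K : PMF ℕ) (N : ℕ) (x : ℕ → ℝ) :
    Integrable (fun p => Real.exp (expo N x p)) (trajLaw K) := by
  refine Integrable.of_bound (C := Real.exp (∑ i ∈ Finset.range N, |x i|)) ?_ ?_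
  · exact (Real.measurable_exp.comp (measurable_expo_right N x)).aestronglyMeasurable
  · refine Filter.Eventually.of_forall (fun p => ?_)
    rw [Real.norm_eq_abs, abs_of_pos (Real.exp_pos _)]
    exact Real.exp_le_exp.mpr ((le_abs_self _).trans (abs_expo_le N x p))

lemma W_le (K : PMF ℕ) (N : ℕ) (x : ℕ → ℝ) :
    W K N x ≤ Real.exp (∑ i ∈ Finset.range N, |x i|) := by
  rw [W_def]
  calc ∫ p, Real.exp (expo N x p) ∂(trajLaw K)
      ≤ ∫ p, Real.exp (∑ i ∈ Finset.range N, |x i|) ∂(trajLaw K) := by
        apply integral_mono (integrable_exp_expo K N x) (integrable_const _)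
        intro p
        exact Real.exp_le_exp.mpr ((le_abs_self _).trans (abs_expo_le N x p))
    _ = _ := by simp

lemma le_W (K : PMF ℕ) (N : ℕ) (x : ℕ → ℝ) :
    Real.exp (-∑ i ∈ Finset.range N, |x i|) ≤ W K N x := by
  rw [W_def]
  calc Real.exp (-∑ i ∈ Finset.range N, |x i|)
     = ∫ p, Real.exp (-∑ i ∈ Finset.range N, |x i|) ∂(trajLaw K) := by simp
    _ ≤ _ := by
        apply integral_mono (integrable_const _) (integrable_exp_expo K N x)
        intro p
        apply Real.exp_le_exp.mpr
        have h1 := neg_abs_le (expo N x p)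
        have h2 := abs_expo_le N x p
        linarith

lemma W_pos (K : PMF ℕ) (N : ℕ) (x : ℕ → ℝ) : 0 < W K N x :=
  (Real.exp_pos _).trans_le (le_W K N x)

lemma abs_log_W_le (K : PMF ℕ) (N : ℕ) (x : ℕ → ℝ) :
    |Real.log (W K N x)| ≤ ∑ i ∈ Finset.range N, |x i| := by
  rw [abs_le]
  constructor
  · have := Real.log_le_log (Real.exp_pos _) (le_W K N x)
    rwa [Real.log_exp] at this
  · have := Real.log_le_log (W_pos K N x) (W_le K N x)
    rwa [Real.log_exp] at this

lemma W_zero (K : PMF ℕ) (x : ℕ → ℝ) : W K 0 x = 1 := by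
  simp [W]

lemma measurable_W (K : PMF ℕ) (N : ℕ) : Measurable (fun x => W K N x) := by
  have : StronglyMeasurable (fun q : (ℕ → ℝ) × Traj => Real.exp (expo N q.1 q.2)) :=
    (Real.measurable_exp.comp (measurable_expo N)).stronglyMeasurable
  exact (this.integral_prod_right (ν := trajLaw K)).measurable

lemma renewalTime_cons (a : ℕ × Bool) (p : Traj) (i : ℕ) :
    renewalTime (cons a p) (i + 1) = a.1 + renewalTime p i := by
  unfold renewalTime
  rw [Finset.sum_range_succ']
  simp [add_comm]

lemma le_renewalTime (p : Traj) (hp : ∀ i, 1 ≤ (p i).1) (i : ℕ) : i ≤ renewalTime p i := by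
  unfold renewalTime
  calc i = ∑ j ∈ Finset.range i, 1 := by simp
    _ ≤ _ := Finset.sum_le_sum (fun j _ => hp j)

lemma renewalTime_zero (p : Traj) : renewalTime p 0 = 0 := by simp [renewalTime]

lemma Delta_cons (a : ℕ × Bool) (p : Traj) (hp : ∀ i, 1 ≤ (p i).1) (n : ℕ) :
    Delta (cons a p) n = if n ≤ a.1 then (if a.2 then 1 else 0) else Delta p (n - a.1) := by
  by_cases h : n ≤ a.1
  · have h0 : excursionIndex (cons a p) n = 0 := by
      unfold excursionIndex
      rw [sInf_eq_iff_nat]
      left
      refine ⟨?_, fun j hj => absurd hj (Nat.not_lt_zero j)⟩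
      simp only [Set.mem_ofPred_eq, renewalTime_cons]
      omega
    simp [Delta, h0, h]
  · have h0 : excursionIndex (cons a p) n = excursionIndex p (n - a.1) + 1 := by
      unfold excursionIndex
      rw [sInf_eq_iff_nat]
      left
      have hne : ({i : ℕ | n - a.1 ≤ renewalTime p (i + 1)}).Nonempty := by
        refine ⟨n, ?_⟩
        have := le_renewalTime p hp (n + 1)
        simp only [Set.mem_ofPred_eq]
        omega
      have hmem := Nat.sInf_mem hne
      simp only [Set.mem_ofPred_eq] at hmem
      constructor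
      · simp only [Set.mem_ofPred_eq, renewalTime_cons]
        omega
      · intro j hj
        simp only [Set.mem_ofPred_eq, renewalTime_cons]
        cases j with
        | zero =>
          rw [renewalTime_zero]
          omega
        | succ j =>
          have : j < sInf {i : ℕ | n - a.1 ≤ renewalTime p (i + 1)} := by omega
          have := Nat.notMem_of_lt_sInf this
          simp only [Set.mem_ofPred_eq] at this
          omega
    simp [Delta, h0, h]

lemma expo_cons (a : ℕ × Bool) (p : Traj) (hp : ∀ i, 1 ≤ (p i).1) (N : ℕ) (x : ℕ → ℝ) :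
    expo N x (cons a p) = (if a.2 then 1 else 0) * H x 0 (min a.1 N) +
      expo (N - a.1) (shift a.1 x) p := by
  unfold expo H
  rcases le_total N a.1 with h | h
  · have h1 : N - a.1 = 0 := by omega
    have h2 : min a.1 N = N := by omega
    rw [h1, h2, Finset.range_zero, Finset.sum_empty, add_zero, Finset.mul_sum, Finset.range_eq_Ico]
    apply Finset.sum_congr rfl
    intro i hi
    rw [Finset.mem_Ico] at hi
    rw [Delta_cons a p hp, if_pos (by omega)]
  · have h2 : min a.1 N = a.1 := by omega
    rw [h2, Finset.range_eq_Ico, ← Finset.sum_Ico_consecutive _ (Nat.zero_le a.1) h]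
    congr 1
    · rw [Finset.mul_sum]
      apply Finset.sum_congr rfl
      intro i hi
      rw [Finset.mem_Ico] at hi
      rw [Delta_cons a p hp, if_pos (by omega)]
    · have : Finset.Ico a.1 N = Finset.Ico (0 + a.1) ((N - a.1) + a.1) := by
        congr 1 <;> omega
      rw [this, ← Finset.sum_Ico_add' (fun i => Delta (cons a p) (i + 1) * x i) 0 (N - a.1) a.1,
        Finset.range_eq_Ico]
      apply Finset.sum_congr rfl
      intro i hi
      rw [Delta_cons a p hp, if_neg (by omega)]
      have e : i + a.1 + 1 - a.1 = i + 1 := by omega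
      rw [e, shift_apply]

lemma ae_excursion (K : PMF ℕ) (hK0 : K 0 = 0) : ∀ᵐ a ∂(excursionLaw K), 1 ≤ a.1 := by
  unfold excursionLaw
  have h1 : ∀ᵐ n ∂(K.toMeasure), 1 ≤ n := by
    rw [ae_iff]
    have : {a : ℕ | ¬ 1 ≤ a} = {0} := by ext; simp
    rw [this, PMF.toMeasure_apply_singleton _ _ (measurableSet_singleton 0), hK0]
  have := Measure.quasiMeasurePreserving_fst (μ := K.toMeasure)
    (ν := (PMF.uniformOfFintype Bool).toMeasure)
  exact this.ae h1

lemma ae_traj (K : PMF ℕ) (hK0 : K 0 = 0) : ∀ᵐ p ∂(trajLaw K), ∀ i, 1 ≤ (p i).1 := by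
  rw [ae_all_iff]
  intro i
  have h := (measurePreserving_eval_infinitePi (fun _ : ℕ => excursionLaw K) i).quasiMeasurePreserving
  exact h.ae (ae_excursion K hK0)

lemma W_rec (K : PMF ℕ) (hK0 : K 0 = 0) (N : ℕ) (x : ℕ → ℝ) :
    W K N x = ∫ a, Real.exp ((if a.2 then 1 else 0) * H x 0 (min a.1 N)) *
      W K (N - a.1) (shift a.1 x) ∂(excursionLaw K) := by
  have hmp := measurePreserving_cons (excursionLaw K)
  have hm : Measurable (fun p : Traj => Real.exp (expo N x p)) :=
    Real.measurable_exp.comp (measurable_expo_right N x)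
  have hint : Integrable (fun q : (ℕ × Bool) × Traj => Real.exp (expo N x (cons q.1 q.2)))
      ((excursionLaw K).prod (trajLaw K)) :=
    (hmp.integrable_comp hm.aestronglyMeasurable).mpr (integrable_exp_expo K N x)
  have h1 : W K N x = ∫ q : (ℕ × Bool) × Traj, Real.exp (expo N x (cons q.1 q.2))
      ∂((excursionLaw K).prod (trajLaw K)) := by
    rw [W_def, trajLaw_eq]
    rw [← hmp.map_eq, integral_map hmp.measurable.aemeasurable]
    · rw [hmp.map_eq]
    · rw [hmp.map_eq]; exact hm.aestronglyMeasurable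
  rw [h1, integral_prod _ hint]
  apply integral_congr_ae
  filter_upwards with a
  rw [W_def, ← integral_const_mul]
  apply integral_congr_ae
  filter_upwards [ae_traj K hK0] with p hp
  rw [expo_cons a p hp, Real.exp_add]

end Pool.Agent.H95.Cop
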