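import Mathlib
import Pool.Agent.H95.Cop.Model

open MeasureTheory ProbabilityTheory Filter Topology
open scoped ENNReal

namespace Pool.Agent.H95.Cop

open Pool.Agent.H95

/-- real-valued inter-arrival probabilities -/
noncomputable def kk (K : PMF ℕ) (n : ℕ) : ℝ := (K n).toReal

lemma kk_nonneg (K : PMF ℕ) (n : ℕ) : 0 ≤ kk K n := ENNReal.toReal_nonneg

lemma kk_hasSum (K : PMF ℕ) : HasSum (kk K) 1 := by
  have h := K.tsum_coe
  have hs : Summable (kk K) := ENNReal.summable_toReal (by rw [h]; simp)
  have h2 : ∑' n, kk K n = 1 := by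
    unfold kk
    rw [← ENNReal.tsum_toReal_eq (fun n => PMF.apply_ne_top K n), h]
    simp
  rw [← h2]
  exact hs.hasSum

lemma kk_summable (K : PMF ℕ) : Summable (kk K) := (kk_hasSum K).summable

lemma kk_le_one (K : PMF ℕ) (n : ℕ) : kk K n ≤ 1 := by
  have := (kk_hasSum K)
  exact le_hasSum this n (fun j _ => kk_nonneg K j)

/-- tail probabilities P(tau_1 >= n) -/
noncomputable def tailK (K : PMF ℕ) (n : ℕ) : ℝ := 1 - ∑ j ∈ Finset.range n, kk K j

lemma tailK_nonneg (K : PMF ℕ) (n : ℕ) : 0 ≤ tailK K n := by
  unfold tailK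
  have := sum_le_hasSum (Finset.range n) (fun j _ => kk_nonneg K j) (kk_hasSum K)
  linarith

lemma tailK_le_one (K : PMF ℕ) (n : ℕ) : tailK K n ≤ 1 := by
  unfold tailK
  have := Finset.sum_nonneg (fun j (_ : j ∈ Finset.range n) => kk_nonneg K j)
  linarith

lemma integral_excursionLaw (K : PMF ℕ) (f : ℕ × Bool → ℝ)
    (hf : Integrable f (excursionLaw K)) :
    ∫ a, f a ∂(excursionLaw K) = ∑' n, kk K n * ((f (n, true) + f (n, false)) / 2) := by
  unfold excursionLaw at hf ⊢
  rw [integral_prod _ hf, PMF.integral_eq_tsum _ _ hf.integral_prod_left]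
  congr 1
  funext n
  rw [PMF.integral_eq_sum]
  have h2 : ((PMF.uniformOfFintype Bool) true).toReal = 1 / 2 := by
    simp [PMF.uniformOfFintype_apply, Fintype.card_bool]
  have h3 : ((PMF.uniformOfFintype Bool) false).toReal = 1 / 2 := by
    simp [PMF.uniformOfFintype_apply, Fintype.card_bool]
  simp only [Fintype.sum_bool, kk, smul_eq_mul, h2, h3]
  ring

lemma W_sum' (K : PMF ℕ) (hK0 : K 0 = 0) (N : ℕ) (x : ℕ → ℝ) :
    HasSum (fun n => kk K n * ((1 + Real.exp (H x 0 (min n N))) / 2) * W K (N - n) (shift n x))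
      (W K N x) := by
  set S : ℝ := ∑ i ∈ Finset.range N, |x i| with hS
  have hH : ∀ n, |H x 0 (min n N)| ≤ S := by
    intro n
    unfold H
    refine (Finset.abs_sum_le_sum_abs _ _).trans ?_
    apply Finset.sum_le_sum_of_subset_of_nonneg
    · intro i hi
      rw [Finset.mem_Ico] at hi
      rw [Finset.mem_range]
      omega
    · intro i _ _
      exact abs_nonneg _
  have hW : ∀ n, W K (N - n) (shift n x) ≤ Real.exp S := by
    intro n
    refine (W_le K _ _).trans (Real.exp_le_exp.mpr ?_)
    rcases le_total N n with h | h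
    · have : N - n = 0 := by omega
      rw [this]
      simp only [Finset.range_zero, Finset.sum_empty]
      exact Finset.sum_nonneg (fun i _ => abs_nonneg _)
    · simp only [shift_apply]
      rw [Finset.range_eq_Ico, Finset.sum_Ico_add' (fun i => |x i|) 0 (N - n) n]
      apply Finset.sum_le_sum_of_subset_of_nonneg
      · intro i hi
        rw [Finset.mem_Ico] at hi
        rw [Finset.mem_range]
        omega
      · intro i _ _
        exact abs_nonneg _
  set f : ℕ × Bool → ℝ := fun a => Real.exp ((if a.2 then 1 else 0) * H x 0 (min a.1 N)) *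
      W K (N - a.1) (shift a.1 x) with hf
  have hfi : Integrable f (excursionLaw K) := by
    refine Integrable.of_bound (C := Real.exp S * Real.exp S) ?_ ?_
    · exact (Measurable.of_discrete).aestronglyMeasurable
    · refine Filter.Eventually.of_forall (fun a => ?_)
      rw [Real.norm_eq_abs, hf]
      simp only
      rw [abs_mul, abs_of_pos (Real.exp_pos _), abs_of_pos (W_pos K _ _)]
      apply mul_le_mul _ (hW _) (W_pos K _ _).le (Real.exp_pos _).le
      apply Real.exp_le_exp.mpr
      have h1 := hH a.1
      rw [abs_le] at h1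
      split_ifs
      · linarith
      · have : 0 ≤ S := Finset.sum_nonneg (fun i _ => abs_nonneg _)
        linarith
  have h := integral_excursionLaw K f hfi
  rw [← W_rec K hK0 N x] at h
  have hterm : ∀ n, kk K n * ((f (n, true) + f (n, false)) / 2) =
      kk K n * ((1 + Real.exp (H x 0 (min n N))) / 2) * W K (N - n) (shift n x) := by
    intro n
    simp only [hf, if_true, one_mul, Bool.false_eq_true, if_false, zero_mul, Real.exp_zero]
    ring
  simp_rw [hterm] at h
  rw [h]
  apply Summable.hasSum
  apply Summable.of_nonneg_of_le (f := fun n => kk K n * ((1 + Real.exp S) / 2 * Real.exp S))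
  · intro n
    have := kk_nonneg K n
    have := W_pos K (N - n) (shift n x)
    have := Real.exp_pos (H x 0 (min n N))
    positivity
  · intro n
    rw [mul_assoc]
    apply mul_le_mul_of_nonneg_left _ (kk_nonneg K n)
    apply mul_le_mul _ (hW n) (W_pos K _ _).le (by positivity)
    have := Real.exp_le_exp.mpr ((le_abs_self _).trans (hH n))
    linarith
  · exact (kk_summable K).mul_right _

lemma W_sum (K : PMF ℕ) (hK0 : K 0 = 0) (N : ℕ) (x : ℕ → ℝ) :
    W K N x = ∑ n ∈ Finset.range N, kk K n * ((1 + Real.exp (H x 0 n)) / 2) *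
        W K (N - n) (shift n x) + tailK K N * ((1 + Real.exp (H x 0 N)) / 2) := by
  have h := W_sum' K hK0 N x
  have h2 := h.summable.sum_add_tsum_nat_add N
  rw [h.tsum_eq] at h2
  rw [← h2]
  congr 1
  · apply Finset.sum_congr rfl
    intro n hn
    rw [Finset.mem_range] at hn
    have : min n N = n := by omega
    rw [this]
  · have : ∀ i, kk K (i + N) * ((1 + Real.exp (H x 0 (min (i + N) N))) / 2) *
        W K (N - (i + N)) (shift (i + N) x) = kk K (i + N) * ((1 + Real.exp (H x 0 N)) / 2) := by
      intro i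
      have h1 : min (i + N) N = N := by omega
      have h2 : N - (i + N) = 0 := by omega
      rw [h1, h2, W_zero, mul_one]
    simp_rw [this]
    rw [tsum_mul_right]
    congr 1
    unfold tailK
    have := (kk_summable K).sum_add_tsum_nat_add N
    rw [(kk_hasSum K).tsum_eq] at this
    linarith

lemma kk_zero (K : PMF ℕ) (hK0 : K 0 = 0) : kk K 0 = 0 := by simp [kk, hK0]

end Pool.Agent.H95.Cop
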