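import Mathlib
import Pool.Agent.H95.Cop.Model2

open MeasureTheory ProbabilityTheory Filter Topology
open scoped ENNReal

namespace Pool.Agent.H95.Cop

open Pool.Agent.H95

/-- renewal function of the inter-arrival weights k -/
noncomputable def uu (k : ℕ → ℝ) : ℕ → ℝ
  | 0 => 1
  | (n + 1) => ∑ j : Fin (n + 1), k (j + 1) * uu k (n - j)

lemma uu_zero (k : ℕ → ℝ) : uu k 0 = 1 := by rw [uu]

lemma uu_succ (k : ℕ → ℝ) (n : ℕ) :
    uu k (n + 1) = ∑ j ∈ Finset.range (n + 1), k (j + 1) * uu k (n - j) := by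
  rw [uu, Finset.sum_range]

lemma uu_nonneg (k : ℕ → ℝ) (hk : ∀ n, 0 ≤ k n) (n : ℕ) : 0 ≤ uu k n := by
  induction n using Nat.strong_induction_on with
  | _ n ih =>
    cases n with
    | zero => rw [uu_zero]; norm_num
    | succ n =>
      rw [uu_succ]
      apply Finset.sum_nonneg
      intro j hj
      exact mul_nonneg (hk _) (ih _ (by omega))

lemma tailK_succ (K : PMF ℕ) (n : ℕ) : tailK K (n + 1) = tailK K n - kk K n := by
  unfold tailK
  rw [Finset.sum_range_succ]; ring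

lemma tailK_zero (K : PMF ℕ) : tailK K 0 = 1 := by simp [tailK]

lemma tailK_one (K : PMF ℕ) (hK0 : K 0 = 0) : tailK K 1 = 1 := by
  rw [tailK_succ, tailK_zero, kk_zero K hK0]; ring

/-- renewal identity -/
lemma renewal_identity (K : PMF ℕ) (hK0 : K 0 = 0) (m : ℕ) :
    ∑ n ∈ Finset.range (m + 1), uu (kk K) n * tailK K (m + 1 - n) = 1 := by
  induction m with
  | zero => simp [uu_zero, tailK_one K hK0]
  | succ m ih =>
    rw [Finset.sum_range_succ]
    have h1 : ∀ n ∈ Finset.range (m + 1), uu (kk K) n * tailK K (m + 1 + 1 - n) =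
        uu (kk K) n * tailK K (m + 1 - n) - uu (kk K) n * kk K (m + 1 - n) := by
      intro n hn
      rw [Finset.mem_range] at hn
      have : m + 1 + 1 - n = (m + 1 - n) + 1 := by omega
      rw [this, tailK_succ]; ring
    rw [Finset.sum_congr rfl h1, Finset.sum_sub_distrib, ih]
    have h2 : m + 1 + 1 - (m + 1) = 1 := by omega
    rw [h2, tailK_one K hK0, mul_one, uu_succ]
    have h3 : ∑ n ∈ Finset.range (m + 1), uu (kk K) n * kk K (m + 1 - n) =
        ∑ j ∈ Finset.range (m + 1), kk K (j + 1) * uu (kk K) (m - j) := by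
      rw [← Finset.sum_range_reflect]
      apply Finset.sum_congr rfl
      intro j hj
      rw [Finset.mem_range] at hj
      have e1 : m + 1 - 1 - j = m - j := by omega
      have e2 : m + 1 - (m + 1 - 1 - j) = j + 1 := by omega
      rw [e2, e1]; ring
    rw [h3]; ring

/-- mass of the renewal function -/
noncomputable def UU (K : PMF ℕ) (L : ℕ) : ℝ := ∑ n ∈ Finset.range L, uu (kk K) n

lemma le_UU_mul (K : PMF ℕ) (hK0 : K 0 = 0) (L : ℕ) :
    (L : ℝ) ≤ UU K L * ∑ j ∈ Finset.range L, tailK K (j + 1) := by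
  have h1 : (L : ℝ) = ∑ m ∈ Finset.range L,
      ∑ n ∈ Finset.range (m + 1), uu (kk K) n * tailK K (m + 1 - n) := by
    simp_rw [renewal_identity K hK0]; simp
  rw [h1, UU, Finset.sum_mul]
  have h2 : ∑ m ∈ Finset.range L, ∑ n ∈ Finset.range (m + 1), uu (kk K) n * tailK K (m + 1 - n)
      = ∑ n ∈ Finset.range L, ∑ m ∈ Finset.Ico n L, uu (kk K) n * tailK K (m + 1 - n) := by
    apply Finset.sum_comm'
    intro m n
    simp only [Finset.mem_range, Finset.mem_Ico]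
    omega
  rw [h2]
  apply Finset.sum_le_sum
  intro n hn
  rw [Finset.mem_range] at hn
  rw [← Finset.mul_sum]
  apply mul_le_mul_of_nonneg_left _ (uu_nonneg _ (kk_nonneg K) n)
  have h3 : ∑ m ∈ Finset.Ico n L, tailK K (m + 1 - n) = ∑ j ∈ Finset.range (L - n), tailK K (j + 1) := by
    rw [Finset.sum_Ico_eq_sum_range]
    apply Finset.sum_congr rfl
    intro j hj
    congr 1; omega
  rw [h3]
  apply Finset.sum_le_sum_of_subset_of_nonneg
  · intro i hi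
    rw [Finset.mem_range] at hi ⊢
    omega
  · intro i _ _
    exact tailK_nonneg K _

lemma rpow_tele1 (α : ℝ) (hα : 0 < α) (n : ℕ) (hn : 1 ≤ n) :
    α * ((n : ℝ) + 1) ^ (-(1 + α)) ≤ (n : ℝ) ^ (-α) - ((n : ℝ) + 1) ^ (-α) := by
  have hn' : (1 : ℝ) ≤ n := by exact_mod_cast hn
  set t : ℝ := (n : ℝ) + 1 with ht
  have ht0 : 0 < t := by linarith
  have h1 : (n : ℝ) = t * (1 - 1 / t) := by
    field_simp; linarith
  have h2 : 0 < 1 - 1 / t := by
    rw [sub_pos, div_lt_one ht0]; linarith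
  have h3 : (n : ℝ) ^ (-α) = t ^ (-α) * (1 - 1 / t) ^ (-α) := by
    rw [h1, Real.mul_rpow ht0.le h2.le]
  have h4 : t ^ (-(1 + α)) = t ^ (-α) * (1 / t) := by
    rw [show -(1 + α) = -α + (-1) by ring, Real.rpow_add ht0, Real.rpow_neg_one]
    ring
  have h5 : 1 + α / t ≤ (1 - 1 / t) ^ (-α) := by
    rw [Real.rpow_def_of_pos h2]
    have h6 : Real.log (1 - 1 / t) ≤ -(1 / t) := by
      have := Real.log_le_sub_one_of_pos h2
      linarith
    have h7 : α / t ≤ Real.log (1 - 1 / t) * -α := by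
      have : α * (1 / t) ≤ α * (-Real.log (1 - 1 / t)) := by
        apply mul_le_mul_of_nonneg_left _ hα.le
        linarith
      calc α / t = α * (1 / t) := by ring
        _ ≤ _ := this
        _ = _ := by ring
    calc 1 + α / t = α / t + 1 := by ring
      _ ≤ Real.exp (α / t) := Real.add_one_le_exp _
      _ ≤ _ := Real.exp_le_exp.mpr h7
  have h8 : 0 < t ^ (-α) := Real.rpow_pos_of_pos ht0 _
  rw [h3, h4]
  have : t ^ (-α) * (1 + α / t) ≤ t ^ (-α) * (1 - 1 / t) ^ (-α) :=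
    mul_le_mul_of_nonneg_left h5 h8.le
  have e : α * (t ^ (-α) * (1 / t)) = t ^ (-α) * (α / t) := by ring
  rw [e]
  linarith [mul_add (t ^ (-α)) 1 (α / t)]

lemma rpow_tele2 (α : ℝ) (hα : 0 < α) (hα1 : α < 1) (n : ℕ) :
    (1 - α) * ((n : ℝ) + 1) ^ (-α) ≤ ((n : ℝ) + 1) ^ (1 - α) - (n : ℝ) ^ (1 - α) := by
  set t : ℝ := (n : ℝ) + 1 with ht
  have hn0 : (0:ℝ) ≤ n := Nat.cast_nonneg n
  have ht0 : 0 < t := by linarith
  have h1 : (n : ℝ) = t * (1 + (-(1 / t))) := by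
    field_simp; linarith
  have h2 : 0 ≤ 1 + (-(1 / t)) := by
    have : 1 / t ≤ 1 := by rw [div_le_one ht0]; linarith
    linarith
  have h3 : (n : ℝ) ^ (1 - α) = t ^ (1 - α) * (1 + (-(1 / t))) ^ (1 - α) := by
    rw [h1, Real.mul_rpow ht0.le h2]
  have h4 : t ^ (-α) = t ^ (1 - α) * (1 / t) := by
    rw [show -α = (1 - α) + (-1) by ring, Real.rpow_add ht0, Real.rpow_neg_one]
    ring
  have h5 : (1 + (-(1 / t))) ^ (1 - α) ≤ 1 + (1 - α) * (-(1 / t)) :=
    rpow_one_add_le_one_add_mul_self (by linarith) (by linarith) (by linarith)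
  have h8 : 0 < t ^ (1 - α) := Real.rpow_pos_of_pos ht0 _
  rw [h3, h4]
  nlinarith [mul_le_mul_of_nonneg_left h5 h8.le]

lemma sum_rpow_le (α : ℝ) (hα : 0 < α) (hα1 : α < 1) (L : ℕ) :
    ∑ j ∈ Finset.range L, ((j : ℝ) + 1) ^ (-α) ≤ (L : ℝ) ^ (1 - α) / (1 - α) := by
  rw [le_div_iff₀ (by linarith)]
  induction L with
  | zero => simp [Real.zero_rpow (show (1 - α) ≠ 0 by linarith)]
  | succ n ih =>
    rw [Finset.sum_range_succ, add_mul]
    have := rpow_tele2 α hα hα1 n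
    push_cast
    linarith

/-- upper bound for the weights -/
lemma exists_upper (α : ℝ) (hα : 0 < α) (K : PMF ℕ) (cK : ℝ)
    (hK : Tendsto (fun n : ℕ => (K n).toReal * (n : ℝ) ^ (1 + α)) atTop (𝓝 cK)) :
    ∃ C > 0, ∀ n : ℕ, 1 ≤ n → kk K n ≤ C * (n : ℝ) ^ (-(1 + α)) := by
  obtain ⟨C, hC⟩ := hK.bddAbove_range
  refine ⟨max C 1, by positivity, fun n hn => ?_⟩
  have h1 : (K n).toReal * (n : ℝ) ^ (1 + α) ≤ C := hC ⟨n, rfl⟩
  have hn0 : (0 : ℝ) < n := by exact_mod_cast hn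
  have h2 : 0 < (n : ℝ) ^ (1 + α) := Real.rpow_pos_of_pos hn0 _
  rw [Real.rpow_neg hn0.le, ← div_eq_mul_inv, le_div_iff₀ h2]
  exact h1.trans (le_max_left _ _)

lemma exists_lower (α : ℝ) (K : PMF ℕ) (cK : ℝ) (hcK : 0 < cK)
    (hK : Tendsto (fun n : ℕ => (K n).toReal * (n : ℝ) ^ (1 + α)) atTop (𝓝 cK)) :
    ∃ c > 0, ∃ n0 : ℕ, 1 ≤ n0 ∧ ∀ n : ℕ, n0 ≤ n → c * (n : ℝ) ^ (-(1 + α)) ≤ kk K n := by
  have h1 : ∀ᶠ n : ℕ in atTop, cK / 2 < (K n).toReal * (n : ℝ) ^ (1 + α) :=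
    hK.eventually (lt_mem_nhds (by linarith))
  obtain ⟨n1, hn1⟩ := eventually_atTop.mp h1
  refine ⟨cK / 2, by linarith, max n1 1, le_max_right _ _, fun n hn => ?_⟩
  have hn0 : (0 : ℝ) < n := by
    have : 1 ≤ n := (le_max_right _ _).trans hn
    exact_mod_cast this
  have h2 : 0 < (n : ℝ) ^ (1 + α) := Real.rpow_pos_of_pos hn0 _
  rw [Real.rpow_neg hn0.le, ← div_eq_mul_inv, div_le_iff₀ h2]
  exact (hn1 n ((le_max_left _ _).trans hn)).le

lemma exists_tail (α : ℝ) (hα : 0 < α) (K : PMF ℕ) (cK : ℝ)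
    (hK : Tendsto (fun n : ℕ => (K n).toReal * (n : ℝ) ^ (1 + α)) atTop (𝓝 cK)) :
    ∃ C > 0, ∀ n : ℕ, 1 ≤ n → tailK K n ≤ C * (n : ℝ) ^ (-α) := by
  obtain ⟨C, hC0, hC⟩ := exists_upper α hα K cK hK
  set C' : ℝ := C * 2 ^ (1 + α) / α with hC'
  have hC'0 : 0 < C' := by positivity
  refine ⟨C', hC'0, fun n hn => ?_⟩
  have key : ∀ j : ℕ, 1 ≤ j → kk K j ≤ C' * ((j : ℝ) ^ (-α) - ((j : ℝ) + 1) ^ (-α)) := by
    intro j hj
    have hj0 : (0 : ℝ) < j := by exact_mod_cast hj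
    have hj1 : (1 : ℝ) ≤ j := by exact_mod_cast hj
    refine (hC j hj).trans ?_
    have h1 := rpow_tele1 α hα j hj
    have h2 : (j : ℝ) ^ (-(1 + α)) ≤ 2 ^ (1 + α) * ((j : ℝ) + 1) ^ (-(1 + α)) := by
      have h3 : ((2 : ℝ) * j) ^ (-(1 + α)) ≤ ((j : ℝ) + 1) ^ (-(1 + α)) := by
        apply Real.rpow_le_rpow_of_nonpos (by linarith) (by linarith) (by linarith)
      rw [Real.mul_rpow (by norm_num) hj0.le] at h3
      have h4 : (0:ℝ) < 2 ^ (1 + α) := by positivity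
      have h5 : (2:ℝ) ^ (1 + α) * 2 ^ (-(1 + α)) = 1 := by
        rw [← Real.rpow_add (by norm_num)]; simp
      calc (j : ℝ) ^ (-(1 + α)) = (2:ℝ) ^ (1 + α) * (2 ^ (-(1 + α)) * (j : ℝ) ^ (-(1 + α))) := by
            rw [← mul_assoc, h5, one_mul]
        _ ≤ _ := mul_le_mul_of_nonneg_left h3 h4.le
    calc C * (j : ℝ) ^ (-(1 + α)) ≤ C * (2 ^ (1 + α) * ((j : ℝ) + 1) ^ (-(1 + α))) :=
          mul_le_mul_of_nonneg_left h2 hC0.le
      _ = C' * (α * ((j : ℝ) + 1) ^ (-(1 + α))) := by rw [hC']; field_simp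
      _ ≤ _ := mul_le_mul_of_nonneg_left h1 hC'0.le
  have hfin : ∀ M : ℕ, ∑ i ∈ Finset.range M, kk K (i + n) ≤
      C' * ((n : ℝ) ^ (-α) - ((M + n : ℕ) : ℝ) ^ (-α)) := by
    intro M
    induction M with
    | zero => simp
    | succ M ih =>
      rw [Finset.sum_range_succ]
      have h1 := key (M + n) (by omega)
      have e : ((M + 1 + n : ℕ) : ℝ) = ((M + n : ℕ) : ℝ) + 1 := by push_cast; ring
      rw [e]
      nlinarith
  have h1 : HasSum (fun i => kk K (i + n)) (tailK K n) := by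
    have := (kk_hasSum K)
    rw [← hasSum_nat_add_iff' n] at this
    exact this
  refine le_of_tendsto h1.tendsto_sum_nat (Filter.Eventually.of_forall (fun M => ?_))
  refine (hfin M).trans ?_
  apply mul_le_mul_of_nonneg_left _ hC'0.le
  have : 0 ≤ ((M + n : ℕ) : ℝ) ^ (-α) := Real.rpow_nonneg (Nat.cast_nonneg _) _
  linarith

lemma exists_UU (α : ℝ) (hα : 0 < α) (hα1 : α < 1) (K : PMF ℕ) (hK0 : K 0 = 0) (cK : ℝ)
    (hK : Tendsto (fun n : ℕ => (K n).toReal * (n : ℝ) ^ (1 + α)) atTop (𝓝 cK)) :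
    ∃ c > 0, ∀ L : ℕ, 1 ≤ L → c * (L : ℝ) ^ α ≤ UU K L := by
  obtain ⟨C, hC0, hC⟩ := exists_tail α hα K cK hK
  refine ⟨(1 - α) / C, div_pos (by linarith) hC0, fun L hL => ?_⟩
  have hL0 : (0 : ℝ) < L := by exact_mod_cast hL
  have h1 := le_UU_mul K hK0 L
  have h2 : ∑ j ∈ Finset.range L, tailK K (j + 1) ≤ C * ((L : ℝ) ^ (1 - α) / (1 - α)) := by
    calc ∑ j ∈ Finset.range L, tailK K (j + 1)
        ≤ ∑ j ∈ Finset.range L, C * ((j : ℝ) + 1) ^ (-α) := by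
          apply Finset.sum_le_sum
          intro j _
          have := hC (j + 1) (by omega)
          push_cast at this
          exact this
      _ = C * ∑ j ∈ Finset.range L, ((j : ℝ) + 1) ^ (-α) := by rw [Finset.mul_sum]
      _ ≤ _ := mul_le_mul_of_nonneg_left (sum_rpow_le α hα hα1 L) hC0.le
  have hU : 0 ≤ UU K L := Finset.sum_nonneg (fun n _ => uu_nonneg _ (kk_nonneg K) n)
  have h3 : (L : ℝ) ≤ UU K L * (C * ((L : ℝ) ^ (1 - α) / (1 - α))) :=
    h1.trans (mul_le_mul_of_nonneg_left h2 hU)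
  have h4 : (L : ℝ) = (L : ℝ) ^ α * (L : ℝ) ^ (1 - α) := by
    rw [← Real.rpow_add hL0]; simp
  have h5 : 0 < (L : ℝ) ^ (1 - α) := Real.rpow_pos_of_pos hL0 _
  have h6 : 0 < 1 - α := by linarith
  have h7 : (L : ℝ) ^ α * (L : ℝ) ^ (1 - α) ≤ (UU K L * C / (1 - α)) * (L : ℝ) ^ (1 - α) := by
    rw [← h4]
    calc (L : ℝ) ≤ _ := h3
      _ = _ := by ring
  have h8 := le_of_mul_le_mul_right h7 h5
  rw [div_mul_eq_mul_div, div_le_iff₀ hC0]
  rw [le_div_iff₀ h6] at h8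
  linarith

end Pool.Agent.H95.Cop
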