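import Mathlib
import Pool.Agent.H95.Cop.Renewal

open MeasureTheory ProbabilityTheory Filter Topology
open scoped ENNReal

namespace Pool.Agent.H95.Cop

open Pool.Agent.H95

lemma H_add (x : ℕ → ℝ) {a b c : ℕ} (hab : a ≤ b) (hbc : b ≤ c) : H x a b + H x b c = H x a c := by
  unfold H; exact Finset.sum_Ico_consecutive _ hab hbc

lemma H_self (x : ℕ → ℝ) (a : ℕ) : H x a a = 0 := by simp [H]

lemma H_shift (x : ℕ → ℝ) (s a b : ℕ) : H (shift s x) a b = H x (a + s) (b + s) := by
  unfold H
  simp only [shift_apply]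
  exact Finset.sum_Ico_add' x a b s

/-- value function from site `c`, for a system of total size `N` -/
noncomputable def V (K : PMF ℕ) (N : ℕ) (x : ℕ → ℝ) (c : ℕ) : ℝ := W K (N - c) (shift c x)

lemma V_pos (K : PMF ℕ) (N : ℕ) (x : ℕ → ℝ) (c : ℕ) : 0 < V K N x c := W_pos K _ _

/-- sign average of an excursion -/
noncomputable def wt (x : ℕ → ℝ) (a b : ℕ) : ℝ := (1 + Real.exp (H x a b)) / 2

lemma wt_pos (x : ℕ → ℝ) (a b : ℕ) : 0 < wt x a b := by unfold wt; positivity

lemma wt_ge (x : ℕ → ℝ) (a b : ℕ) : Real.exp (H x a b / 2) ≤ wt x a b := by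
  unfold wt
  have h : Real.exp (H x a b) = Real.exp (H x a b / 2) ^ 2 := by
    rw [← Real.exp_nat_mul]; congr 1; push_cast; ring
  rw [h]
  nlinarith [sq_nonneg (Real.exp (H x a b / 2) - 1)]

lemma V_super (K : PMF ℕ) (hK0 : K 0 = 0) (N : ℕ) (x : ℕ → ℝ) (c : ℕ) (hc : c ≤ N) :
    ∑ b ∈ Finset.Ico c N, kk K (b - c) * wt x c b * V K N x b ≤ V K N x c := by
  unfold V
  rw [W_sum K hK0 (N - c) (shift c x)]
  have h1 : ∑ b ∈ Finset.Ico c N, kk K (b - c) * wt x c b * W K (N - b) (shift b x) =
      ∑ n ∈ Finset.range (N - c), kk K n * ((1 + Real.exp (H (shift c x) 0 n)) / 2) *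
        W K (N - c - n) (shift n (shift c x)) := by
    rw [Finset.sum_Ico_eq_sum_range]
    apply Finset.sum_congr rfl
    intro n hn
    have e1 : c + n - c = n := by omega
    have e2 : N - (c + n) = N - c - n := by omega
    rw [e1, e2, H_shift, shift_shift, wt, zero_add, add_comm c n]
  rw [h1]
  have := tailK_nonneg K (N - c)
  have : 0 ≤ tailK K (N - c) * ((1 + Real.exp (H (shift c x) 0 (N - c))) / 2) := by positivity
  linarith

/-- `R(a)`: jump from `a` to the target set `B` -/
noncomputable def RR (K : PMF ℕ) (N : ℕ) (x : ℕ → ℝ) (B : Finset ℕ) (a : ℕ) : ℝ :=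
  ∑ b ∈ B, kk K (b - a) * wt x a b * V K N x b

lemma RR_nonneg (K : PMF ℕ) (N : ℕ) (x : ℕ → ℝ) (B : Finset ℕ) (a : ℕ) : 0 ≤ RR K N x B a := by
  unfold RR
  apply Finset.sum_nonneg
  intro b _
  have := kk_nonneg K (b - a)
  have := wt_pos x a b
  have := V_pos K N x b
  positivity

lemma uu_conv (k : ℕ → ℝ) (n : ℕ) (hn : 1 ≤ n) :
    uu k n = ∑ j ∈ Finset.Ico 1 (n + 1), k j * uu k (n - j) := by
  obtain ⟨m, rfl⟩ : ∃ m, n = m + 1 := ⟨n - 1, by omega⟩
  rw [uu_succ, Finset.sum_Ico_eq_sum_range]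
  apply Finset.sum_congr (by simp)
  intro j _
  have e1 : 1 + j = j + 1 := by omega
  have e2 : m + 1 - (j + 1) = m - j := by omega
  rw [e1, e2]

lemma V_ge_sum (K : PMF ℕ) (hK0 : K 0 = 0) (N : ℕ) (x : ℕ → ℝ) (L : ℕ) (hL : L ≤ N) (B : Finset ℕ)
    (hB : B ⊆ Finset.Ico L N) :
    ∀ d c : ℕ, c + d = L →
      ∑ a ∈ Finset.Ico c L, uu (kk K) (a - c) * Real.exp (H x c a / 2) * RR K N x B a ≤ V K N x c := by
  intro d
  induction d using Nat.strong_induction_on with
  | _ d ih =>
    intro c hcd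
    rcases Nat.eq_zero_or_pos d with hd | hd
    · have : Finset.Ico c L = ∅ := by rw [Finset.Ico_eq_empty_iff]; omega
      rw [this, Finset.sum_empty]
      exact (V_pos K N x c).le
    · refine le_trans ?_ (V_super K hK0 N x c (by omega))
      have hsub : (Finset.Ico (c + 1) L) ∪ B ⊆ Finset.Ico c N := by
        intro b hb
        rw [Finset.mem_union] at hb
        rcases hb with hb | hb
        · rw [Finset.mem_Ico] at hb ⊢; omega
        · have := hB hb
          rw [Finset.mem_Ico] at this ⊢; omega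
      have hdisj : Disjoint (Finset.Ico (c + 1) L) B := by
        rw [Finset.disjoint_left]
        intro b hb hb'
        have := hB hb'
        rw [Finset.mem_Ico] at this hb
        omega
      refine le_trans ?_ (Finset.sum_le_sum_of_subset_of_nonneg hsub (fun b _ _ => ?_))
      · rw [Finset.sum_union hdisj]
        have hR : ∑ b ∈ B, kk K (b - c) * wt x c b * V K N x b = RR K N x B c := rfl
        rw [hR]
        have h1 : ∑ b ∈ Finset.Ico (c + 1) L, kk K (b - c) * Real.exp (H x c b / 2) *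
            (∑ a ∈ Finset.Ico b L, uu (kk K) (a - b) * Real.exp (H x b a / 2) * RR K N x B a) ≤
            ∑ b ∈ Finset.Ico (c + 1) L, kk K (b - c) * wt x c b * V K N x b := by
          apply Finset.sum_le_sum
          intro b hb
          rw [Finset.mem_Ico] at hb
          have h2 := ih (L - b) (by omega) b (by omega)
          apply mul_le_mul _ h2 _ _
          · exact mul_le_mul_of_nonneg_left (wt_ge x c b) (kk_nonneg K _)
          · apply Finset.sum_nonneg
            intro a _
            have := uu_nonneg _ (kk_nonneg K) (a - b)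
            have := RR_nonneg K N x B a
            positivity
          · have := kk_nonneg K (b - c)
            have := wt_pos x c b
            positivity
        have h3 : ∑ b ∈ Finset.Ico (c + 1) L, kk K (b - c) * Real.exp (H x c b / 2) *
            (∑ a ∈ Finset.Ico b L, uu (kk K) (a - b) * Real.exp (H x b a / 2) * RR K N x B a) =
            ∑ a ∈ Finset.Ico (c + 1) L, uu (kk K) (a - c) * Real.exp (H x c a / 2) * RR K N x B a := by
          simp_rw [Finset.mul_sum]
          have : ∑ b ∈ Finset.Ico (c + 1) L, ∑ a ∈ Finset.Ico b L,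
              kk K (b - c) * Real.exp (H x c b / 2) *
                (uu (kk K) (a - b) * Real.exp (H x b a / 2) * RR K N x B a) =
              ∑ a ∈ Finset.Ico (c + 1) L, ∑ b ∈ Finset.Ico (c + 1) (a + 1),
              kk K (b - c) * Real.exp (H x c b / 2) *
                (uu (kk K) (a - b) * Real.exp (H x b a / 2) * RR K N x B a) := by
            apply Finset.sum_comm'
            intro b a
            simp only [Finset.mem_Ico]
            omega
          rw [this]
          apply Finset.sum_congr rfl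
          intro a ha
          rw [Finset.mem_Ico] at ha
          rw [uu_conv (kk K) (a - c) (by omega), Finset.sum_mul, Finset.sum_mul]
          have h5 : Finset.Ico (c + 1) (a + 1) = Finset.Ico (1 + c) ((a - c + 1) + c) := by
            congr 1 <;> omega
          rw [h5, ← Finset.sum_Ico_add' (fun b => kk K (b - c) * Real.exp (H x c b / 2) *
                (uu (kk K) (a - b) * Real.exp (H x b a / 2) * RR K N x B a)) 1 (a - c + 1) c]
          apply Finset.sum_congr rfl
          intro j hj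
          rw [Finset.mem_Ico] at hj
          have e1 : j + c - c = j := by omega
          have e2 : a - (j + c) = a - c - j := by omega
          have e3 : Real.exp (H x c a / 2) = Real.exp (H x c (j + c) / 2) * Real.exp (H x (j + c) a / 2) := by
            rw [← Real.exp_add, ← H_add x (show c ≤ j + c by omega) (show j + c ≤ a by omega)]
            congr 1; ring
          rw [e1, e2, e3]; ring
        rw [h3] at h1
        rw [Finset.sum_eq_sum_Ico_succ_bot (show c < L by omega)]
        rw [Nat.sub_self, uu_zero, H_self, zero_div, Real.exp_zero, one_mul, one_mul]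
        linarith
      · have := kk_nonneg K (b - c)
        have := wt_pos x c b
        have := V_pos K N x b
        positivity

lemma uu_pos_UU (K : PMF ℕ) (ℓ : ℕ) (hℓ : 1 ≤ ℓ) : 0 < UU K ℓ := by
  unfold UU
  have h : uu (kk K) 0 ≤ ∑ n ∈ Finset.range ℓ, uu (kk K) n :=
    Finset.single_le_sum (fun n _ => uu_nonneg _ (kk_nonneg K) n) (Finset.mem_range.mpr hℓ)
  rw [uu_zero] at h
  linarith

/-- one leg of the strategy -/
lemma leg (K : PMF ℕ) (hK0 : K 0 = 0) (N : ℕ) (x : ℕ → ℝ) (ℓ : ℕ) (hℓ : 1 ≤ ℓ) (c b0 : ℕ)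
    (hcb : c + ℓ ≤ b0) (hbN : b0 + ℓ ≤ N) (κ : ℝ) (hκ : 0 < κ)
    (hκk : ∀ n, b0 < n + c + ℓ → n + c < b0 + ℓ → κ ≤ kk K n) (θ : ℝ)
    (hθ : θ = 0 ∨ θ = 1) :
    Real.log (κ / 2 * (UU K ℓ * ℓ)) + (∑ j ∈ Finset.range ℓ, uu (kk K) j / UU K ℓ *
        ((1 / (ℓ : ℝ)) * ∑ i ∈ Finset.range ℓ,
          (H x c (c + j) / 2 + θ * H x (c + j) (b0 + i) + Real.log (V K N x (b0 + i)))))
      ≤ Real.log (V K N x c) := by
  have hU := uu_pos_UU K ℓ hℓ
  have hℓ0 : (0 : ℝ) < ℓ := by exact_mod_cast hℓ
  set E : ℕ × ℕ → ℝ := fun q => H x c (c + q.1) / 2 + θ * H x (c + q.1) (b0 + q.2) +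
    Real.log (V K N x (b0 + q.2)) with hE
  set wgt : ℕ × ℕ → ℝ := fun q => uu (kk K) q.1 / UU K ℓ * (1 / (ℓ : ℝ)) with hw
  have hw0 : ∀ q, 0 ≤ wgt q := by
    intro q
    have := uu_nonneg _ (kk_nonneg K) q.1
    simp only [hw]; positivity
  have hw1 : ∑ q ∈ Finset.range ℓ ×ˢ Finset.range ℓ, wgt q = 1 := by
    rw [Finset.sum_product]
    simp only [hw, Finset.sum_const, Finset.card_range, nsmul_eq_mul]
    rw [← Finset.mul_sum, ← Finset.sum_mul, ← Finset.sum_div]
    have : (∑ i ∈ Finset.range ℓ, uu (kk K) i) / UU K ℓ = 1 := div_self hU.ne'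
    rw [this]; field_simp
  have hJ : Real.exp (∑ q ∈ Finset.range ℓ ×ˢ Finset.range ℓ, wgt q * E q) ≤
      ∑ q ∈ Finset.range ℓ ×ˢ Finset.range ℓ, wgt q * Real.exp (E q) := by
    have := convexOn_exp.map_sum_le (t := Finset.range ℓ ×ˢ Finset.range ℓ) (w := wgt) (p := E)
      (fun q _ => hw0 q) hw1 (fun q _ => Set.mem_univ _)
    simpa [smul_eq_mul] using this
  have hVlow : κ / 2 * (UU K ℓ * ℓ) * ∑ q ∈ Finset.range ℓ ×ˢ Finset.range ℓ, wgt q * Real.exp (E q)
      ≤ V K N x c := by
    have hB : Finset.Ico b0 (b0 + ℓ) ⊆ Finset.Ico (c + ℓ) N := by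
      intro b hb
      rw [Finset.mem_Ico] at hb ⊢; omega
    have h1 := V_ge_sum K hK0 N x (c + ℓ) (by omega) (Finset.Ico b0 (b0 + ℓ)) hB ℓ c rfl
    refine le_trans ?_ h1
    rw [Finset.mul_sum, Finset.sum_product, Finset.sum_Ico_eq_sum_range]
    have e0 : c + ℓ - c = ℓ := by omega
    rw [e0]
    apply Finset.sum_le_sum
    intro j hj
    rw [Finset.mem_range] at hj
    have e1 : c + j - c = j := by omega
    rw [e1, RR, Finset.sum_Ico_eq_sum_range]
    have e2 : b0 + ℓ - b0 = ℓ := by omega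
    rw [e2, Finset.mul_sum]
    apply Finset.sum_le_sum
    intro i hi
    rw [Finset.mem_range] at hi
    have hk := hκk (b0 + i - (c + j)) (by omega) (by omega)
    have hw2 : Real.exp (θ * H x (c + j) (b0 + i)) / 2 ≤ wt x (c + j) (b0 + i) := by
      unfold wt
      have := Real.exp_pos (H x (c + j) (b0 + i))
      rcases hθ with h | h
      · rw [h, zero_mul, Real.exp_zero]; linarith
      · rw [h, one_mul]; linarith
    have hV := V_pos K N x (b0 + i)
    have hu := uu_nonneg _ (kk_nonneg K) j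
    have hEexp : Real.exp (E (j, i)) = Real.exp (H x c (c + j) / 2) *
        Real.exp (θ * H x (c + j) (b0 + i)) * V K N x (b0 + i) := by
      simp only [hE]
      rw [Real.exp_add, Real.exp_add, Real.exp_log hV]
    rw [hEexp]
    have e3 : κ / 2 * (UU K ℓ * ↑ℓ) * (wgt (j, i) * (Real.exp (H x c (c + j) / 2) *
        Real.exp (θ * H x (c + j) (b0 + i)) * V K N x (b0 + i))) =
        uu (kk K) j * Real.exp (H x c (c + j) / 2) *
        (κ * (Real.exp (θ * H x (c + j) (b0 + i)) / 2) * V K N x (b0 + i)) := by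
      simp only [hw]
      field_simp
    rw [e3]
    apply mul_le_mul_of_nonneg_left _ (by positivity)
    apply mul_le_mul_of_nonneg_right _ hV.le
    exact mul_le_mul hk hw2 (by positivity) (kk_nonneg K _)
  have hpos : 0 < κ / 2 * (UU K ℓ * ℓ) := by positivity
  have h2 : κ / 2 * (UU K ℓ * ℓ) * Real.exp (∑ q ∈ Finset.range ℓ ×ˢ Finset.range ℓ, wgt q * E q)
      ≤ V K N x c := (mul_le_mul_of_nonneg_left hJ hpos.le).trans hVlow
  have h3 := Real.log_le_log (by positivity) h2
  rw [Real.log_mul hpos.ne' (Real.exp_pos _).ne', Real.log_exp] at h3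
  refine le_trans (le_of_eq ?_) h3
  congr 1
  rw [Finset.sum_product]
  apply Finset.sum_congr rfl
  intro j _
  simp only [hw, hE]
  rw [Finset.mul_sum, Finset.mul_sum]
  apply Finset.sum_congr rfl
  intro i _
  ring

end Pool.Agent.H95.Cop
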