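import Mathlib
import Pool.Agent.H95.ProdMeas

open MeasureTheory ProbabilityTheory Filter Topology
open scoped ENNReal

namespace Pool.Agent.H95.Cop

open Pool.Agent.H95

variable (μ : Measure ℝ) [IsProbabilityMeasure μ]

lemma integrable_mul_shift {t : ℕ} {f g : (ℕ → ℝ) → ℝ} (hf : DepLt t f)
    (hfi : Integrable f (iid μ)) (hgi : Integrable g (iid μ)) :
    Integrable (fun x => f x * g (shift t x)) (iid μ) := by
  have hmp := measurePreserving_splice μ t
  have hg' : AEStronglyMeasurable (fun x => g (shift t x)) (iid μ) :=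
    hgi.aestronglyMeasurable.comp_measurePreserving (measurePreserving_shift μ t)
  have h1 : Integrable (fun q : (ℕ → ℝ) × (ℕ → ℝ) => f q.1 * g q.2) ((iid μ).prod (iid μ)) :=
    hfi.mul_prod hgi
  have h2 : (fun q : (ℕ → ℝ) × (ℕ → ℝ) => f q.1 * g q.2) =
      (fun x => f x * g (shift t x)) ∘ (splice t) := by
    funext q
    simp only [Function.comp_apply, hf.splice_eq, shift_splice]
  rw [h2] at h1
  exact (hmp.integrable_comp (hfi.aestronglyMeasurable.mul hg')).mp h1

lemma integrable_comp_shift {t : ℕ} {g : (ℕ → ℝ) → ℝ} (hgi : Integrable g (iid μ)) :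
    Integrable (fun x => g (shift t x)) (iid μ) :=
  (measurePreserving_shift μ t).integrable_comp_of_integrable hgi

lemma integral_comp_shift {t : ℕ} {g : (ℕ → ℝ) → ℝ} (hgi : Integrable g (iid μ)) :
    ∫ x, g (shift t x) ∂(iid μ) = ∫ x, g x ∂(iid μ) := by
  have h := integral_mul_shift μ (t := t) (f := fun _ => (1:ℝ)) (g := g) (fun _ _ _ => rfl)
    aestronglyMeasurable_const hgi.aestronglyMeasurable
  simpa using h

/-- random walk with steps `f (ω i)` -/
noncomputable def S (f : ℝ → ℝ) (n : ℕ) (ω : ℕ → ℝ) : ℝ := ∑ i ∈ Finset.range n, f (ω i)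

lemma S_zero (f : ℝ → ℝ) (ω : ℕ → ℝ) : S f 0 ω = 0 := by simp [S]

lemma S_one (f : ℝ → ℝ) (ω : ℕ → ℝ) : S f 1 ω = f (ω 0) := by simp [S]

lemma S_succ (f : ℝ → ℝ) (n : ℕ) (ω : ℕ → ℝ) : S f (n + 1) ω = S f n ω + f (ω n) := by
  simp [S, Finset.sum_range_succ]

lemma S_add (f : ℝ → ℝ) (n m : ℕ) (ω : ℕ → ℝ) : S f (n + m) ω = S f n ω + S f m (shift n ω) := by
  unfold S
  rw [Finset.sum_range_add]
  congr 1
  apply Finset.sum_congr rfl
  intro i _
  rw [shift_apply, add_comm]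

lemma S_dep (f : ℝ → ℝ) (n : ℕ) : DepLt n (S f n) := by
  intro x x' h
  unfold S
  apply Finset.sum_congr rfl
  intro i hi
  rw [h i (Finset.mem_range.mp hi)]

lemma measurable_S {f : ℝ → ℝ} (hf : Measurable f) (n : ℕ) : Measurable (S f n) := by
  unfold S
  apply Finset.measurable_sum
  intro i _
  exact hf.comp (measurable_pi_apply i)

lemma integrable_eval {g : ℝ → ℝ} (hg : Integrable g μ) (i : ℕ) :
    Integrable (fun ω : ℕ → ℝ => g (ω i)) (iid μ) :=
  (measurePreserving_eval_infinitePi (fun _ : ℕ => μ) i).integrable_comp_of_integrable hg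

lemma integral_eval {g : ℝ → ℝ} (hg : Integrable g μ) (i : ℕ) :
    ∫ ω : ℕ → ℝ, g (ω i) ∂(iid μ) = ∫ z, g z ∂μ := by
  have hmp := measurePreserving_eval_infinitePi (fun _ : ℕ => μ) i
  have h := integral_map (φ := Function.eval i) (f := g) hmp.measurable.aemeasurable
    (by rw [hmp.map_eq]; exact hg.aestronglyMeasurable)
  rw [hmp.map_eq] at h
  exact h.symm

lemma integrable_exp_S {f : ℝ → ℝ} (a : ℝ)
    (hi : Integrable (fun z => Real.exp (a * f z)) μ) (n : ℕ) :
    Integrable (fun ω => Real.exp (a * S f n ω)) (iid μ) := by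
  induction n with
  | zero => simp only [S_zero, mul_zero, Real.exp_zero]; exact integrable_const 1
  | succ n ih =>
    have h1 : (fun ω => Real.exp (a * S f (n + 1) ω)) =
        fun ω => Real.exp (a * S f n ω) * (fun ω' : ℕ → ℝ => Real.exp (a * f (ω' 0))) (shift n ω) := by
      funext ω
      simp only [S_succ, shift_apply, zero_add]
      rw [mul_add, Real.exp_add]
    rw [h1]
    apply integrable_mul_shift μ _ ih (integrable_eval μ hi 0)
    intro x x' h
    beta_reduce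
    rw [S_dep f n x x' h]

lemma integral_exp_S {f : ℝ → ℝ} (a : ℝ)
    (hi : Integrable (fun z => Real.exp (a * f z)) μ) (n : ℕ) :
    ∫ ω, Real.exp (a * S f n ω) ∂(iid μ) = (∫ z, Real.exp (a * f z) ∂μ) ^ n := by
  induction n with
  | zero => simp [S_zero]
  | succ n ih =>
    have h1 : (fun ω => Real.exp (a * S f (n + 1) ω)) =
        fun ω => Real.exp (a * S f n ω) * (fun ω' : ℕ → ℝ => Real.exp (a * f (ω' 0))) (shift n ω) := by
      funext ω
      simp only [S_succ, shift_apply, zero_add]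
      rw [mul_add, Real.exp_add]
    rw [h1, integral_mul_shift μ _ (integrable_exp_S μ a hi n).aestronglyMeasurable
      (integrable_eval μ hi 0).aestronglyMeasurable, ih, integral_eval μ hi 0, pow_succ]
    intro x x' h
    beta_reduce
    rw [S_dep f n x x' h]

/-- first passage above `w` at time `n`, staying positive at block times -/
def Cset (f : ℝ → ℝ) (ℓ : ℕ) (w : ℝ) (n : ℕ) : Set (ℕ → ℝ) :=
  {ω | w ≤ S f n ω ∧ (∀ i < n, S f i ω < w) ∧ ∀ j, 1 ≤ j → j * ℓ ≤ n → 0 < S f (j * ℓ) ω}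

lemma Cset_dep (f : ℝ → ℝ) (ℓ : ℕ) (w : ℝ) (n : ℕ) : DepLt n (fun ω => ω ∈ Cset f ℓ w n) := by
  intro x x' h
  have hS : ∀ i ≤ n, S f i x = S f i x' := fun i hi =>
    S_dep f i x x' (fun j hj => h j (by omega))
  simp only [Cset, Set.mem_ofPred_eq, eq_iff_iff]
  rw [hS n le_rfl]
  constructor
  · rintro ⟨h1, h2, h3⟩
    exact ⟨h1, fun i hi => by rw [← hS i hi.le]; exact h2 i hi,
      fun j hj hjn => by rw [← hS _ hjn]; exact h3 j hj hjn⟩
  · rintro ⟨h1, h2, h3⟩
    exact ⟨h1, fun i hi => by rw [hS i hi.le]; exact h2 i hi,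
      fun j hj hjn => by rw [hS _ hjn]; exact h3 j hj hjn⟩

lemma measurableSet_Cset {f : ℝ → ℝ} (hf : Measurable f) (ℓ : ℕ) (w : ℝ) (n : ℕ) :
    MeasurableSet (Cset f ℓ w n) := by
  have h1 : Cset f ℓ w n = {ω | w ≤ S f n ω} ∩ (⋂ i ∈ Finset.range n, {ω | S f i ω < w}) ∩
      ⋂ j : ℕ, ⋂ (_ : 1 ≤ j), ⋂ (_ : j * ℓ ≤ n), {ω | 0 < S f (j * ℓ) ω} := by
    ext ω
    simp only [Cset, Set.mem_ofPred_eq, Set.mem_inter_iff, Set.mem_iInter, Finset.mem_range, and_assoc]
  rw [h1]
  refine ((measurableSet_le measurable_const (measurable_S hf n)).inter ?_).inter ?_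
  · exact Finset.measurableSet_biInter _ (fun i _ => measurableSet_lt (measurable_S hf i) measurable_const)
  · exact MeasurableSet.iInter (fun j => MeasurableSet.iInter (fun _ => MeasurableSet.iInter
      (fun _ => measurableSet_lt measurable_const (measurable_S hf _))))

/-- path success within `m` blocks -/
def PS (f : ℝ → ℝ) (ℓ : ℕ) (w : ℝ) (m : ℕ) : Set (ℕ → ℝ) :=
  {ω | ∃ n, n ≤ m * ℓ ∧ ω ∈ Cset f ℓ w n}

lemma measurableSet_PS {f : ℝ → ℝ} (hf : Measurable f) (ℓ : ℕ) (w : ℝ) (m : ℕ) :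
    MeasurableSet (PS f ℓ w m) := by
  have : PS f ℓ w m = ⋃ n : ℕ, ⋃ (_ : n ≤ m * ℓ), Cset f ℓ w n := by
    ext ω; simp [PS]
  rw [this]
  exact MeasurableSet.iUnion (fun n => MeasurableSet.iUnion (fun _ => measurableSet_Cset hf ℓ w n))

lemma PS_dep (f : ℝ → ℝ) (ℓ : ℕ) (w : ℝ) (m : ℕ) : DepLt (m * ℓ) (fun ω => ω ∈ PS f ℓ w m) := by
  intro x x' h
  simp only [PS, Set.mem_ofPred_eq, eq_iff_iff]
  constructor
  · rintro ⟨n, hn, hx⟩
    refine ⟨n, hn, ?_⟩
    have := Cset_dep f ℓ w n x x' (fun i hi => h i (by omega))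
    simp only [eq_iff_iff] at this
    exact this.mp hx
  · rintro ⟨n, hn, hx⟩
    refine ⟨n, hn, ?_⟩
    have := Cset_dep f ℓ w n x x' (fun i hi => h i (by omega))
    simp only [eq_iff_iff] at this
    exact this.mpr hx

end Pool.Agent.H95.Cop
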