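import Mathlib
import Pool.Agent.H95.Cop.Walk

open MeasureTheory ProbabilityTheory Filter Topology
open scoped ENNReal

namespace Pool.Agent.H95.Cop

open Pool.Agent.H95

variable (μ : Measure ℝ) [IsProbabilityMeasure μ]

/-- first passage with bounded overshoot -/
def Cset' (f : ℝ → ℝ) (ℓ : ℕ) (w : ℝ) (n : ℕ) : Set (ℕ → ℝ) :=
  Cset f ℓ w n ∩ {ω | S f n ω ≤ w + 1}

lemma measurableSet_Cset' {f : ℝ → ℝ} (hf : Measurable f) (ℓ : ℕ) (w : ℝ) (n : ℕ) :
    MeasurableSet (Cset' f ℓ w n) :=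
  (measurableSet_Cset hf ℓ w n).inter (measurableSet_le (measurable_S hf n) measurable_const)

lemma Cset'_dep (f : ℝ → ℝ) (ℓ : ℕ) (w : ℝ) (n : ℕ) : DepLt n (fun ω => ω ∈ Cset' f ℓ w n) := by
  intro x x' h
  have h1 := Cset_dep f ℓ w n x x' h
  have h2 := S_dep f n x x' h
  simp only [eq_iff_iff] at h1
  simp only [Cset', Set.mem_inter_iff, Set.mem_ofPred_eq, eq_iff_iff, h1, h2]

lemma Cset_disj (f : ℝ → ℝ) (ℓ : ℕ) (w : ℝ) {n n' : ℕ} (hne : n < n') (ω : ℕ → ℝ)
    (h : ω ∈ Cset f ℓ w n) : ω ∉ Cset f ℓ w n' := by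
  intro h'
  have h1 := h'.2.1 n hne
  have h2 := h.1
  linarith

lemma pointwise_cover (f : ℝ → ℝ) (γ : ℝ) (hγ : 0 < γ) (ℓ : ℕ) (w : ℝ) (hw : 0 < w) (m : ℕ)
    (ω : ℕ → ℝ) :
    1 ≤ ∑ n ∈ Finset.range (m * ℓ + 1), (Cset' f ℓ w n).indicator (fun _ => (1:ℝ)) ω +
      ∑ j ∈ Finset.range m, Real.exp (-(γ / 2) * S f ((j + 1) * ℓ) ω) +
      Real.exp (γ / 2 * (w - S f (m * ℓ) ω)) +
      ∑ n ∈ Finset.range (m * ℓ), ({z : ℝ | 1 < f z}).indicator (fun _ => (1:ℝ)) (ω n) := by
  have p1 : 0 ≤ ∑ n ∈ Finset.range (m * ℓ + 1), (Cset' f ℓ w n).indicator (fun _ => (1:ℝ)) ω :=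
    Finset.sum_nonneg (fun n _ => Set.indicator_nonneg (fun _ _ => zero_le_one) _)
  have p2 : 0 ≤ ∑ j ∈ Finset.range m, Real.exp (-(γ / 2) * S f ((j + 1) * ℓ) ω) :=
    Finset.sum_nonneg (fun n _ => (Real.exp_pos _).le)
  have p3 : 0 ≤ Real.exp (γ / 2 * (w - S f (m * ℓ) ω)) := (Real.exp_pos _).le
  have p4 : 0 ≤ ∑ n ∈ Finset.range (m * ℓ), ({z : ℝ | 1 < f z}).indicator (fun _ => (1:ℝ)) (ω n) :=
    Finset.sum_nonneg (fun n _ => Set.indicator_nonneg (fun _ _ => zero_le_one) _)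
  by_cases c4 : ∃ n < m * ℓ, 1 < f (ω n)
  · obtain ⟨n, hn, hfn⟩ := c4
    have : (1:ℝ) ≤ ∑ n ∈ Finset.range (m * ℓ), ({z : ℝ | 1 < f z}).indicator (fun _ => (1:ℝ)) (ω n) := by
      have h1 := Finset.single_le_sum (f := fun n => ({z : ℝ | 1 < f z}).indicator (fun _ => (1:ℝ)) (ω n))
        (fun n _ => Set.indicator_nonneg (fun _ _ => zero_le_one) _) (Finset.mem_range.mpr hn)
      rw [Set.indicator_of_mem (show ω n ∈ {z : ℝ | 1 < f z} from hfn)] at h1
      exact h1
    linarith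
  by_cases c2 : ∃ j < m, S f ((j + 1) * ℓ) ω ≤ 0
  · obtain ⟨j, hj, hS⟩ := c2
    have : (1:ℝ) ≤ ∑ j ∈ Finset.range m, Real.exp (-(γ / 2) * S f ((j + 1) * ℓ) ω) := by
      have h1 := Finset.single_le_sum (f := fun j => Real.exp (-(γ / 2) * S f ((j + 1) * ℓ) ω))
        (fun n _ => (Real.exp_pos _).le) (Finset.mem_range.mpr hj)
      refine le_trans ?_ h1
      rw [← Real.exp_zero]
      apply Real.exp_le_exp.mpr
      nlinarith
    linarith
  push Not at c4 c2
  by_cases c3 : ∀ i ≤ m * ℓ, S f i ω < w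
  · have : (1:ℝ) ≤ Real.exp (γ / 2 * (w - S f (m * ℓ) ω)) := by
      rw [← Real.exp_zero]
      apply Real.exp_le_exp.mpr
      have := c3 (m * ℓ) le_rfl
      have : 0 < w - S f (m * ℓ) ω := by linarith
      positivity
    linarith
  · push Not at c3
    classical
    have hex : ∃ i, i ≤ m * ℓ ∧ w ≤ S f i ω := c3
    set n := Nat.find hex with hn
    have hspec := Nat.find_spec hex
    rw [← hn] at hspec
    have hmin : ∀ i < n, S f i ω < w := by
      intro i hi
      have h1 := Nat.find_min hex (by rw [← hn]; exact hi)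
      by_contra hcon
      push Not at hcon
      exact h1 ⟨by omega, hcon⟩
    have hn1 : n ≠ 0 := by
      intro h0
      rw [h0, S_zero] at hspec
      linarith [hspec.2]
    obtain ⟨n', hn'⟩ := Nat.exists_eq_succ_of_ne_zero hn1
    have hmem : ω ∈ Cset' f ℓ w n := by
      refine ⟨⟨hspec.2, hmin, ?_⟩, ?_⟩
      · intro j hj hjn
        obtain ⟨j', rfl⟩ : ∃ j', j = j' + 1 := ⟨j - 1, by omega⟩
        apply c2
        by_contra hcon
        push Not at hcon
        have h1 : (m + 1) * ℓ ≤ (j' + 1) * ℓ := Nat.mul_le_mul_right ℓ (by omega)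
        rcases Nat.eq_zero_or_pos ℓ with hl | hl
        · rw [hl, mul_zero] at hspec
          omega
        · have h2 : (m + 1) * ℓ = m * ℓ + ℓ := by ring
          omega
      · simp only [Set.mem_ofPred_eq]
        rw [hn', Nat.succ_eq_add_one, S_succ]
        have h1 := hmin n' (by omega)
        have h2 := c4 n' (by omega)
        linarith
    have : (1:ℝ) ≤ ∑ n ∈ Finset.range (m * ℓ + 1), (Cset' f ℓ w n).indicator (fun _ => (1:ℝ)) ω := by
      have h1 := Finset.single_le_sum (f := fun n => (Cset' f ℓ w n).indicator (fun _ => (1:ℝ)) ω)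
        (fun n _ => Set.indicator_nonneg (fun _ _ => zero_le_one) _)
        (Finset.mem_range.mpr (show n < m * ℓ + 1 by omega))
      rw [Set.indicator_of_mem hmem] at h1
      exact h1
    linarith

lemma tilt_term (f : ℝ → ℝ) (γ : ℝ)
    (hi1 : Integrable (fun z => Real.exp (γ * f z)) μ) (h1 : ∫ z, Real.exp (γ * f z) ∂μ = 1)
    {n T : ℕ} (hn : n ≤ T) {g : (ℕ → ℝ) → ℝ} (hg : DepLt n g) (hgi : Integrable g (iid μ)) :
    Integrable (fun ω => g ω * Real.exp (γ * S f (T - n) (shift n ω))) (iid μ) ∧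
    ∫ ω, g ω * Real.exp (γ * S f (T - n) (shift n ω)) ∂(iid μ) = ∫ ω, g ω ∂(iid μ) := by
  constructor
  · exact integrable_mul_shift μ hg hgi (integrable_exp_S μ γ hi1 (T - n))
  · have := integral_mul_shift μ (t := n) (f := g) (g := fun ω => Real.exp (γ * S f (T - n) ω)) hg
      hgi.aestronglyMeasurable (integrable_exp_S μ γ hi1 (T - n)).aestronglyMeasurable
    rw [this, integral_exp_S μ γ hi1, h1, one_pow, mul_one]

lemma PS_lower {f : ℝ → ℝ} (hf : Measurable f) (γ : ℝ) (hγ : 0 < γ)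
    (hi1 : Integrable (fun z => Real.exp (γ * f z)) μ) (h1 : ∫ z, Real.exp (γ * f z) ∂μ = 1)
    (hi2 : Integrable (fun z => Real.exp (γ / 2 * f z)) μ) (ℓ : ℕ) (w : ℝ) (hw : 0 < w) (m : ℕ) :
    Real.exp (-(γ * (w + 1))) * (1 - ∑ j ∈ Finset.range m, ((∫ z, Real.exp (γ / 2 * f z) ∂μ) ^ ℓ) ^ (j + 1)
      - Real.exp (γ / 2 * w) * ((∫ z, Real.exp (γ / 2 * f z) ∂μ) ^ ℓ) ^ m
      - ((m * ℓ : ℕ) : ℝ) * ∫ z, ({z : ℝ | 1 < f z}).indicator (fun z => Real.exp (γ * f z)) z ∂μ)
      ≤ (iid μ).real (PS f ℓ w m) := by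
  set T := m * ℓ with hT
  set ρ := (∫ z, Real.exp (γ / 2 * f z) ∂μ) ^ ℓ with hρ
  set κ := ∫ z, ({z : ℝ | 1 < f z}).indicator (fun z => Real.exp (γ * f z)) z ∂μ with hκ
  -- the four families of functions
  set F1 : ℕ → (ℕ → ℝ) → ℝ := fun n ω => (Cset' f ℓ w n).indicator (fun ω => Real.exp (γ * S f n ω)) ω *
    Real.exp (γ * S f (T - n) (shift n ω)) with hF1
  set F2 : ℕ → (ℕ → ℝ) → ℝ := fun j ω => Real.exp (γ / 2 * S f ((j + 1) * ℓ) ω) *
    Real.exp (γ * S f (T - (j + 1) * ℓ) (shift ((j + 1) * ℓ) ω)) with hF2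
  set F3 : (ℕ → ℝ) → ℝ := fun ω => Real.exp (γ / 2 * w) * Real.exp (γ / 2 * S f T ω) with hF3
  set F4 : ℕ → (ℕ → ℝ) → ℝ := fun n ω =>
    (Real.exp (γ * S f n ω) * (fun ω' : ℕ → ℝ =>
      ({z : ℝ | 1 < f z}).indicator (fun z => Real.exp (γ * f z)) (ω' 0)) (shift n ω)) *
    Real.exp (γ * S f (T - (n + 1)) (shift (n + 1) ω)) with hF4
  have hmeas1 : MeasurableSet {z : ℝ | 1 < f z} := measurableSet_lt measurable_const hf
  have hind : Integrable (({z : ℝ | 1 < f z}).indicator (fun z => Real.exp (γ * f z))) μ :=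
    hi1.indicator hmeas1
  -- integrals
  have I1 : ∀ n ≤ T, Integrable (F1 n) (iid μ) ∧
      ∫ ω, F1 n ω ∂(iid μ) ≤ Real.exp (γ * (w + 1)) * (iid μ).real (Cset' f ℓ w n) := by
    intro n hn
    have hdep : DepLt n (fun ω => (Cset' f ℓ w n).indicator (fun ω => Real.exp (γ * S f n ω)) ω) := by
      intro x x' h
      have h1 := Cset'_dep f ℓ w n x x' h
      have h2 := S_dep f n x x' h
      simp only [eq_iff_iff] at h1
      by_cases hx : x ∈ Cset' f ℓ w n
      · beta_reduce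
        rw [Set.indicator_of_mem hx, Set.indicator_of_mem (h1.mp hx), h2]
      · beta_reduce
        rw [Set.indicator_of_notMem hx, Set.indicator_of_notMem (fun hc => hx (h1.mpr hc))]
    have hint := (integrable_exp_S μ γ hi1 n).indicator (measurableSet_Cset' hf ℓ w n)
    obtain ⟨ha, hb⟩ := tilt_term μ f γ hi1 h1 hn hdep hint
    refine ⟨ha, ?_⟩
    simp only [hF1]
    rw [hb]
    have h5 : Integrable ((Cset' f ℓ w n).indicator (fun _ : ℕ → ℝ => Real.exp (γ * (w + 1)))) (iid μ) :=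
      (integrable_const _).indicator (measurableSet_Cset' hf ℓ w n)
    calc ∫ ω, (Cset' f ℓ w n).indicator (fun ω => Real.exp (γ * S f n ω)) ω ∂(iid μ)
        ≤ ∫ ω, (Cset' f ℓ w n).indicator (fun _ => Real.exp (γ * (w + 1))) ω ∂(iid μ) := by
          apply integral_mono hint h5
          intro ω
          by_cases hx : ω ∈ Cset' f ℓ w n
          · beta_reduce
            rw [Set.indicator_of_mem hx, Set.indicator_of_mem hx]
            apply Real.exp_le_exp.mpr
            exact mul_le_mul_of_nonneg_left hx.2 hγ.le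
          · beta_reduce
            rw [Set.indicator_of_notMem hx, Set.indicator_of_notMem hx]
      _ = _ := by
          rw [integral_indicator (measurableSet_Cset' hf ℓ w n), setIntegral_const, smul_eq_mul, mul_comm]
  have I2 : ∀ j < m, Integrable (F2 j) (iid μ) ∧ ∫ ω, F2 j ω ∂(iid μ) = ρ ^ (j + 1) := by
    intro j hj
    have hle : (j + 1) * ℓ ≤ T := Nat.mul_le_mul_right ℓ (by omega)
    have hdep : DepLt ((j + 1) * ℓ) (fun ω => Real.exp (γ / 2 * S f ((j + 1) * ℓ) ω)) := by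
      intro x x' h
      beta_reduce
      rw [S_dep f _ x x' h]
    obtain ⟨ha, hb⟩ := tilt_term μ f γ hi1 h1 hle hdep (integrable_exp_S μ (γ / 2) hi2 ((j + 1) * ℓ))
    refine ⟨ha, ?_⟩
    simp only [hF2]
    rw [hb, integral_exp_S μ (γ / 2) hi2, hρ, ← pow_mul, mul_comm]
  have I3 : Integrable F3 (iid μ) ∧ ∫ ω, F3 ω ∂(iid μ) = Real.exp (γ / 2 * w) * ρ ^ m := by
    refine ⟨(integrable_exp_S μ (γ / 2) hi2 T).const_mul _, ?_⟩
    simp only [hF3]
    rw [integral_const_mul, integral_exp_S μ (γ / 2) hi2, hρ, ← pow_mul, hT, mul_comm m ℓ]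
  have I4 : ∀ n < T, Integrable (F4 n) (iid μ) ∧ ∫ ω, F4 n ω ∂(iid μ) = κ := by
    intro n hn
    have hdep0 : DepLt n (fun ω => Real.exp (γ * S f n ω)) := by
      intro x x' h
      beta_reduce
      rw [S_dep f n x x' h]
    have hdep : DepLt (n + 1) (fun ω => (Real.exp (γ * S f n ω) * (fun ω' : ℕ → ℝ =>
        ({z : ℝ | 1 < f z}).indicator (fun z => Real.exp (γ * f z)) (ω' 0)) (shift n ω))) := by
      intro x x' h
      have e1 : x n = x' n := h n (by omega)
      have e2 := S_dep f n x x' (fun i hi => h i (by omega))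
      simp only [shift_apply, zero_add]
      rw [e2, e1]
    have hint := integrable_mul_shift μ hdep0 (integrable_exp_S μ γ hi1 n) (integrable_eval μ hind 0)
    obtain ⟨ha, hb⟩ := tilt_term μ f γ hi1 h1 (show n + 1 ≤ T by omega) hdep hint
    refine ⟨ha, ?_⟩
    simp only [hF4]
    rw [hb, integral_mul_shift μ hdep0 (integrable_exp_S μ γ hi1 n).aestronglyMeasurable
      (integrable_eval μ hind 0).aestronglyMeasurable, integral_exp_S μ γ hi1, h1, one_pow, one_mul]
    exact integral_eval μ hind 0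
  -- pointwise inequality
  have hpt : ∀ ω, Real.exp (γ * S f T ω) ≤ ∑ n ∈ Finset.range (T + 1), F1 n ω +
      ∑ j ∈ Finset.range m, F2 j ω + F3 ω + ∑ n ∈ Finset.range T, F4 n ω := by
    intro ω
    have hc := pointwise_cover f γ hγ ℓ w hw m ω
    rw [← hT] at hc
    have hE := Real.exp_pos (γ * S f T ω)
    have hmul := mul_le_mul_of_nonneg_right hc hE.le
    rw [one_mul] at hmul
    refine hmul.trans (le_of_eq ?_)
    rw [add_mul, add_mul, add_mul, Finset.sum_mul, Finset.sum_mul, Finset.sum_mul]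
    congr 1
    · congr 1
      · congr 1
        · apply Finset.sum_congr rfl
          intro n hn
          rw [Finset.mem_range] at hn
          have hsplit : S f T ω = S f n ω + S f (T - n) (shift n ω) := by
            rw [← S_add]; congr 1; omega
          simp only [hF1]
          by_cases hx : ω ∈ Cset' f ℓ w n
          · rw [Set.indicator_of_mem hx, Set.indicator_of_mem hx, one_mul, ← Real.exp_add, hsplit]
            congr 1; ring
          · rw [Set.indicator_of_notMem hx, Set.indicator_of_notMem hx, zero_mul, zero_mul]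
        · apply Finset.sum_congr rfl
          intro j hj
          rw [Finset.mem_range] at hj
          have hle : (j + 1) * ℓ ≤ T := Nat.mul_le_mul_right ℓ (by omega)
          have hsplit : S f T ω = S f ((j + 1) * ℓ) ω + S f (T - (j + 1) * ℓ) (shift ((j + 1) * ℓ) ω) := by
            rw [← S_add]; congr 1; omega
          simp only [hF2]
          rw [← Real.exp_add, ← Real.exp_add, hsplit]
          congr 1; ring
      · simp only [hF3]
        rw [← Real.exp_add, ← Real.exp_add]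
        congr 1; ring
    · apply Finset.sum_congr rfl
      intro n hn
      rw [Finset.mem_range] at hn
      have hsplit : S f T ω = S f n ω + f (ω n) + S f (T - (n + 1)) (shift (n + 1) ω) := by
        rw [← S_succ, ← S_add]; congr 1; omega
      simp only [hF4, shift_apply, zero_add]
      by_cases hx : ω n ∈ {z : ℝ | 1 < f z}
      · rw [Set.indicator_of_mem hx, Set.indicator_of_mem hx, one_mul, ← Real.exp_add, ← Real.exp_add,
          hsplit]
        congr 1; ring
      · rw [Set.indicator_of_notMem hx, Set.indicator_of_notMem hx, zero_mul, mul_zero, zero_mul]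
  -- integrate
  have hint1 : Integrable (fun ω => ∑ n ∈ Finset.range (T + 1), F1 n ω) (iid μ) :=
    integrable_finsetSum _ (fun n hn => (I1 n (by rw [Finset.mem_range] at hn; omega)).1)
  have hint2 : Integrable (fun ω => ∑ j ∈ Finset.range m, F2 j ω) (iid μ) :=
    integrable_finsetSum _ (fun n hn => (I2 n (Finset.mem_range.mp hn)).1)
  have hint4 : Integrable (fun ω => ∑ n ∈ Finset.range T, F4 n ω) (iid μ) :=
    integrable_finsetSum _ (fun n hn => (I4 n (Finset.mem_range.mp hn)).1)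
  have hmain : ∫ ω, Real.exp (γ * S f T ω) ∂(iid μ) ≤ ∫ ω, (∑ n ∈ Finset.range (T + 1), F1 n ω +
      ∑ j ∈ Finset.range m, F2 j ω + F3 ω + ∑ n ∈ Finset.range T, F4 n ω) ∂(iid μ) :=
    integral_mono (integrable_exp_S μ γ hi1 T) (((hint1.add hint2).add I3.1).add hint4) hpt
  rw [integral_exp_S μ γ hi1, h1, one_pow] at hmain
  have hsplit : ∫ ω, (∑ n ∈ Finset.range (T + 1), F1 n ω +
      ∑ j ∈ Finset.range m, F2 j ω + F3 ω + ∑ n ∈ Finset.range T, F4 n ω) ∂(iid μ) =
      ∫ ω, ∑ n ∈ Finset.range (T + 1), F1 n ω ∂(iid μ) +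
      ∫ ω, ∑ j ∈ Finset.range m, F2 j ω ∂(iid μ) + ∫ ω, F3 ω ∂(iid μ) +
      ∫ ω, ∑ n ∈ Finset.range T, F4 n ω ∂(iid μ) := by
    have e1 : ∫ ω, (∑ n ∈ Finset.range (T + 1), F1 n ω +
      ∑ j ∈ Finset.range m, F2 j ω + F3 ω + ∑ n ∈ Finset.range T, F4 n ω) ∂(iid μ) =
      ∫ ω, (∑ n ∈ Finset.range (T + 1), F1 n ω +
      ∑ j ∈ Finset.range m, F2 j ω + F3 ω) ∂(iid μ) + ∫ ω, ∑ n ∈ Finset.range T, F4 n ω ∂(iid μ) :=
      integral_add ((hint1.add hint2).add I3.1) hint4
    have e2 : ∫ ω, (∑ n ∈ Finset.range (T + 1), F1 n ω +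
      ∑ j ∈ Finset.range m, F2 j ω + F3 ω) ∂(iid μ) =
      ∫ ω, (∑ n ∈ Finset.range (T + 1), F1 n ω + ∑ j ∈ Finset.range m, F2 j ω) ∂(iid μ) +
      ∫ ω, F3 ω ∂(iid μ) := integral_add (hint1.add hint2) I3.1
    have e3 : ∫ ω, (∑ n ∈ Finset.range (T + 1), F1 n ω + ∑ j ∈ Finset.range m, F2 j ω) ∂(iid μ) =
      ∫ ω, ∑ n ∈ Finset.range (T + 1), F1 n ω ∂(iid μ) +
      ∫ ω, ∑ j ∈ Finset.range m, F2 j ω ∂(iid μ) := integral_add hint1 hint2
    rw [e1, e2, e3]
  rw [hsplit, integral_finsetSum _ (fun n hn => (I1 n (by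
      rw [Finset.mem_range] at hn; omega)).1),
    integral_finsetSum _ (fun n hn => (I2 n (Finset.mem_range.mp hn)).1),
    integral_finsetSum _ (fun n hn => (I4 n (Finset.mem_range.mp hn)).1), I3.2] at hmain
  have hsum2 : ∑ j ∈ Finset.range m, ∫ ω, F2 j ω ∂(iid μ) = ∑ j ∈ Finset.range m, ρ ^ (j + 1) :=
    Finset.sum_congr rfl (fun j hj => (I2 j (Finset.mem_range.mp hj)).2)
  have hsum4 : ∑ n ∈ Finset.range T, ∫ ω, F4 n ω ∂(iid μ) = (T : ℝ) * κ := by
    rw [Finset.sum_congr rfl (fun j hj => (I4 j (Finset.mem_range.mp hj)).2)]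
    simp
  have hsum1 : ∑ n ∈ Finset.range (T + 1), ∫ ω, F1 n ω ∂(iid μ) ≤
      Real.exp (γ * (w + 1)) * (iid μ).real (PS f ℓ w m) := by
    calc ∑ n ∈ Finset.range (T + 1), ∫ ω, F1 n ω ∂(iid μ)
        ≤ ∑ n ∈ Finset.range (T + 1), Real.exp (γ * (w + 1)) * (iid μ).real (Cset' f ℓ w n) :=
          Finset.sum_le_sum (fun n hn => (I1 n (by rw [Finset.mem_range] at hn; omega)).2)
      _ = Real.exp (γ * (w + 1)) * ∑ n ∈ Finset.range (T + 1), (iid μ).real (Cset' f ℓ w n) := by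
          rw [Finset.mul_sum]
      _ = Real.exp (γ * (w + 1)) * (iid μ).real (⋃ n ∈ Finset.range (T + 1), Cset' f ℓ w n) := by
          congr 1
          rw [measureReal_biUnion_finset]
          · intro a ha b hb hab
            simp only [Function.onFun]
            rw [Set.disjoint_left]
            intro ω h1 h2
            rcases lt_or_gt_of_ne hab with h | h
            · exact Cset_disj f ℓ w h ω h1.1 h2.1
            · exact Cset_disj f ℓ w h ω h2.1 h1.1
          · intro n _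
            exact measurableSet_Cset' hf ℓ w n
      _ ≤ _ := by
          apply mul_le_mul_of_nonneg_left _ (Real.exp_pos _).le
          apply measureReal_mono
          · intro ω hω
            simp only [Set.mem_iUnion, Finset.mem_range] at hω
            obtain ⟨n, hn, h⟩ := hω
            exact ⟨n, by omega, h.1⟩
          · exact measure_ne_top _ _
  rw [hsum2, hsum4] at hmain
  have hE := Real.exp_pos (γ * (w + 1))
  have : Real.exp (-(γ * (w + 1))) * (Real.exp (γ * (w + 1)) * (iid μ).real (PS f ℓ w m)) =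
      (iid μ).real (PS f ℓ w m) := by
    rw [← mul_assoc, ← Real.exp_add]; simp
  rw [← this]
  apply mul_le_mul_of_nonneg_left _ (Real.exp_pos _).le
  linarith

end Pool.Agent.H95.Cop
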