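import Mathlib
import Pool.Agent.H95.Cop.Walk2

open MeasureTheory ProbabilityTheory Filter Topology
open scoped ENNReal

namespace Pool.Agent.H95.Cop

open Pool.Agent.H95

lemma second_moment {Ω : Type*} [MeasurableSpace Ω] (P : Measure Ω) [IsProbabilityMeasure P]
    (M : ℕ) (E : ℕ → Set Ω) (hE : ∀ n, MeasurableSet (E n)) (c : ℝ) :
    2 * c * ∑ X ∈ Finset.range M, P.real (E X) -
      c ^ 2 * ∑ X ∈ Finset.range M, ∑ X' ∈ Finset.range M, P.real (E X ∩ E X') ≤
      P.real (⋃ X ∈ Finset.range M, E X) := by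
  set N : Ω → ℝ := fun ω => ∑ X ∈ Finset.range M, (E X).indicator (fun _ => (1:ℝ)) ω with hN
  have hU : MeasurableSet (⋃ X ∈ Finset.range M, E X) := Finset.measurableSet_biUnion _ (fun n _ => hE n)
  have hind : ∀ A : Set Ω, MeasurableSet A → Integrable (A.indicator (fun _ => (1:ℝ))) P :=
    fun A hA => (integrable_const _).indicator hA
  have hint : ∀ A : Set Ω, MeasurableSet A → ∫ ω, A.indicator (fun _ => (1:ℝ)) ω ∂P = P.real A := by
    intro A hA
    rw [integral_indicator hA, setIntegral_const, smul_eq_mul, mul_one]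
  have hN2 : ∀ ω, N ω ^ 2 = ∑ X ∈ Finset.range M, ∑ X' ∈ Finset.range M,
      (E X ∩ E X').indicator (fun _ => (1:ℝ)) ω := by
    intro ω
    simp only [hN]
    rw [sq, Finset.sum_mul_sum]
    apply Finset.sum_congr rfl
    intro X _
    apply Finset.sum_congr rfl
    intro X' _
    by_cases h1 : ω ∈ E X
    · by_cases h2 : ω ∈ E X'
      · have h3 : ω ∈ E X ∩ E X' := ⟨h1, h2⟩
        rw [Set.indicator_of_mem h1, Set.indicator_of_mem h2, Set.indicator_of_mem h3]; norm_num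
      · have h3 : ω ∉ E X ∩ E X' := fun h => h2 h.2
        rw [Set.indicator_of_mem h1, Set.indicator_of_notMem h2,
          Set.indicator_of_notMem h3]; norm_num
    · have h3 : ω ∉ E X ∩ E X' := fun h => h1 h.1
      rw [Set.indicator_of_notMem h1, Set.indicator_of_notMem h3]; norm_num
  have hpt : ∀ ω, 2 * c * N ω - c ^ 2 * N ω ^ 2 ≤
      (⋃ X ∈ Finset.range M, E X).indicator (fun _ => (1:ℝ)) ω := by
    intro ω
    by_cases h : ω ∈ ⋃ X ∈ Finset.range M, E X
    · rw [Set.indicator_of_mem h]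
      nlinarith [sq_nonneg (c * N ω - 1)]
    · rw [Set.indicator_of_notMem h]
      have h0 : N ω = 0 := by
        simp only [hN]
        apply Finset.sum_eq_zero
        intro X hX
        apply Set.indicator_of_notMem
        intro hc
        apply h
        simp only [Set.mem_iUnion]
        exact ⟨X, hX, hc⟩
      rw [h0]; norm_num
  have hNi : Integrable N P := integrable_finsetSum _ (fun X _ => hind _ (hE X))
  have hN2i : Integrable (fun ω => N ω ^ 2) P := by
    simp_rw [hN2]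
    exact integrable_finsetSum _ (fun X _ => integrable_finsetSum _
      (fun X' _ => hind _ ((hE X).inter (hE X'))))
  have h1 : ∫ ω, (2 * c * N ω - c ^ 2 * N ω ^ 2) ∂P ≤
      ∫ ω, (⋃ X ∈ Finset.range M, E X).indicator (fun _ => (1:ℝ)) ω ∂P :=
    integral_mono ((hNi.const_mul _).sub (hN2i.const_mul _)) (hind _ hU) hpt
  rw [hint _ hU] at h1
  have h2 : ∫ ω, (2 * c * N ω - c ^ 2 * N ω ^ 2) ∂P =
      2 * c * ∫ ω, N ω ∂P - c ^ 2 * ∫ ω, N ω ^ 2 ∂P := by
    have e1 : ∫ ω, (2 * c * N ω - c ^ 2 * N ω ^ 2) ∂P =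
      ∫ ω, 2 * c * N ω ∂P - ∫ ω, c ^ 2 * N ω ^ 2 ∂P := integral_sub (hNi.const_mul _) (hN2i.const_mul _)
    rw [e1, integral_const_mul, integral_const_mul]
  rw [h2] at h1
  have h3 : ∫ ω, N ω ∂P = ∑ X ∈ Finset.range M, P.real (E X) := by
    simp only [hN]
    rw [integral_finsetSum _ (fun X _ => hind _ (hE X))]
    exact Finset.sum_congr rfl (fun X _ => hint _ (hE X))
  have h4 : ∫ ω, N ω ^ 2 ∂P = ∑ X ∈ Finset.range M, ∑ X' ∈ Finset.range M, P.real (E X ∩ E X') := by
    simp_rw [hN2]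
    rw [integral_finsetSum _ (fun X _ => integrable_finsetSum _
      (fun X' _ => hind _ ((hE X).inter (hE X'))))]
    apply Finset.sum_congr rfl
    intro X _
    rw [integral_finsetSum _ (fun X' _ => hind _ ((hE X).inter (hE X')))]
    exact Finset.sum_congr rfl (fun X' _ => hint _ ((hE X).inter (hE X')))
  rw [h3, h4] at h1
  exact h1

lemma geom_small (ρ : ℝ) (h0 : 0 ≤ ρ) (h1 : ρ ≤ 1 / 8) (n : ℕ) :
    ∑ r ∈ Finset.range n, ρ ^ (r + 1) ≤ 1 / 7 := by
  have key : ∑ r ∈ Finset.range n, ρ ^ (r + 1) ≤ (1 - (1 / 8 : ℝ) ^ n) / 7 := by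
    induction n with
    | zero => simp
    | succ n ih =>
      rw [Finset.sum_range_succ]
      have h2 : ρ ^ (n + 1) ≤ (1 / 8 : ℝ) ^ (n + 1) := pow_le_pow_left₀ h0 h1 _
      have h3 : (1 / 8 : ℝ) ^ (n + 1) = (1 / 8 : ℝ) ^ n * (1 / 8) := pow_succ _ _
      rw [h3] at h2 ⊢
      linarith
  have : (0:ℝ) ≤ (1 / 8 : ℝ) ^ n := by positivity
  linarith

variable (μ : Measure ℝ) [IsProbabilityMeasure μ]

lemma real_shift_preimage (t : ℕ) {B : Set (ℕ → ℝ)} (hB : MeasurableSet B) :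
    (iid μ).real (shift t ⁻¹' B) = (iid μ).real B := by
  unfold Measure.real
  rw [measure_shift_preimage μ t hB]

lemma real_inter_shift {t : ℕ} {A B : Set (ℕ → ℝ)} (hA : DepLt t (fun x => x ∈ A))
    (hAm : MeasurableSet A) (hBm : MeasurableSet B) :
    (iid μ).real (A ∩ shift t ⁻¹' B) = (iid μ).real A * (iid μ).real B := by
  unfold Measure.real
  rw [measure_inter_shift μ hA hAm hBm, ENNReal.toReal_mul]

lemma prob_S_pos {f : ℝ → ℝ} (hf : Measurable f) (γ : ℝ) (hγ : 0 < γ)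
    (hi2 : Integrable (fun z => Real.exp (γ / 2 * f z)) μ) (n : ℕ) :
    (iid μ).real {ω | 0 < S f n ω} ≤ (∫ z, Real.exp (γ / 2 * f z) ∂μ) ^ n := by
  rw [← integral_exp_S μ (γ / 2) hi2 n]
  have hm : MeasurableSet {ω | 0 < S f n ω} := measurableSet_lt measurable_const (measurable_S hf n)
  have : (iid μ).real {ω | 0 < S f n ω} = ∫ ω, ({ω | 0 < S f n ω}).indicator (fun _ => (1:ℝ)) ω ∂(iid μ) := by
    rw [integral_indicator hm, setIntegral_const, smul_eq_mul, mul_one]
  rw [this]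
  apply integral_mono ((integrable_const _).indicator hm) (integrable_exp_S μ (γ / 2) hi2 n)
  intro ω
  by_cases h : ω ∈ {ω | 0 < S f n ω}
  · beta_reduce
    rw [Set.indicator_of_mem h, ← Real.exp_zero]
    apply Real.exp_le_exp.mpr
    have : 0 < S f n ω := h
    positivity
  · beta_reduce
    rw [Set.indicator_of_notMem h]
    exact (Real.exp_pos _).le

/-- completed before time `r ℓ` -/
def PSlt (f : ℝ → ℝ) (ℓ : ℕ) (w : ℝ) (m T : ℕ) : Set (ℕ → ℝ) :=
  {ω | ∃ n, n < T ∧ n ≤ m * ℓ ∧ ω ∈ Cset f ℓ w n}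

lemma PSlt_dep (f : ℝ → ℝ) (ℓ : ℕ) (w : ℝ) (m T : ℕ) : DepLt T (fun ω => ω ∈ PSlt f ℓ w m T) := by
  intro x x' h
  simp only [PSlt, Set.mem_ofPred_eq, eq_iff_iff]
  constructor
  · rintro ⟨n, hn, hn2, hx⟩
    refine ⟨n, hn, hn2, ?_⟩
    have := Cset_dep f ℓ w n x x' (fun i hi => h i (by omega))
    simp only [eq_iff_iff] at this
    exact this.mp hx
  · rintro ⟨n, hn, hn2, hx⟩
    refine ⟨n, hn, hn2, ?_⟩
    have := Cset_dep f ℓ w n x x' (fun i hi => h i (by omega))
    simp only [eq_iff_iff] at this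
    exact this.mpr hx

lemma measurableSet_PSlt {f : ℝ → ℝ} (hf : Measurable f) (ℓ : ℕ) (w : ℝ) (m T : ℕ) :
    MeasurableSet (PSlt f ℓ w m T) := by
  have : PSlt f ℓ w m T = ⋃ n : ℕ, ⋃ (_ : n < T), ⋃ (_ : n ≤ m * ℓ), Cset f ℓ w n := by
    ext ω
    simp only [PSlt, Set.mem_ofPred_eq, Set.mem_iUnion, exists_prop]
  rw [this]
  exact MeasurableSet.iUnion (fun n => MeasurableSet.iUnion (fun _ => MeasurableSet.iUnion
    (fun _ => measurableSet_Cset hf ℓ w n)))

lemma pair_bound {f : ℝ → ℝ} (hf : Measurable f) (γ : ℝ) (hγ : 0 < γ)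
    (hi2 : Integrable (fun z => Real.exp (γ / 2 * f z)) μ) (ℓ : ℕ) (w : ℝ) (m r : ℕ) (hr : 1 ≤ r) :
    (iid μ).real (PS f ℓ w m ∩ shift (r * ℓ) ⁻¹' PS f ℓ w m) ≤
      (((∫ z, Real.exp (γ / 2 * f z) ∂μ) ^ ℓ) ^ r + (iid μ).real (PS f ℓ w m)) *
        (iid μ).real (PS f ℓ w m) := by
  set Q : Set (ℕ → ℝ) := {ω | 0 < S f (r * ℓ) ω} ∪ PSlt f ℓ w m (r * ℓ) with hQ
  have hPm := measurableSet_PS hf ℓ w m
  have hQm : MeasurableSet Q := (measurableSet_lt measurable_const (measurable_S hf _)).union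
    (measurableSet_PSlt hf ℓ w m _)
  have hQd : DepLt (r * ℓ) (fun ω => ω ∈ Q) := by
    intro x x' h
    have h1 := S_dep f (r * ℓ) x x' h
    have h2 := PSlt_dep f ℓ w m (r * ℓ) x x' h
    simp only [eq_iff_iff] at h2
    simp only [hQ, Set.mem_union, Set.mem_ofPred_eq, h1, h2]
  have hsub : PS f ℓ w m ⊆ Q := by
    rintro ω ⟨n, hn, hC⟩
    by_cases h : n < r * ℓ
    · right; exact ⟨n, h, hn, hC⟩
    · left
      push Not at h
      exact hC.2.2 r hr h
  calc (iid μ).real (PS f ℓ w m ∩ shift (r * ℓ) ⁻¹' PS f ℓ w m)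
      ≤ (iid μ).real (Q ∩ shift (r * ℓ) ⁻¹' PS f ℓ w m) :=
        measureReal_mono (Set.inter_subset_inter_left _ hsub) (measure_ne_top _ _)
    _ = (iid μ).real Q * (iid μ).real (PS f ℓ w m) := real_inter_shift μ hQd hQm hPm
    _ ≤ _ := by
      apply mul_le_mul_of_nonneg_right _ measureReal_nonneg
      calc (iid μ).real Q ≤ (iid μ).real {ω | 0 < S f (r * ℓ) ω} + (iid μ).real (PSlt f ℓ w m (r * ℓ)) :=
            measureReal_union_le _ _
        _ ≤ _ := by
          apply add_le_add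
          · have := prob_S_pos μ hf γ hγ hi2 (r * ℓ)
            rwa [mul_comm r ℓ, pow_mul, mul_comm ℓ r] at this
          · apply measureReal_mono _ (measure_ne_top _ _)
            rintro ω ⟨n, _, hn2, hC⟩
            exact ⟨n, hn2, hC⟩

/-- the event that block `X` (relative) is a good start -/
def EX (Win : Set (ℕ → ℝ)) (f : ℝ → ℝ) (ℓ : ℕ) (w : ℝ) (m X : ℕ) : Set (ℕ → ℝ) :=
  shift (X * ℓ) ⁻¹' (Win ∩ shift (3 * ℓ) ⁻¹' PS f ℓ w m)

/-- success: some block `X < M` is a good start -/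
def Suc (Win : Set (ℕ → ℝ)) (f : ℝ → ℝ) (ℓ : ℕ) (w : ℝ) (m M : ℕ) : Set (ℕ → ℝ) :=
  ⋃ X ∈ Finset.range M, EX Win f ℓ w m X

lemma Suc_prob {f : ℝ → ℝ} (hf : Measurable f) (γ : ℝ) (hγ : 0 < γ)
    (hi2 : Integrable (fun z => Real.exp (γ / 2 * f z)) μ) (ℓ : ℕ) (w : ℝ) (m M : ℕ)
    (Win : Set (ℕ → ℝ)) (hWm : MeasurableSet Win) (hWd : DepLt (3 * ℓ) (fun ω => ω ∈ Win))
    (hW : 1 / 2 ≤ (iid μ).real Win) (hρ : (∫ z, Real.exp (γ / 2 * f z) ∂μ) ^ ℓ ≤ 1 / 8)
    (a : ℝ) (ha0 : 0 ≤ a) (ha : a ≤ M * ((iid μ).real Win * (iid μ).real (PS f ℓ w m))) :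
    a / (2 + 4 * a) ≤ (iid μ).real (Suc Win f ℓ w m M) := by
  set p := (iid μ).real (PS f ℓ w m) with hp
  set q := (iid μ).real Win with hq
  set ρ := (∫ z, Real.exp (γ / 2 * f z) ∂μ) ^ ℓ with hρdef
  have hρ0 : 0 ≤ ρ := by
    have : 0 ≤ ∫ z, Real.exp (γ / 2 * f z) ∂μ := integral_nonneg (fun z => (Real.exp_pos _).le)
    positivity
  have hp0 : 0 ≤ p := measureReal_nonneg
  have hq0 : 0 ≤ q := measureReal_nonneg
  have hPm := measurableSet_PS hf ℓ w m
  have hE0m : MeasurableSet (Win ∩ shift (3 * ℓ) ⁻¹' PS f ℓ w m) :=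
    hWm.inter (measurable_shift _ hPm)
  have hEm : ∀ X, MeasurableSet (EX Win f ℓ w m X) := fun X => measurable_shift _ hE0m
  have hEp : ∀ X, (iid μ).real (EX Win f ℓ w m X) = q * p := by
    intro X
    unfold EX
    rw [real_shift_preimage μ _ hE0m, real_inter_shift μ hWd hWm hPm]
  set A : ℝ := M * (q * p) with hA
  have hA0 : 0 ≤ A := by positivity
  -- pair bounds
  have hpair : ∀ X X' : ℕ, X < X' → (iid μ).real (EX Win f ℓ w m X ∩ EX Win f ℓ w m X') ≤
      (ρ ^ (X' - X) + p) * p := by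
    intro X X' hXX
    have hsub : EX Win f ℓ w m X ∩ EX Win f ℓ w m X' ⊆
        shift ((X + 3) * ℓ) ⁻¹' (PS f ℓ w m ∩ shift ((X' - X) * ℓ) ⁻¹' PS f ℓ w m) := by
      rintro ω ⟨h1, h2⟩
      have h1' := h1.2
      have h2' := h2.2
      simp only [Set.mem_preimage, shift_shift] at h1' h2' ⊢
      refine ⟨?_, ?_⟩
      · have e : (X + 3) * ℓ = 3 * ℓ + X * ℓ := by ring
        rw [e]; exact h1'
      · simp only [Set.mem_preimage, shift_shift]
        have e : (X' - X) * ℓ + (X + 3) * ℓ = 3 * ℓ + X' * ℓ := by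
          have : X' = X' - X + X := by omega
          conv_rhs => rw [this]
          ring
        rw [e]; exact h2'
    calc (iid μ).real (EX Win f ℓ w m X ∩ EX Win f ℓ w m X')
        ≤ (iid μ).real (shift ((X + 3) * ℓ) ⁻¹' (PS f ℓ w m ∩ shift ((X' - X) * ℓ) ⁻¹' PS f ℓ w m)) :=
          measureReal_mono hsub (measure_ne_top _ _)
      _ = (iid μ).real (PS f ℓ w m ∩ shift ((X' - X) * ℓ) ⁻¹' PS f ℓ w m) :=
          real_shift_preimage μ _ (hPm.inter (measurable_shift _ hPm))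
      _ ≤ _ := pair_bound μ hf γ hγ hi2 ℓ w m (X' - X) (by omega)
  have hrow : ∀ X ∈ Finset.range M, ∑ X' ∈ Finset.range M,
      (iid μ).real (EX Win f ℓ w m X ∩ EX Win f ℓ w m X') ≤ q * p * (2 + 4 * A) := by
    intro X hX
    rw [Finset.mem_range] at hX
    have hb : ∀ X' ∈ Finset.range M, (iid μ).real (EX Win f ℓ w m X ∩ EX Win f ℓ w m X') ≤
        (if X' = X then q * p else 0) + (if X' < X then ρ ^ (X - X') * p else 0) +
        (if X < X' then ρ ^ (X' - X) * p else 0) + p * p := by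
      intro X' _
      rcases lt_trichotomy X X' with h | h | h
      · have h1 := hpair X X' h
        simp only [h, if_true, if_neg (show ¬ X' = X by omega), if_neg (show ¬ X' < X by omega)]
        linarith
      · subst h
        simp only [if_true, lt_irrefl, if_false, Set.inter_self, hEp]
        have := mul_nonneg hp0 hp0
        linarith
      · have h1 := hpair X' X h
        rw [Set.inter_comm] at h1
        simp only [h, if_true, if_neg (show ¬ X' = X by omega), if_neg (show ¬ X < X' by omega)]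
        linarith
    refine (Finset.sum_le_sum hb).trans ?_
    rw [Finset.sum_add_distrib, Finset.sum_add_distrib, Finset.sum_add_distrib,
      Finset.sum_ite_eq' (Finset.range M) X, if_pos (Finset.mem_range.mpr hX), Finset.sum_const,
      Finset.card_range, nsmul_eq_mul]
    have s1 : ∑ X' ∈ Finset.range M, (if X' < X then ρ ^ (X - X') * p else 0) ≤ 1 / 7 * p := by
      rw [← Finset.sum_filter]
      have : Finset.filter (fun X' => X' < X) (Finset.range M) = Finset.range X := by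
        ext i; simp only [Finset.mem_filter, Finset.mem_range]; omega
      rw [this, ← Finset.sum_mul]
      apply mul_le_mul_of_nonneg_right _ hp0
      rw [← Finset.sum_range_reflect]
      refine le_trans (le_of_eq ?_) (geom_small ρ hρ0 hρ X)
      apply Finset.sum_congr rfl
      intro i hi
      rw [Finset.mem_range] at hi
      congr 1; omega
    have s2 : ∑ X' ∈ Finset.range M, (if X < X' then ρ ^ (X' - X) * p else 0) ≤ 1 / 7 * p := by
      rw [← Finset.sum_filter]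
      have : Finset.filter (fun X' => X < X') (Finset.range M) = Finset.Ico (X + 1) M := by
        ext i; simp only [Finset.mem_filter, Finset.mem_range, Finset.mem_Ico]; omega
      rw [this, ← Finset.sum_mul]
      apply mul_le_mul_of_nonneg_right _ hp0
      rw [Finset.sum_Ico_eq_sum_range]
      refine le_trans (le_of_eq ?_) (geom_small ρ hρ0 hρ (M - (X + 1)))
      apply Finset.sum_congr rfl
      intro i hi
      congr 1; omega
    have hp2 : p ≤ 2 * (q * p) := by nlinarith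
    have hMp : M * p ≤ 2 * A := by
      rw [hA]
      have : (0:ℝ) ≤ M := Nat.cast_nonneg M
      nlinarith
    have hqp : 0 ≤ q * p := mul_nonneg hq0 hp0
    have h7 : (M : ℝ) * (p * p) ≤ 4 * A * (q * p) := by
      calc (M : ℝ) * (p * p) = (M * p) * p := by ring
        _ ≤ (2 * A) * p := mul_le_mul_of_nonneg_right hMp hp0
        _ ≤ (2 * A) * (2 * (q * p)) := mul_le_mul_of_nonneg_left hp2 (by positivity)
        _ = _ := by ring
    nlinarith
  have hsum1 : ∑ X ∈ Finset.range M, (iid μ).real (EX Win f ℓ w m X) = A := by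
    rw [Finset.sum_congr rfl (fun X _ => hEp X), Finset.sum_const, Finset.card_range, nsmul_eq_mul]
  have hsum2 : ∑ X ∈ Finset.range M, ∑ X' ∈ Finset.range M,
      (iid μ).real (EX Win f ℓ w m X ∩ EX Win f ℓ w m X') ≤ A * (2 + 4 * A) := by
    refine (Finset.sum_le_sum hrow).trans (le_of_eq ?_)
    rw [Finset.sum_const, Finset.card_range, nsmul_eq_mul, hA]
    ring
  set c : ℝ := 1 / (2 + 4 * A) with hc
  have h2A : 0 < 2 + 4 * A := by linarith
  have hsm := second_moment (iid μ) M (EX Win f ℓ w m) hEm c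
  rw [hsum1] at hsm
  have hc2 : c ^ 2 * ∑ X ∈ Finset.range M, ∑ X' ∈ Finset.range M,
      (iid μ).real (EX Win f ℓ w m X ∩ EX Win f ℓ w m X') ≤ c ^ 2 * (A * (2 + 4 * A)) :=
    mul_le_mul_of_nonneg_left hsum2 (sq_nonneg c)
  have hval : 2 * c * A - c ^ 2 * (A * (2 + 4 * A)) = A / (2 + 4 * A) := by
    rw [hc]; field_simp; ring
  have hfin : A / (2 + 4 * A) ≤ (iid μ).real (Suc Win f ℓ w m M) := by
    unfold Suc; linarith
  refine le_trans ?_ hfin
  rw [div_le_div_iff₀ (by linarith) h2A]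
  nlinarith

end Pool.Agent.H95.Cop
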