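import Mathlib
import Pool.Agent.H95.Cop.Second

open MeasureTheory ProbabilityTheory Filter Topology
open scoped ENNReal

namespace Pool.Agent.H95.Cop

open Pool.Agent.H95

variable (μ : Measure ℝ) [IsProbabilityMeasure μ]

lemma linear_growth (F : ℕ → (ℕ → ℝ) → ℝ) (hFi : ∀ R, Integrable (F R) (iid μ)) (D : ℕ) (hD : 1 ≤ D)
    (R0 : ℕ) (hR0 : D ≤ R0) (A : ℕ → Set (ℕ → ℝ)) (hAm : ∀ t, MeasurableSet (A t))
    (hAd : ∀ t, DepLt t (fun ω => ω ∈ A t))
    (hcov : ∀ ω, ∃ t ∈ Finset.Icc 1 D, ω ∈ A t)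
    (hdisj : ∀ t ∈ Finset.Icc 1 D, ∀ t' ∈ Finset.Icc 1 D, t ≠ t' → ∀ ω, ω ∈ A t → ω ∉ A t')
    (G : (ℕ → ℝ) → ℝ) (hG : Integrable G (iid μ)) (B : ℕ → (ℕ → ℝ) → ℝ)
    (hB : ∀ t, Integrable (B t) (iid μ)) (b : ℝ) (hBb : ∀ t, -b ≤ ∫ ω, B t ω ∂(iid μ))
    (hstep : ∀ R, R0 ≤ R → ∀ t ∈ Finset.Icc 1 D, ∀ ω ∈ A t,
      G ω + B t (shift t ω) + F (R - t) (shift t ω) ≤ F R ω)
    (hgain : 1 ≤ ∫ ω, G ω ∂(iid μ) - b) :
    ∃ C : ℝ, ∀ R : ℕ, (R : ℝ) / D - C ≤ ∫ ω, F R ω ∂(iid μ) := by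
  have hD0 : (0 : ℝ) < D := by exact_mod_cast hD
  have hind : ∀ t, Integrable ((A t).indicator (fun _ => (1:ℝ))) (iid μ) :=
    fun t => (integrable_const _).indicator (hAm t)
  have hdep : ∀ t, DepLt t (fun ω => (A t).indicator (fun _ => (1:ℝ)) ω) := by
    intro t x x' h
    have h1 := hAd t x x' h
    simp only [eq_iff_iff] at h1
    by_cases hx : x ∈ A t
    · beta_reduce
      rw [Set.indicator_of_mem hx, Set.indicator_of_mem (h1.mp hx)]
    · beta_reduce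
      rw [Set.indicator_of_notMem hx, Set.indicator_of_notMem (fun hc => hx (h1.mpr hc))]
  have hone : ∀ ω, ∑ t ∈ Finset.Icc 1 D, (A t).indicator (fun _ => (1:ℝ)) ω = 1 := by
    intro ω
    obtain ⟨t, ht, hωt⟩ := hcov ω
    rw [Finset.sum_eq_single t]
    · rw [Set.indicator_of_mem hωt]
    · intro t' ht' hne
      exact Set.indicator_of_notMem (hdisj t ht t' ht' (Ne.symm hne) ω hωt) _
    · intro h; exact absurd ht h
  have hprob1 : ∑ t ∈ Finset.Icc 1 D, ∫ ω, (A t).indicator (fun _ => (1:ℝ)) ω ∂(iid μ) = 1 := by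
    rw [← integral_finsetSum _ (fun t _ => hind t)]
    simp_rw [hone]
    simp
  have hprob0 : ∀ t, 0 ≤ ∫ ω, (A t).indicator (fun _ => (1:ℝ)) ω ∂(iid μ) :=
    fun t => integral_nonneg (fun ω => Set.indicator_nonneg (fun _ _ => zero_le_one) _)
  -- the recursive inequality
  have hrec : ∀ R, R0 ≤ R → 1 + ∑ t ∈ Finset.Icc 1 D,
      (∫ ω, (A t).indicator (fun _ => (1:ℝ)) ω ∂(iid μ)) * ∫ ω, F (R - t) ω ∂(iid μ) ≤
      ∫ ω, F R ω ∂(iid μ) := by
    intro R hR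
    have hpt : ∀ ω, G ω + ∑ t ∈ Finset.Icc 1 D, (A t).indicator (fun _ => (1:ℝ)) ω *
        (fun ω' => B t ω' + F (R - t) ω') (shift t ω) ≤ F R ω := by
      intro ω
      obtain ⟨t, ht, hωt⟩ := hcov ω
      rw [Finset.sum_eq_single t]
      · rw [Set.indicator_of_mem hωt, one_mul]
        have := hstep R hR t ht ω hωt
        simp only
        linarith
      · intro t' ht' hne
        rw [Set.indicator_of_notMem (hdisj t ht t' ht' (Ne.symm hne) ω hωt), zero_mul]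
      · intro h; exact absurd ht h
    have hi : ∀ t ∈ Finset.Icc 1 D, Integrable (fun ω => (A t).indicator (fun _ => (1:ℝ)) ω *
        (fun ω' => B t ω' + F (R - t) ω') (shift t ω)) (iid μ) := fun t _ =>
      integrable_mul_shift μ (hdep t) (hind t) ((hB t).add (hFi (R - t)))
    have h1 : ∫ ω, (G ω + ∑ t ∈ Finset.Icc 1 D, (A t).indicator (fun _ => (1:ℝ)) ω *
        (fun ω' => B t ω' + F (R - t) ω') (shift t ω)) ∂(iid μ) ≤ ∫ ω, F R ω ∂(iid μ) :=
      integral_mono (hG.add (integrable_finsetSum _ hi)) (hFi R) hpt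
    have h2 : ∫ ω, (G ω + ∑ t ∈ Finset.Icc 1 D, (A t).indicator (fun _ => (1:ℝ)) ω *
        (fun ω' => B t ω' + F (R - t) ω') (shift t ω)) ∂(iid μ) =
        ∫ ω, G ω ∂(iid μ) + ∫ ω, ∑ t ∈ Finset.Icc 1 D, (A t).indicator (fun _ => (1:ℝ)) ω *
        (fun ω' => B t ω' + F (R - t) ω') (shift t ω) ∂(iid μ) :=
      integral_add hG (integrable_finsetSum _ hi)
    rw [h2, integral_finsetSum _ hi] at h1
    have h3 : ∀ t ∈ Finset.Icc 1 D, ∫ ω, (A t).indicator (fun _ => (1:ℝ)) ω *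
        (fun ω' => B t ω' + F (R - t) ω') (shift t ω) ∂(iid μ) =
        (∫ ω, (A t).indicator (fun _ => (1:ℝ)) ω ∂(iid μ)) * (∫ ω, B t ω ∂(iid μ)) +
        (∫ ω, (A t).indicator (fun _ => (1:ℝ)) ω ∂(iid μ)) * ∫ ω, F (R - t) ω ∂(iid μ) := by
      intro t _
      have hm : AEStronglyMeasurable (fun ω' => B t ω' + F (R - t) ω') (iid μ) :=
        ((hB t).add (hFi (R - t))).aestronglyMeasurable
      rw [integral_mul_shift μ (hdep t) (hind t).aestronglyMeasurable hm]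
      have : ∫ ω, (B t ω + F (R - t) ω) ∂(iid μ) = ∫ ω, B t ω ∂(iid μ) + ∫ ω, F (R - t) ω ∂(iid μ) :=
        integral_add (hB t) (hFi (R - t))
      rw [this, mul_add]
    rw [Finset.sum_congr rfl h3, Finset.sum_add_distrib] at h1
    have h4 : -b ≤ ∑ t ∈ Finset.Icc 1 D,
        (∫ ω, (A t).indicator (fun _ => (1:ℝ)) ω ∂(iid μ)) * (∫ ω, B t ω ∂(iid μ)) := by
      calc -b = ∑ t ∈ Finset.Icc 1 D, (∫ ω, (A t).indicator (fun _ => (1:ℝ)) ω ∂(iid μ)) * (-b) := by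
            rw [← Finset.sum_mul, hprob1, one_mul]
        _ ≤ _ := Finset.sum_le_sum (fun t _ => mul_le_mul_of_nonneg_left (hBb t) (hprob0 t))
    linarith
  -- choice of constant
  set C : ℝ := ∑ R ∈ Finset.range R0, (|∫ ω, F R ω ∂(iid μ)| + (R : ℝ) / D) with hC
  refine ⟨C, ?_⟩
  intro R
  induction R using Nat.strong_induction_on with
  | _ R ih =>
    rcases lt_or_ge R R0 with hlt | hge
    · have h1 : |∫ ω, F R ω ∂(iid μ)| + (R : ℝ) / D ≤ C := by
        apply Finset.single_le_sum (f := fun R : ℕ => |∫ ω, F R ω ∂(iid μ)| + (R : ℝ) / D)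
          (fun i _ => by positivity) (Finset.mem_range.mpr hlt)
      have h2 := neg_abs_le (∫ ω, F R ω ∂(iid μ))
      linarith
    · refine le_trans ?_ (hrec R hge)
      have h1 : ∑ t ∈ Finset.Icc 1 D, (∫ ω, (A t).indicator (fun _ => (1:ℝ)) ω ∂(iid μ)) *
          ((R : ℝ) / D - 1 - C) ≤ ∑ t ∈ Finset.Icc 1 D,
          (∫ ω, (A t).indicator (fun _ => (1:ℝ)) ω ∂(iid μ)) * ∫ ω, F (R - t) ω ∂(iid μ) := by
        apply Finset.sum_le_sum
        intro t ht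
        rw [Finset.mem_Icc] at ht
        apply mul_le_mul_of_nonneg_left _ (hprob0 t)
        have h2 := ih (R - t) (by omega)
        refine le_trans ?_ h2
        rw [Nat.cast_sub (by omega)]
        have h3 : (t : ℝ) ≤ D := by exact_mod_cast ht.2
        have h4 : (t : ℝ) / D ≤ 1 := by rw [div_le_one hD0]; exact h3
        rw [sub_div]
        linarith
      rw [← Finset.sum_mul, hprob1, one_mul] at h1
      linarith

end Pool.Agent.H95.Cop
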