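import Mathlib
import Pool.Agent.H95.Cop.Strategy

open MeasureTheory ProbabilityTheory Filter Topology
open scoped ENNReal

namespace Pool.Agent.H95.Cop

open Pool.Agent.H95

/-- averaged log partition function over the starting window -/
noncomputable def qq (K : PMF ℕ) (ℓ R : ℕ) (x : ℕ → ℝ) : ℝ :=
  (1 / (ℓ : ℝ)) * ∑ i ∈ Finset.range ℓ, Real.log (W K (R - i) (shift i x))

noncomputable def A1 (K : PMF ℕ) (ℓ : ℕ) (x : ℕ → ℝ) : ℝ :=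
  (1 / (ℓ : ℝ)) * ∑ i ∈ Finset.range ℓ, ∑ j ∈ Finset.range ℓ,
    uu (kk K) j / UU K ℓ * (H x i (i + j) / 2)

noncomputable def A2 (K : PMF ℕ) (ℓ : ℕ) (x : ℕ → ℝ) : ℝ :=
  (1 / (ℓ : ℝ)) * ∑ i ∈ Finset.range ℓ, ∑ j ∈ Finset.range ℓ,
    uu (kk K) j / UU K ℓ * (H x i (i + j) / 2 + H x (i + j) (3 * ℓ))

noncomputable def A3 (ℓ : ℕ) (x : ℕ → ℝ) : ℝ :=
  (1 / (ℓ : ℝ)) * ∑ i ∈ Finset.range ℓ, H x 0 i

lemma avg_V (K : PMF ℕ) (ℓ R : ℕ) (x : ℕ → ℝ) (s : ℕ) :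
    (1 / (ℓ : ℝ)) * ∑ i ∈ Finset.range ℓ, Real.log (V K R x (s + i)) = qq K ℓ (R - s) (shift s x) := by
  unfold qq V
  congr 1
  apply Finset.sum_congr rfl
  intro i _
  rw [shift_shift, Nat.sub_sub, add_comm i s]

lemma sum_uu_div (K : PMF ℕ) (ℓ : ℕ) (hℓ : 1 ≤ ℓ) :
    ∑ j ∈ Finset.range ℓ, uu (kk K) j / UU K ℓ = 1 := by
  rw [← Finset.sum_div]
  exact div_self (uu_pos_UU K ℓ hℓ).ne'

/-- averaging an inequality -/
lemma avg_le (ℓ : ℕ) (hℓ : 1 ≤ ℓ) (f g : ℕ → ℝ) (C : ℝ) (h : ∀ i < ℓ, C + f i ≤ g i) :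
    C + (1 / (ℓ : ℝ)) * ∑ i ∈ Finset.range ℓ, f i ≤ (1 / (ℓ : ℝ)) * ∑ i ∈ Finset.range ℓ, g i := by
  have hℓ0 : (0 : ℝ) < ℓ := by exact_mod_cast hℓ
  have h1 : C = (1 / (ℓ : ℝ)) * ∑ i ∈ Finset.range ℓ, C := by
    rw [Finset.sum_const, Finset.card_range, nsmul_eq_mul]; field_simp
  have h2 : C + (1 / (ℓ : ℝ)) * ∑ i ∈ Finset.range ℓ, f i =
      (1 / (ℓ : ℝ)) * ∑ i ∈ Finset.range ℓ, (C + f i) := by
    rw [Finset.sum_add_distrib, mul_add, ← h1]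
  rw [h2]
  apply mul_le_mul_of_nonneg_left _ (by positivity)
  exact Finset.sum_le_sum (fun i hi => h i (Finset.mem_range.mp hi))

/-- the upper leg -/
lemma leg_upper (K : PMF ℕ) (hK0 : K 0 = 0) (R : ℕ) (x : ℕ → ℝ) (ℓ : ℕ) (hℓ : 1 ≤ ℓ) (b0 : ℕ)
    (hb : 2 * ℓ ≤ b0) (hbR : b0 + ℓ ≤ R) (κ : ℝ) (hκ : 0 < κ)
    (hκk : ∀ n, b0 < n + 2 * ℓ → n < b0 + ℓ → κ ≤ kk K n) :
    Real.log (κ / 2 * (UU K ℓ * ℓ)) + A1 K ℓ x + qq K ℓ (R - b0) (shift b0 x) ≤ qq K ℓ R x := by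
  have hℓ0 : (0 : ℝ) < ℓ := by exact_mod_cast hℓ
  have h0 := avg_V K ℓ R x 0
  rw [Nat.sub_zero, shift_zero] at h0
  rw [← h0]
  have key : ∀ i < ℓ, (Real.log (κ / 2 * (UU K ℓ * ℓ)) + qq K ℓ (R - b0) (shift b0 x)) +
      (∑ j ∈ Finset.range ℓ, uu (kk K) j / UU K ℓ * (H x i (i + j) / 2)) ≤
      Real.log (V K R x (0 + i)) := by
    intro i hi
    have h1 := leg K hK0 R x ℓ hℓ i b0 (by omega) hbR κ hκ (fun n hn1 hn2 => hκk n (by omega) (by omega))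
      0 (Or.inl rfl)
    rw [zero_add]
    refine le_trans (le_of_eq ?_) h1
    rw [add_assoc]
    congr 1
    have h2 : ∀ j ∈ Finset.range ℓ, uu (kk K) j / UU K ℓ * ((1 / (ℓ : ℝ)) * ∑ i' ∈ Finset.range ℓ,
        (H x i (i + j) / 2 + 0 * H x (i + j) (b0 + i') + Real.log (V K R x (b0 + i')))) =
        uu (kk K) j / UU K ℓ * (H x i (i + j) / 2) +
        uu (kk K) j / UU K ℓ * qq K ℓ (R - b0) (shift b0 x) := by
      intro j _
      rw [← avg_V, ← mul_add]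
      congr 1
      simp only [zero_mul, add_zero]
      rw [Finset.sum_add_distrib, mul_add, Finset.sum_const, Finset.card_range, nsmul_eq_mul]
      congr 1
      field_simp
    rw [Finset.sum_congr rfl h2, Finset.sum_add_distrib, ← Finset.sum_mul, sum_uu_div K ℓ hℓ, one_mul]
    ring
  have := avg_le ℓ hℓ _ _ _ key
  unfold A1
  linarith

/-- the lower leg, starting from the window `[0, ℓ)`, with the reference point `3ℓ` -/
lemma leg_lower (K : PMF ℕ) (hK0 : K 0 = 0) (R : ℕ) (x : ℕ → ℝ) (ℓ : ℕ) (hℓ : 1 ≤ ℓ) (s' : ℕ)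
    (hs : 3 * ℓ ≤ s') (hsR : s' + ℓ ≤ R) (κ : ℝ) (hκ : 0 < κ)
    (hκk : ∀ n, s' < n + 2 * ℓ → n < s' + ℓ → κ ≤ kk K n) :
    Real.log (κ / 2 * (UU K ℓ * ℓ)) + A2 K ℓ x + H x (3 * ℓ) s' + A3 ℓ (shift s' x) +
      qq K ℓ (R - s') (shift s' x) ≤ qq K ℓ R x := by
  have hℓ0 : (0 : ℝ) < ℓ := by exact_mod_cast hℓ
  have h0 := avg_V K ℓ R x 0
  rw [Nat.sub_zero, shift_zero] at h0
  rw [← h0]
  have key : ∀ i < ℓ, (Real.log (κ / 2 * (UU K ℓ * ℓ)) + H x (3 * ℓ) s' + A3 ℓ (shift s' x) +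
      qq K ℓ (R - s') (shift s' x)) +
      (∑ j ∈ Finset.range ℓ, uu (kk K) j / UU K ℓ * (H x i (i + j) / 2 + H x (i + j) (3 * ℓ))) ≤
      Real.log (V K R x (0 + i)) := by
    intro i hi
    have h1 := leg K hK0 R x ℓ hℓ i s' (by omega) hsR κ hκ (fun n hn1 hn2 => hκk n (by omega) (by omega))
      1 (Or.inr rfl)
    rw [zero_add]
    refine le_trans (le_of_eq ?_) h1
    rw [add_assoc, add_assoc, add_assoc]
    congr 1
    have h2 : ∀ j ∈ Finset.range ℓ, uu (kk K) j / UU K ℓ * ((1 / (ℓ : ℝ)) * ∑ i' ∈ Finset.range ℓ,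
        (H x i (i + j) / 2 + 1 * H x (i + j) (s' + i') + Real.log (V K R x (s' + i')))) =
        uu (kk K) j / UU K ℓ * (H x i (i + j) / 2 + H x (i + j) (3 * ℓ)) +
        uu (kk K) j / UU K ℓ * (H x (3 * ℓ) s' + A3 ℓ (shift s' x) + qq K ℓ (R - s') (shift s' x)) := by
      intro j hj
      rw [Finset.mem_range] at hj
      rw [← avg_V, ← mul_add]
      congr 1
      have h3 : ∀ i' ∈ Finset.range ℓ, (H x i (i + j) / 2 + 1 * H x (i + j) (s' + i') +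
          Real.log (V K R x (s' + i'))) = (H x i (i + j) / 2 + H x (i + j) (3 * ℓ) + H x (3 * ℓ) s') +
          (H (shift s' x) 0 i' + Real.log (V K R x (s' + i'))) := by
        intro i' _
        rw [H_shift, zero_add, add_comm i' s',
          ← H_add x (show i + j ≤ 3 * ℓ by omega) (show 3 * ℓ ≤ s' + i' by omega),
          ← H_add x hs (show s' ≤ s' + i' by omega)]
        ring
      rw [Finset.sum_congr rfl h3]
      simp only [Finset.sum_add_distrib, Finset.sum_const, Finset.card_range, nsmul_eq_mul]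
      unfold A3
      field_simp
      ring
    rw [Finset.sum_congr rfl h2, Finset.sum_add_distrib, ← Finset.sum_mul, sum_uu_div K ℓ hℓ, one_mul]
    ring
  have := avg_le ℓ hℓ _ _ _ key
  unfold A2
  linarith

/-- a full step: upper excursion from the window at `0` to the window at `b0`, then a lower excursion
up to the window at `s'`. -/
lemma full_step (K : PMF ℕ) (hK0 : K 0 = 0) (R : ℕ) (x : ℕ → ℝ) (ℓ : ℕ) (hℓ : 1 ≤ ℓ) (b0 s' : ℕ)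
    (hb : 2 * ℓ ≤ b0) (hs : b0 + 3 * ℓ ≤ s') (hsR : s' + ℓ ≤ R) (κ κ' : ℝ) (hκ : 0 < κ) (hκ' : 0 < κ')
    (hκk : ∀ n, b0 < n + 2 * ℓ → n < b0 + ℓ → κ ≤ kk K n)
    (hκk' : ∀ n, s' < n + b0 + 2 * ℓ → n + b0 < s' + ℓ → κ' ≤ kk K n) :
    Real.log (κ / 2 * (UU K ℓ * ℓ)) + Real.log (κ' / 2 * (UU K ℓ * ℓ)) + A1 K ℓ x +
      A2 K ℓ (shift b0 x) + H x (b0 + 3 * ℓ) s' + A3 ℓ (shift s' x) +
      qq K ℓ (R - s') (shift s' x) ≤ qq K ℓ R x := by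
  have h1 := leg_upper K hK0 R x ℓ hℓ b0 hb (by omega) κ hκ hκk
  have h2 := leg_lower K hK0 (R - b0) (shift b0 x) ℓ hℓ (s' - b0) (by omega) (by omega) κ' hκ'
    (fun n hn1 hn2 => hκk' n (by omega) (by omega))
  rw [H_shift, shift_shift] at h2
  have e1 : 3 * ℓ + b0 = b0 + 3 * ℓ := by omega
  have e2 : s' - b0 + b0 = s' := by omega
  have e3 : R - b0 - (s' - b0) = R - s' := by omega
  rw [e1, e2, e3] at h2
  linarith

end Pool.Agent.H95.Cop
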