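import Mathlib
import Pool.Agent.H95.Cop.Growth
import Pool.Agent.H95.Cop.Step

open MeasureTheory ProbabilityTheory Filter Topology
open scoped ENNReal

namespace Pool.Agent.H95.Cop

open Pool.Agent.H95

variable (μ : Measure ℝ) [IsProbabilityMeasure μ]

/-- total charges with drift perturbation `ε` -/
def XX (f : ℝ → ℝ) (ε : ℝ) (ω : ℕ → ℝ) : ℕ → ℝ := fun i => f (ω i) - ε

lemma shift_XX (f : ℝ → ℝ) (ε : ℝ) (t : ℕ) (ω : ℕ → ℝ) : shift t (XX f ε ω) = XX f ε (shift t ω) := rfl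

lemma H_XX (f : ℝ → ℝ) (ε : ℝ) (a n : ℕ) (ω : ℕ → ℝ) :
    H (XX f ε ω) a (a + n) = S f n (shift a ω) - n * ε := by
  unfold H S XX
  rw [Finset.sum_Ico_eq_sum_range]
  have : a + n - a = n := by omega
  rw [this, Finset.sum_sub_distrib, Finset.sum_const, Finset.card_range, nsmul_eq_mul]
  congr 1
  apply Finset.sum_congr rfl
  intro i _
  rw [shift_apply, add_comm]

lemma measurable_XX {f : ℝ → ℝ} (hf : Measurable f) (ε : ℝ) : Measurable (XX f ε) := by
  refine measurable_pi_lambda _ (fun i => ?_)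
  unfold XX
  exact (hf.comp (measurable_pi_apply i)).sub_const ε

lemma integrable_XX {f : ℝ → ℝ} (hfi : Integrable f μ) (ε : ℝ) (i : ℕ) :
    Integrable (fun ω => XX f ε ω i) (iid μ) := by
  unfold XX
  exact (integrable_eval μ hfi i).sub (integrable_const ε)

lemma integrable_H {f : ℝ → ℝ} (hfi : Integrable f μ) (ε : ℝ) (a b : ℕ) :
    Integrable (fun ω => H (XX f ε ω) a b) (iid μ) := by
  unfold H
  exact integrable_finsetSum _ (fun i _ => integrable_XX μ hfi ε i)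

lemma integral_H {f : ℝ → ℝ} (hfi : Integrable f μ) (ε : ℝ) (a n : ℕ) :
    ∫ ω, H (XX f ε ω) a (a + n) ∂(iid μ) = n * (∫ z, f z ∂μ - ε) := by
  unfold H
  rw [integral_finsetSum _ (fun i _ => integrable_XX μ hfi ε i)]
  have : ∀ i ∈ Finset.Ico a (a + n), ∫ ω, XX f ε ω i ∂(iid μ) = ∫ z, f z ∂μ - ε := by
    intro i _
    unfold XX
    rw [integral_sub (integrable_eval μ hfi i) (integrable_const ε), integral_eval μ hfi i]
    simp
  rw [Finset.sum_congr rfl this, Finset.sum_const, Nat.card_Ico, nsmul_eq_mul]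
  congr 1
  simp

lemma integrable_A1 (K : PMF ℕ) (ℓ : ℕ) {f : ℝ → ℝ} (hfi : Integrable f μ) (ε : ℝ) :
    Integrable (fun ω => A1 K ℓ (XX f ε ω)) (iid μ) := by
  unfold A1
  apply Integrable.const_mul
  refine integrable_finsetSum _ (fun i _ => integrable_finsetSum _ (fun j _ => ?_))
  exact ((integrable_H μ hfi ε i (i + j)).div_const 2).const_mul _

lemma integrable_A2 (K : PMF ℕ) (ℓ : ℕ) {f : ℝ → ℝ} (hfi : Integrable f μ) (ε : ℝ) :
    Integrable (fun ω => A2 K ℓ (XX f ε ω)) (iid μ) := by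
  unfold A2
  apply Integrable.const_mul
  refine integrable_finsetSum _ (fun i _ => integrable_finsetSum _ (fun j _ => ?_))
  exact (((integrable_H μ hfi ε i (i + j)).div_const 2).add (integrable_H μ hfi ε _ _)).const_mul _

lemma integrable_A3 (ℓ : ℕ) {f : ℝ → ℝ} (hfi : Integrable f μ) (ε : ℝ) :
    Integrable (fun ω => A3 ℓ (XX f ε ω)) (iid μ) := by
  unfold A3
  apply Integrable.const_mul
  exact integrable_finsetSum _ (fun i _ => integrable_H μ hfi ε 0 i)

lemma integral_A1_ge (K : PMF ℕ) (ℓ : ℕ) (hℓ : 1 ≤ ℓ) {f : ℝ → ℝ} (hfi : Integrable f μ) (ε Cm : ℝ)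
    (hCm : ℓ * |∫ z, f z ∂μ - ε| ≤ Cm) :
    -(1 / 2 * Cm) ≤ ∫ ω, A1 K ℓ (XX f ε ω) ∂(iid μ) := by
  have hℓ0 : (0:ℝ) < ℓ := by exact_mod_cast hℓ
  set m := ∫ z, f z ∂μ - ε with hm
  unfold A1
  rw [integral_const_mul, integral_finsetSum _ (fun i _ => integrable_finsetSum _ (fun j _ =>
    ((integrable_H μ hfi ε i (i + j)).div_const 2).const_mul _))]
  have h1 : ∀ i ∈ Finset.range ℓ, -(1 / 2 * Cm) ≤ ∫ ω, ∑ j ∈ Finset.range ℓ,
      uu (kk K) j / UU K ℓ * (H (XX f ε ω) i (i + j) / 2) ∂(iid μ) := by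
    intro i _
    rw [integral_finsetSum _ (fun j _ =>
      ((integrable_H μ hfi ε i (i + j)).div_const 2).const_mul _)]
    calc -(1 / 2 * Cm) = ∑ j ∈ Finset.range ℓ, uu (kk K) j / UU K ℓ * (-(1 / 2 * Cm)) := by
          rw [← Finset.sum_mul, sum_uu_div K ℓ hℓ, one_mul]
      _ ≤ _ := by
          apply Finset.sum_le_sum
          intro j hj
          rw [Finset.mem_range] at hj
          rw [integral_const_mul, integral_div, integral_H μ hfi ε i j]
          apply mul_le_mul_of_nonneg_left _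
            (div_nonneg (uu_nonneg _ (kk_nonneg K) j) (uu_pos_UU K ℓ hℓ).le)
          have hjℓ : (j:ℝ) ≤ ℓ := by exact_mod_cast hj.le
          have h2 : (j:ℝ) * |m| ≤ ℓ * |m| := mul_le_mul_of_nonneg_right hjℓ (abs_nonneg m)
          have h3 : -((j:ℝ) * |m|) ≤ j * m := by
            have := neg_abs_le m
            have hj0 : (0:ℝ) ≤ j := Nat.cast_nonneg j
            nlinarith
          linarith
  have h2 : ∑ i ∈ Finset.range ℓ, (-(1 / 2 * Cm)) ≤ ∑ i ∈ Finset.range ℓ, ∫ ω, ∑ j ∈ Finset.range ℓ,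
      uu (kk K) j / UU K ℓ * (H (XX f ε ω) i (i + j) / 2) ∂(iid μ) := Finset.sum_le_sum h1
  rw [Finset.sum_const, Finset.card_range, nsmul_eq_mul] at h2
  have h5 := mul_le_mul_of_nonneg_left h2 (show (0:ℝ) ≤ 1 / (ℓ:ℝ) by positivity)
  refine le_trans (le_of_eq ?_) h5
  field_simp

lemma integral_A3_ge (ℓ : ℕ) (hℓ : 1 ≤ ℓ) {f : ℝ → ℝ} (hfi : Integrable f μ) (ε Cm : ℝ)
    (hCm : ℓ * |∫ z, f z ∂μ - ε| ≤ Cm) :
    -Cm ≤ ∫ ω, A3 ℓ (XX f ε ω) ∂(iid μ) := by
  have hℓ0 : (0:ℝ) < ℓ := by exact_mod_cast hℓ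
  set m := ∫ z, f z ∂μ - ε with hm
  unfold A3
  rw [integral_const_mul, integral_finsetSum _ (fun i _ => integrable_H μ hfi ε 0 i)]
  have h1 : ∀ i ∈ Finset.range ℓ, -Cm ≤ ∫ ω, H (XX f ε ω) 0 i ∂(iid μ) := by
    intro j hj
    rw [Finset.mem_range] at hj
    have := integral_H μ hfi ε 0 j
    rw [zero_add] at this
    rw [this]
    have hjℓ : (j:ℝ) ≤ ℓ := by exact_mod_cast hj.le
    have h2 : (j:ℝ) * |m| ≤ ℓ * |m| := mul_le_mul_of_nonneg_right hjℓ (abs_nonneg m)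
    have h3 : -((j:ℝ) * |m|) ≤ j * m := by
      have := neg_abs_le m
      have hj0 : (0:ℝ) ≤ j := Nat.cast_nonneg j
      nlinarith
    linarith
  have h2 : ∑ i ∈ Finset.range ℓ, (-Cm) ≤ ∑ i ∈ Finset.range ℓ, ∫ ω, H (XX f ε ω) 0 i ∂(iid μ) :=
    Finset.sum_le_sum h1
  rw [Finset.sum_const, Finset.card_range, nsmul_eq_mul] at h2
  have h5 := mul_le_mul_of_nonneg_left h2 (show (0:ℝ) ≤ 1 / (ℓ:ℝ) by positivity)
  refine le_trans (le_of_eq ?_) h5
  field_simp

lemma integrable_logW (K : PMF ℕ) (N i : ℕ) {f : ℝ → ℝ} (hf : Measurable f) (hfi : Integrable f μ)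
    (ε : ℝ) : Integrable (fun ω => Real.log (W K N (shift i (XX f ε ω)))) (iid μ) := by
  have hdom : Integrable (fun ω => ∑ j ∈ Finset.range N, |shift i (XX f ε ω) j|) (iid μ) := by
    refine integrable_finsetSum _ (fun j _ => ?_)
    exact (integrable_XX μ hfi ε (j + i)).abs
  refine hdom.mono' ?_ (Filter.Eventually.of_forall (fun ω => ?_))
  · exact (Real.measurable_log.comp ((measurable_W K N).comp
      ((measurable_shift i).comp (measurable_XX hf ε)))).aestronglyMeasurable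
  · rw [Real.norm_eq_abs]
    exact abs_log_W_le K N _

lemma integrable_qq (K : PMF ℕ) (ℓ R : ℕ) {f : ℝ → ℝ} (hf : Measurable f) (hfi : Integrable f μ)
    (ε : ℝ) : Integrable (fun ω => qq K ℓ R (XX f ε ω)) (iid μ) := by
  unfold qq
  apply Integrable.const_mul
  exact integrable_finsetSum _ (fun i _ => integrable_logW μ K (R - i) i hf hfi ε)

end Pool.Agent.H95.Cop
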