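import Mathlib
import Pool.Agent.H95.Cop.Env

open MeasureTheory ProbabilityTheory Filter Topology
open scoped ENNReal

namespace Pool.Agent.H95.Cop

open Pool.Agent.H95

variable (μ : Measure ℝ) [IsProbabilityMeasure μ]

/-- log moment generating function -/
noncomputable def LM (t : ℝ) : ℝ := Real.log (∫ z, Real.exp (t * z) ∂μ)

lemma LM_eq (t : ℝ) : LM μ t = cgf id μ t := rfl

lemma interior_univ' (hexp : ∀ t : ℝ, Integrable (fun z => Real.exp (t * z)) μ) (t : ℝ) :
    t ∈ interior (integrableExpSet (id : ℝ → ℝ) μ) := by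
  have : integrableExpSet (id : ℝ → ℝ) μ = Set.univ := by
    ext s
    simp only [integrableExpSet, Set.mem_ofPred_eq, Set.mem_univ, iff_true, id]
    exact hexp s
  rw [this, interior_univ]
  exact Set.mem_univ t

lemma M_pos (hexp : ∀ t : ℝ, Integrable (fun z => Real.exp (t * z)) μ) (t : ℝ) :
    0 < ∫ z, Real.exp (t * z) ∂μ := mgf_pos (X := id) (hexp t)

lemma exp_LM (hexp : ∀ t : ℝ, Integrable (fun z => Real.exp (t * z)) μ) (t : ℝ) :
    Real.exp (LM μ t) = ∫ z, Real.exp (t * z) ∂μ := Real.exp_log (M_pos μ hexp t)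

lemma integrable_id' (hexp : ∀ t : ℝ, Integrable (fun z => Real.exp (t * z)) μ) :
    Integrable (fun z : ℝ => z) μ := by
  have h := integrable_pow_of_mem_interior_integrableExpSet (X := (id : ℝ → ℝ))
    (interior_univ' μ hexp 0) 1
  simpa using h

lemma integrable_sq' (hexp : ∀ t : ℝ, Integrable (fun z => Real.exp (t * z)) μ) :
    Integrable (fun z : ℝ => z ^ 2) μ := by
  have h := integrable_pow_of_mem_interior_integrableExpSet (X := (id : ℝ → ℝ))
    (interior_univ' μ hexp 0) 2
  simpa using h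

lemma LM_nonneg (hexp : ∀ t : ℝ, Integrable (fun z => Real.exp (t * z)) μ)
    (hmean : ∫ z, z ∂μ = 0) (t : ℝ) : 0 ≤ LM μ t := by
  unfold LM
  apply Real.log_nonneg
  have hi : Integrable (fun z : ℝ => 1 + t * z) μ :=
    (integrable_const 1).add ((integrable_id' μ hexp).const_mul t)
  have h1 : ∫ z, (1 + t * z) ∂μ ≤ ∫ z, Real.exp (t * z) ∂μ := by
    apply integral_mono hi (hexp t)
    intro z
    have := Real.add_one_le_exp (t * z)
    simp only
    linarith
  have h2 : ∫ z, (1 + t * z) ∂μ = 1 := by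
    rw [integral_add (integrable_const 1) ((integrable_id' μ hexp).const_mul t), integral_const_mul,
      hmean]
    simp
  linarith

lemma LM_tendsto (hexp : ∀ t : ℝ, Integrable (fun z => Real.exp (t * z)) μ)
    (hmean : ∫ z, z ∂μ = 0) (hvar : ∫ z, z ^ 2 ∂μ = 1) :
    Tendsto (fun t => LM μ t / t ^ 2) (𝓝[≠] 0) (𝓝 (1 / 2)) := by
  set L : ℝ → ℝ := cgf id μ with hL
  have han : ∀ t, AnalyticAt ℝ L t := fun t => analyticAt_cgf (interior_univ' μ hexp t)
  have hL0 : L 0 = 0 := cgf_zero
  have hL1 : deriv L 0 = 0 := by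
    rw [hL, deriv_cgf_zero (interior_univ' μ hexp 0)]
    simp [hmean]
  have hL2 : deriv (deriv L) 0 = 1 := by
    have h := iteratedDeriv_two_cgf (interior_univ' μ hexp 0)
    rw [iteratedDeriv_succ, iteratedDeriv_one] at h
    rw [hL, h]
    rw [← hL, hL1]
    simp only [id, zero_mul, Real.exp_zero, mul_one, mgf_zero, div_one]
    rw [hvar]; norm_num
  have hda : HasDerivAt (deriv L) 1 0 := by
    rw [← hL2]
    exact (han 0).deriv.differentiableAt.hasDerivAt
  have hslope : Tendsto (fun t => deriv L t / t) (𝓝[≠] 0) (𝓝 1) := by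
    have h := hasDerivAt_iff_tendsto_slope.mp hda
    refine h.congr (fun t => ?_)
    simp [slope_def_field, hL1]
  have hkey : Tendsto (fun t => L t / t ^ 2) (𝓝[≠] 0) (𝓝 (1 / 2)) := by
    apply deriv.lhopital_zero_nhdsNE
    · exact Filter.Eventually.of_forall (fun t => (han t).differentiableAt)
    · filter_upwards [self_mem_nhdsWithin] with t ht
      simp only [deriv_pow_field, Nat.cast_ofNat]
      have : t ≠ 0 := ht
      positivity
    · have : Tendsto L (𝓝[≠] 0) (𝓝 (L 0)) := (han 0).continuousAt.mono_left nhdsWithin_le_nhds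
      rwa [hL0] at this
    · have : Tendsto (fun t : ℝ => t ^ 2) (𝓝[≠] 0) (𝓝 (0 ^ 2)) :=
        ((continuous_pow 2).tendsto 0).mono_left nhdsWithin_le_nhds
      simpa using this
    · have h1 := hslope.div_const 2
      refine h1.congr (fun t => ?_)
      simp only [deriv_pow_field, Nat.cast_ofNat]
      rw [div_div]
      congr 1
      ring
  exact hkey

end Pool.Agent.H95.Cop
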