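import Mathlib
import Pool.Agent.H95.Cop.Asym

open MeasureTheory ProbabilityTheory Filter Topology
open scoped ENNReal

namespace Pool.Agent.H95.Cop

open Pool.Agent.H95

variable (μ : Measure ℝ) [IsProbabilityMeasure μ]

/-- the Monthus line -/
noncomputable def h0 (γ lam : ℝ) : ℝ := LM μ (-(2 * lam * γ)) / (2 * lam * γ)

/-- the step of the walk on the Monthus line -/
noncomputable def fs (γ lam : ℝ) (z : ℝ) : ℝ := -2 * lam * (z + h0 μ γ lam)

lemma measurable_fs (γ lam : ℝ) : Measurable (fs μ γ lam) := by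
  unfold fs; fun_prop

section
variable (hexp : ∀ t : ℝ, Integrable (fun z => Real.exp (t * z)) μ)
include hexp

lemma integrable_fs (γ lam : ℝ) : Integrable (fs μ γ lam) μ := by
  unfold fs
  exact ((integrable_id' μ hexp).add (integrable_const _)).const_mul _

lemma exp_fs (γ lam a z : ℝ) : Real.exp (a * fs μ γ lam z) =
    Real.exp (-(2 * lam * a) * z) * Real.exp (-(2 * lam * a * h0 μ γ lam)) := by
  rw [← Real.exp_add]; unfold fs; congr 1; ring

lemma integrable_exp_fs (γ lam a : ℝ) : Integrable (fun z => Real.exp (a * fs μ γ lam z)) μ := by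
  simp_rw [exp_fs μ hexp]
  exact (hexp _).mul_const _

lemma integral_exp_fs (γ lam : ℝ) (hγ : 0 < γ) (hlam : 0 < lam) :
    ∫ z, Real.exp (γ * fs μ γ lam z) ∂μ = 1 := by
  simp_rw [exp_fs μ hexp]
  rw [integral_mul_const, ← exp_LM μ hexp, ← Real.exp_add]
  have : -(2 * lam * γ * h0 μ γ lam) = -LM μ (-(2 * lam * γ)) := by
    unfold h0; field_simp
  rw [this]; simp

lemma integral_exp_half_fs (γ lam : ℝ) (hγ : 0 < γ) (hlam : 0 < lam) :
    ∫ z, Real.exp (γ / 2 * fs μ γ lam z) ∂μ =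
      Real.exp (LM μ (-(lam * γ)) - LM μ (-(2 * lam * γ)) / 2) := by
  simp_rw [exp_fs μ hexp]
  rw [integral_mul_const]
  have e : -(2 * lam * (γ / 2)) = -(lam * γ) := by ring
  rw [e, ← exp_LM μ hexp, ← Real.exp_add]
  congr 1
  unfold h0; field_simp; ring

lemma integral_fs (hmean : ∫ z, z ∂μ = 0) (γ lam : ℝ) :
    ∫ z, fs μ γ lam z ∂μ = -2 * lam * h0 μ γ lam := by
  unfold fs
  rw [integral_const_mul, integral_add (integrable_id' μ hexp) (integrable_const _), hmean]
  simp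

lemma h0_nonneg (hmean : ∫ z, z ∂μ = 0) (γ lam : ℝ) (hγ : 0 < γ) (hlam : 0 < lam) :
    0 ≤ h0 μ γ lam := by
  unfold h0
  exact div_nonneg (LM_nonneg μ hexp hmean _) (by positivity)

lemma kappa_le (hmean : ∫ z, z ∂μ = 0) (γ lam : ℝ) (hγ : 0 < γ) (hlam : 0 < lam) :
    ∫ z, ({z : ℝ | 1 < fs μ γ lam z}).indicator (fun z => Real.exp (γ * fs μ γ lam z)) z ∂μ ≤
      Real.exp (-(1 / lam)) * ∫ z, Real.exp (-(2 * (lam * γ + 1)) * z) ∂μ := by
  rw [← integral_const_mul]
  have hm : MeasurableSet {z : ℝ | 1 < fs μ γ lam z} := measurableSet_lt measurable_const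
    (measurable_fs μ γ lam)
  apply integral_mono ((integrable_exp_fs μ hexp γ lam γ).indicator hm) ((hexp _).const_mul _)
  intro z
  beta_reduce
  by_cases hz : z ∈ {z : ℝ | 1 < fs μ γ lam z}
  · rw [Set.indicator_of_mem hz, ← Real.exp_add]
    apply Real.exp_le_exp.mpr
    have h1 : 1 < fs μ γ lam z := hz
    have h2 : 0 ≤ (fs μ γ lam z - 1) / lam := div_nonneg (by linarith) hlam.le
    have h3 := h0_nonneg μ hexp hmean γ lam hγ hlam
    have h4 : γ * fs μ γ lam z + (fs μ γ lam z - 1) / lam =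
        -(1 / lam) + -(2 * (lam * γ + 1)) * z - 2 * (lam * γ + 1) * h0 μ γ lam := by
      unfold fs; field_simp; ring
    have h5 : 0 ≤ 2 * (lam * γ + 1) * h0 μ γ lam := by positivity
    linarith
  · rw [Set.indicator_of_notMem hz]
    positivity

lemma tendsto_h0 (hmean : ∫ z, z ∂μ = 0) (hvar : ∫ z, z ^ 2 ∂μ = 1) (γ : ℝ) (hγ : 0 < γ) :
    Tendsto (fun lam => h0 μ γ lam / lam) (𝓝[>] 0) (𝓝 γ) := by
  have hL := LM_tendsto μ hexp hmean hvar
  have h1 : Tendsto (fun lam : ℝ => -(2 * lam * γ)) (𝓝[>] 0) (𝓝[≠] 0) := by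
    apply tendsto_nhdsWithin_iff.mpr
    constructor
    · have : Tendsto (fun lam : ℝ => -(2 * lam * γ)) (𝓝 0) (𝓝 (-(2 * 0 * γ))) := by
        apply Continuous.tendsto; fun_prop
      simp only [mul_zero, zero_mul, neg_zero] at this
      exact this.mono_left nhdsWithin_le_nhds
    · filter_upwards [self_mem_nhdsWithin] with lam hlam
      have : 0 < lam := hlam
      have : 0 < 2 * lam * γ := by positivity
      simp only [Set.mem_compl_iff, Set.mem_singleton_iff]
      linarith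
  have h2 := (hL.comp h1).mul_const (2 * γ)
  have e : (1 / 2 : ℝ) * (2 * γ) = γ := by ring
  rw [e] at h2
  refine h2.congr' ?_
  filter_upwards [self_mem_nhdsWithin] with lam hlam
  have hl : 0 < lam := hlam
  simp only [Function.comp_apply]
  unfold h0
  field_simp

lemma tendsto_rho (hmean : ∫ z, z ∂μ = 0) (hvar : ∫ z, z ^ 2 ∂μ = 1) (γ : ℝ) (hγ : 0 < γ) :
    Tendsto (fun lam => (LM μ (-(lam * γ)) - LM μ (-(2 * lam * γ)) / 2) / lam ^ 2) (𝓝[>] 0)
      (𝓝 (-(γ ^ 2 / 2))) := by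
  have hL := LM_tendsto μ hexp hmean hvar
  have haux : ∀ c : ℝ, 0 < c → Tendsto (fun lam : ℝ => -(c * lam * γ)) (𝓝[>] 0) (𝓝[≠] 0) := by
    intro c hc
    apply tendsto_nhdsWithin_iff.mpr
    constructor
    · have : Tendsto (fun lam : ℝ => -(c * lam * γ)) (𝓝 0) (𝓝 (-(c * 0 * γ))) := by
        apply Continuous.tendsto; fun_prop
      simp only [mul_zero, zero_mul, neg_zero] at this
      exact this.mono_left nhdsWithin_le_nhds
    · filter_upwards [self_mem_nhdsWithin] with lam hlam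
      have : 0 < lam := hlam
      have : 0 < c * lam * γ := by positivity
      simp only [Set.mem_compl_iff, Set.mem_singleton_iff]
      linarith
  have h1 := (hL.comp (haux 1 one_pos)).mul_const (γ ^ 2)
  have h2 := (hL.comp (haux 2 two_pos)).mul_const (2 * γ ^ 2)
  have h3 := h1.sub h2
  have e : (1 / 2 : ℝ) * γ ^ 2 - 1 / 2 * (2 * γ ^ 2) = -(γ ^ 2 / 2) := by ring
  rw [e] at h3
  refine h3.congr' ?_
  filter_upwards [self_mem_nhdsWithin] with lam hlam
  have hl : 0 < lam := hlam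
  simp only [Function.comp_apply, one_mul]
  field_simp

end

lemma tendsto_exp_small : Tendsto (fun lam : ℝ => (1 / lam ^ 2) * Real.exp (-(1 / lam))) (𝓝[>] 0) (𝓝 0) := by
  have h1 : Tendsto (fun x : ℝ => x ^ 2 * Real.exp (-x)) atTop (𝓝 0) :=
    Real.tendsto_pow_mul_exp_neg_atTop_nhds_zero 2
  have h2 : Tendsto (fun lam : ℝ => lam⁻¹) (𝓝[>] 0) atTop := tendsto_inv_nhdsGT_zero
  refine (h1.comp h2).congr (fun lam => ?_)
  simp [one_div]

/-- second moment of the walk -/
lemma integral_S_sq (hexp : ∀ t : ℝ, Integrable (fun z => Real.exp (t * z)) μ)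
    (hmean : ∫ z, z ∂μ = 0) (hvar : ∫ z, z ^ 2 ∂μ = 1) (n : ℕ) :
    Integrable (fun ω => S (fun z => z) n ω) (iid μ) ∧ Integrable (fun ω => S (fun z => z) n ω ^ 2) (iid μ) ∧
      ∫ ω, S (fun z => z) n ω ∂(iid μ) = 0 ∧ ∫ ω, S (fun z => z) n ω ^ 2 ∂(iid μ) = n := by
  have hid := integrable_id' μ hexp
  have hsq := integrable_sq' μ hexp
  induction n with
  | zero => simp [S_zero]
  | succ n ih =>
    obtain ⟨i1, i2, i3, i4⟩ := ih
    have e1 : ∀ ω : ℕ → ℝ, S (fun z => z) (n + 1) ω = S (fun z => z) n ω + ω n := fun ω => S_succ _ n ω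
    have hcross_i : Integrable (fun ω => S (fun z => z) n ω * (fun ω' : ℕ → ℝ => ω' 0) (shift n ω)) (iid μ) :=
      integrable_mul_shift μ (S_dep _ n) i1 (integrable_eval μ hid 0)
    have hcross : ∫ ω, S (fun z => z) n ω * (fun ω' : ℕ → ℝ => ω' 0) (shift n ω) ∂(iid μ) = 0 := by
      rw [integral_mul_shift μ (S_dep _ n) i1.aestronglyMeasurable
        (integrable_eval μ hid 0).aestronglyMeasurable, i3, zero_mul]
    have hcross_i' : Integrable (fun ω : ℕ → ℝ => S (fun z => z) n ω * ω n) (iid μ) := by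
      refine hcross_i.congr (Filter.Eventually.of_forall (fun ω => ?_))
      simp [shift_apply]
    have hcross' : ∫ ω : ℕ → ℝ, S (fun z => z) n ω * ω n ∂(iid μ) = 0 := by
      rw [← hcross]
      apply integral_congr_ae
      refine Filter.Eventually.of_forall (fun ω => ?_)
      simp [shift_apply]
    have hev := integrable_eval μ hid n
    have hevs := integrable_eval μ hsq n
    refine ⟨?_, ?_, ?_, ?_⟩
    · simp_rw [e1]; exact i1.add hev
    · have : (fun ω => S (fun z => z) (n + 1) ω ^ 2) = fun ω : ℕ → ℝ =>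
          S (fun z => z) n ω ^ 2 + 2 * (S (fun z => z) n ω * ω n) + (ω n) ^ 2 := by
        funext ω; rw [e1]; ring
      rw [this]
      exact (i2.add (hcross_i'.const_mul 2)).add hevs
    · simp_rw [e1]
      rw [integral_add i1 hev, i3, integral_eval μ hid n, hmean]; simp
    · have : (fun ω => S (fun z => z) (n + 1) ω ^ 2) = fun ω : ℕ → ℝ =>
          S (fun z => z) n ω ^ 2 + 2 * (S (fun z => z) n ω * ω n) + (ω n) ^ 2 := by
        funext ω; rw [e1]; ring
      have e3 : ∫ ω : ℕ → ℝ, (S (fun z => z) n ω ^ 2 + 2 * (S (fun z => z) n ω * ω n) + (ω n) ^ 2) ∂(iid μ)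
          = ∫ ω : ℕ → ℝ, (S (fun z => z) n ω ^ 2 + 2 * (S (fun z => z) n ω * ω n)) ∂(iid μ) +
            ∫ ω : ℕ → ℝ, (ω n) ^ 2 ∂(iid μ) :=
        integral_add (i2.add (hcross_i'.const_mul 2)) hevs
      have e4 : ∫ ω : ℕ → ℝ, (S (fun z => z) n ω ^ 2 + 2 * (S (fun z => z) n ω * ω n)) ∂(iid μ) =
          ∫ ω : ℕ → ℝ, S (fun z => z) n ω ^ 2 ∂(iid μ) +
          ∫ ω : ℕ → ℝ, 2 * (S (fun z => z) n ω * ω n) ∂(iid μ) :=
        integral_add i2 (hcross_i'.const_mul 2)
      rw [this, e3, e4, i4, integral_const_mul, hcross', integral_eval μ hsq n, hvar]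
      push_cast; ring

lemma integral_abs_S (hexp : ∀ t : ℝ, Integrable (fun z => Real.exp (t * z)) μ)
    (hmean : ∫ z, z ∂μ = 0) (hvar : ∫ z, z ^ 2 ∂μ = 1) (n : ℕ) :
    ∫ ω, |S (fun z => z) n ω| ∂(iid μ) ≤ Real.sqrt n := by
  obtain ⟨i1, i2, _, i4⟩ := integral_S_sq μ hexp hmean hvar n
  rcases Nat.eq_zero_or_pos n with h | h
  · subst h; simp [S_zero]
  · have hn : (0:ℝ) < n := by exact_mod_cast h
    have hs : 0 < Real.sqrt n := Real.sqrt_pos.mpr hn
    have h1 : ∫ ω, |S (fun z => z) n ω| ∂(iid μ) ≤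
        ∫ ω, (1 / (2 * Real.sqrt n) * S (fun z => z) n ω ^ 2 + Real.sqrt n / 2) ∂(iid μ) := by
      apply integral_mono i1.abs ((i2.const_mul _).add (integrable_const _))
      intro ω
      show |S (fun z => z) n ω| ≤ 1 / (2 * Real.sqrt n) * S (fun z => z) n ω ^ 2 + Real.sqrt n / 2
      have h2 : 0 ≤ (|S (fun z => z) n ω| - Real.sqrt n) ^ 2 := sq_nonneg _
      have h3 : |S (fun z => z) n ω| ^ 2 = S (fun z => z) n ω ^ 2 := sq_abs _
      rw [← h3]
      have h4 : 1 / (2 * Real.sqrt n) * |S (fun z => z) n ω| ^ 2 + Real.sqrt n / 2 - |S (fun z => z) n ω| =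
          1 / (2 * Real.sqrt n) * (|S (fun z => z) n ω| - Real.sqrt n) ^ 2 := by
        field_simp; ring
      have h5 : 0 ≤ 1 / (2 * Real.sqrt n) * (|S (fun z => z) n ω| - Real.sqrt n) ^ 2 := by positivity
      linarith
    refine h1.trans (le_of_eq ?_)
    have e1 : ∫ ω, (1 / (2 * Real.sqrt n) * S (fun z => z) n ω ^ 2 + Real.sqrt n / 2) ∂(iid μ) =
        ∫ ω, 1 / (2 * Real.sqrt n) * S (fun z => z) n ω ^ 2 ∂(iid μ) + ∫ ω, Real.sqrt n / 2 ∂(iid μ) :=
      integral_add (i2.const_mul _) (integrable_const _)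
    rw [e1, integral_const_mul, i4]
    simp only [integral_const, probReal_univ, smul_eq_mul, one_mul]
    have : (n:ℝ) = Real.sqrt n * Real.sqrt n := (Real.mul_self_sqrt hn.le).symm
    field_simp
    nlinarith

end Pool.Agent.H95.Cop
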