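import Mathlib
import Pool.Agent.H95.Cop.Env

open MeasureTheory ProbabilityTheory Filter Topology
open scoped ENNReal

namespace Pool.Agent.H95.Cop

open Pool.Agent.H95

variable (μ : Measure ℝ) [IsProbabilityMeasure μ]

lemma DepLt_preimage {E : Type*} {s t : ℕ} {A : Set (ℕ → E)} (hA : DepLt t (fun ω => ω ∈ A)) :
    DepLt (t + s) (fun ω => ω ∈ shift s ⁻¹' A) := by
  intro x x' h
  apply hA (shift s x) (shift s x')
  intro i hi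
  rw [shift_apply, shift_apply]
  exact h (i + s) (by omega)

lemma Suc_dep (Win : Set (ℕ → ℝ)) (f : ℝ → ℝ) (ℓ : ℕ) (w : ℝ) (m M : ℕ)
    (hWd : DepLt (3 * ℓ) (fun ω => ω ∈ Win)) :
    DepLt ((M + 3 + m) * ℓ) (fun ω => ω ∈ Suc Win f ℓ w m M) := by
  intro x x' h
  have key : ∀ X < M, (x ∈ EX Win f ℓ w m X ↔ x' ∈ EX Win f ℓ w m X) := by
    intro X hX
    have e1 : 3 * ℓ + X * ℓ ≤ (M + 3 + m) * ℓ := by
      calc 3 * ℓ + X * ℓ = (3 + X) * ℓ := by ring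
        _ ≤ _ := Nat.mul_le_mul_right _ (by omega)
    have e2 : m * ℓ + (3 * ℓ + X * ℓ) ≤ (M + 3 + m) * ℓ := by
      calc m * ℓ + (3 * ℓ + X * ℓ) = (m + 3 + X) * ℓ := by ring
        _ ≤ _ := Nat.mul_le_mul_right _ (by omega)
    have h1 : (shift (X * ℓ) x ∈ Win) = (shift (X * ℓ) x' ∈ Win) := by
      apply hWd (shift (X * ℓ) x) (shift (X * ℓ) x')
      intro i hi
      rw [shift_apply, shift_apply]
      exact h _ (by omega)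
    have h2 : (shift (3 * ℓ + X * ℓ) x ∈ PS f ℓ w m) = (shift (3 * ℓ + X * ℓ) x' ∈ PS f ℓ w m) := by
      apply PS_dep f ℓ w m (shift (3 * ℓ + X * ℓ) x) (shift (3 * ℓ + X * ℓ) x')
      intro i hi
      rw [shift_apply, shift_apply]
      exact h _ (by omega)
    unfold EX
    simp only [Set.mem_preimage, Set.mem_inter_iff, shift_shift]
    rw [h1, h2]
  simp only [Suc, Set.mem_iUnion, Finset.mem_range, eq_iff_iff]
  constructor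
  · rintro ⟨X, hX, hx⟩
    exact ⟨X, hX, (key X hX).mp hx⟩
  · rintro ⟨X, hX, hx⟩
    exact ⟨X, hX, (key X hX).mpr hx⟩

lemma measurableSet_Suc {Win : Set (ℕ → ℝ)} (hWm : MeasurableSet Win) {f : ℝ → ℝ} (hf : Measurable f)
    (ℓ : ℕ) (w : ℝ) (m M : ℕ) : MeasurableSet (Suc Win f ℓ w m M) := by
  unfold Suc EX
  exact Finset.measurableSet_biUnion _ (fun X _ => measurable_shift _
    (hWm.inter (measurable_shift _ (measurableSet_PS hf ℓ w m))))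

/-- success at scale `k` -/
def SucAbs (Win : Set (ℕ → ℝ)) (f : ℝ → ℝ) (ℓ : ℕ) (w : ℕ → ℝ) (k : ℕ) : Set (ℕ → ℝ) :=
  shift (2 ^ k * ℓ) ⁻¹' Suc Win f ℓ (w k) k (2 ^ k - k - 3)

/-- failure at all scales in `[k0, n)` -/
def Fail (Win : Set (ℕ → ℝ)) (f : ℝ → ℝ) (ℓ : ℕ) (w : ℕ → ℝ) (k0 n : ℕ) : Set (ℕ → ℝ) :=
  {ω | ∀ k, k0 ≤ k → k < n → ω ∉ SucAbs Win f ℓ w k}

lemma SucAbs_dep (Win : Set (ℕ → ℝ)) (f : ℝ → ℝ) (ℓ : ℕ) (w : ℕ → ℝ) (k : ℕ)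
    (hWd : DepLt (3 * ℓ) (fun ω => ω ∈ Win)) (hk : k + 3 ≤ 2 ^ k) :
    DepLt (2 ^ (k + 1) * ℓ) (fun ω => ω ∈ SucAbs Win f ℓ w k) := by
  have h1 := DepLt_preimage (s := 2 ^ k * ℓ) (Suc_dep Win f ℓ (w k) k (2 ^ k - k - 3) hWd)
  have e : (2 ^ k - k - 3 + 3 + k) * ℓ + 2 ^ k * ℓ = 2 ^ (k + 1) * ℓ := by
    have : 2 ^ k - k - 3 + 3 + k = 2 ^ k := by omega
    rw [this, pow_succ]; ring
  rw [e] at h1
  exact h1

lemma Fail_dep (Win : Set (ℕ → ℝ)) (f : ℝ → ℝ) (ℓ : ℕ) (w : ℕ → ℝ) (k0 n : ℕ)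
    (hWd : DepLt (3 * ℓ) (fun ω => ω ∈ Win)) (hk0 : ∀ k, k0 ≤ k → k + 3 ≤ 2 ^ k) :
    DepLt (2 ^ n * ℓ) (fun ω => ω ∈ Fail Win f ℓ w k0 n) := by
  intro x x' h
  simp only [Fail, Set.mem_ofPred_eq, eq_iff_iff]
  have key : ∀ k, k0 ≤ k → k < n → (x ∈ SucAbs Win f ℓ w k ↔ x' ∈ SucAbs Win f ℓ w k) := by
    intro k hk hkn
    have h1 := SucAbs_dep Win f ℓ w k hWd (hk0 k hk) x x' (fun i hi => h i (by
      have : 2 ^ (k + 1) * ℓ ≤ 2 ^ n * ℓ := Nat.mul_le_mul_right _ (Nat.pow_le_pow_right (by norm_num) hkn)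
      omega))
    simpa using h1
  constructor
  · intro h1 k hk hkn h2
    exact h1 k hk hkn ((key k hk hkn).mpr h2)
  · intro h1 k hk hkn h2
    exact h1 k hk hkn ((key k hk hkn).mp h2)

lemma measurableSet_SucAbs {Win : Set (ℕ → ℝ)} (hWm : MeasurableSet Win) {f : ℝ → ℝ}
    (hf : Measurable f) (ℓ : ℕ) (w : ℕ → ℝ) (k : ℕ) : MeasurableSet (SucAbs Win f ℓ w k) :=
  measurable_shift _ (measurableSet_Suc hWm hf _ _ _ _)

lemma measurableSet_Fail {Win : Set (ℕ → ℝ)} (hWm : MeasurableSet Win) {f : ℝ → ℝ}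
    (hf : Measurable f) (ℓ : ℕ) (w : ℕ → ℝ) (k0 n : ℕ) : MeasurableSet (Fail Win f ℓ w k0 n) := by
  have : Fail Win f ℓ w k0 n = ⋂ k : ℕ, ⋂ (_ : k0 ≤ k), ⋂ (_ : k < n), (SucAbs Win f ℓ w k)ᶜ := by
    ext ω
    simp only [Fail, Set.mem_ofPred_eq, Set.mem_iInter, Set.mem_compl_iff]
  rw [this]
  exact MeasurableSet.iInter (fun k => MeasurableSet.iInter (fun _ => MeasurableSet.iInter
    (fun _ => (measurableSet_SucAbs hWm hf ℓ w k).compl)))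

lemma Fail_prob {Win : Set (ℕ → ℝ)} (hWm : MeasurableSet Win) {f : ℝ → ℝ}
    (hf : Measurable f) (ℓ : ℕ) (w : ℕ → ℝ) (k0 n : ℕ)
    (hWd : DepLt (3 * ℓ) (fun ω => ω ∈ Win)) (hk0 : ∀ k, k0 ≤ k → k + 3 ≤ 2 ^ k) (q : ℕ → ℝ)
    (hq : ∀ k, k0 ≤ k → k < n → q k ≤ (iid μ).real (Suc Win f ℓ (w k) k (2 ^ k - k - 3)))
    (hq1 : ∀ k, k0 ≤ k → k < n → q k ≤ 1) :
    (iid μ).real (Fail Win f ℓ w k0 n) ≤ ∏ k ∈ Finset.Ico k0 n, (1 - q k) := by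
  induction n with
  | zero =>
    have : Finset.Ico k0 0 = ∅ := by rw [Finset.Ico_eq_empty_iff]; omega
    rw [this, Finset.prod_empty]
    exact measureReal_le_one
  | succ n ih =>
    rcases lt_or_ge n k0 with hlt | hge
    · have : Finset.Ico k0 (n + 1) = ∅ := by rw [Finset.Ico_eq_empty_iff]; omega
      rw [this, Finset.prod_empty]
      exact measureReal_le_one
    · have hF : Fail Win f ℓ w k0 (n + 1) = Fail Win f ℓ w k0 n ∩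
          shift (2 ^ n * ℓ) ⁻¹' (Suc Win f ℓ (w n) n (2 ^ n - n - 3))ᶜ := by
        ext ω
        simp only [Fail, Set.mem_ofPred_eq, Set.mem_inter_iff, Set.mem_preimage, Set.mem_compl_iff]
        constructor
        · intro h
          exact ⟨fun k hk hkn => h k hk (by omega), h n hge (by omega)⟩
        · rintro ⟨h1, h2⟩ k hk hkn
          rcases Nat.lt_succ_iff_lt_or_eq.mp hkn with h | h
          · exact h1 k hk h
          · subst h; exact h2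
      rw [hF, real_inter_shift μ (Fail_dep Win f ℓ w k0 n hWd hk0) (measurableSet_Fail hWm hf ℓ w k0 n)
        (measurableSet_Suc hWm hf _ _ _ _).compl, Finset.prod_Ico_succ_top hge]
      have h1 := ih (fun k hk hkn => hq k hk (by omega)) (fun k hk hkn => hq1 k hk (by omega))
      have h2 : (iid μ).real (Suc Win f ℓ (w n) n (2 ^ n - n - 3))ᶜ ≤ 1 - q n := by
        rw [measureReal_compl (measurableSet_Suc hWm hf _ _ _ _)]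
        have := hq n hge (by omega)
        simp only [probReal_univ]
        linarith
      apply mul_le_mul h1 h2 measureReal_nonneg
      apply Finset.prod_nonneg
      intro k hk
      rw [Finset.mem_Ico] at hk
      have := hq1 k hk.1 (by omega)
      linarith

lemma log_leg (K : PMF ℕ) (α c1 c2 : ℝ) (hc1 : 0 < c1) (hc2 : 0 < c2) (ℓ : ℕ) (hℓ : 1 ≤ ℓ)
    (hUU : c1 * (ℓ : ℝ) ^ α ≤ UU K ℓ) (a : ℕ) (ha : 1 ≤ a) :
    Real.log (c1 * c2 / 2) - (1 + α) * Real.log a ≤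
      Real.log ((c2 * ((a * ℓ : ℕ) : ℝ) ^ (-(1 + α))) / 2 * (UU K ℓ * ℓ)) := by
  have hℓ0 : (0:ℝ) < ℓ := by exact_mod_cast hℓ
  have ha0 : (0:ℝ) < a := by exact_mod_cast ha
  have h1 : (c1 * c2 / 2) * (a : ℝ) ^ (-(1 + α)) ≤
      (c2 * ((a * ℓ : ℕ) : ℝ) ^ (-(1 + α))) / 2 * (UU K ℓ * ℓ) := by
    push_cast
    rw [Real.mul_rpow ha0.le hℓ0.le]
    have h2 : (ℓ : ℝ) ^ (-(1 + α)) * ((ℓ : ℝ) ^ α * ℓ) = 1 := by
      have : (ℓ : ℝ) ^ α * ℓ = (ℓ : ℝ) ^ (1 + α) := by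
        rw [add_comm, Real.rpow_add hℓ0, Real.rpow_one]
      rw [this, ← Real.rpow_add hℓ0]; simp
    have hap : 0 < (a : ℝ) ^ (-(1 + α)) := Real.rpow_pos_of_pos ha0 _
    have hlp : 0 < (ℓ : ℝ) ^ (-(1 + α)) := Real.rpow_pos_of_pos hℓ0 _
    calc c1 * c2 / 2 * (a : ℝ) ^ (-(1 + α))
        = c1 * c2 / 2 * (a : ℝ) ^ (-(1 + α)) * ((ℓ : ℝ) ^ (-(1 + α)) * ((ℓ : ℝ) ^ α * ℓ)) := by
          rw [h2, mul_one]
      _ = c2 * ((a : ℝ) ^ (-(1 + α)) * (ℓ : ℝ) ^ (-(1 + α))) / 2 * (c1 * (ℓ : ℝ) ^ α * ℓ) := by ring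
      _ ≤ _ := by
          apply mul_le_mul_of_nonneg_left _ (by positivity)
          exact mul_le_mul_of_nonneg_right hUU hℓ0.le
  have hap : 0 < (a : ℝ) ^ (-(1 + α)) := Real.rpow_pos_of_pos ha0 _
  have h3 := Real.log_le_log (by positivity) h1
  rw [Real.log_mul (by positivity) hap.ne', Real.log_rpow ha0] at h3
  linarith

/-- one successful step at scale `k` -/
lemma step_success (K : PMF ℕ) (hK0 : K 0 = 0) (α : ℝ) (hα : 0 < α) (c1 c2 : ℝ) (hc1 : 0 < c1)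
    (hc2 : 0 < c2) (ℓ : ℕ) (hℓ : 1 ≤ ℓ) (hUU : c1 * (ℓ : ℝ) ^ α ≤ UU K ℓ) (n0 : ℕ) (hn0 : n0 ≤ ℓ)
    (hlow : ∀ n : ℕ, n0 ≤ n → c2 * (n : ℝ) ^ (-(1 + α)) ≤ kk K n) (f : ℝ → ℝ) (ε : ℝ) (hε : 0 ≤ ε)
    (k X n t R : ℕ) (hk : 2 ≤ k) (hX : X + k + 3 < 2 ^ k) (hn : n ≤ k * ℓ)
    (ht : (2 ^ k + X + 3) * ℓ + n = t) (hR : t + ℓ ≤ R) (hεk : ε * (k * ℓ : ℕ) ≤ 1)
    (Oc : ℝ) (ω : ℕ → ℝ) (hwin : -Oc ≤ A2 K ℓ (XX f ε (shift ((2 ^ k + X) * ℓ) ω)))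
    (w : ℝ) (hw : w ≤ S f n (shift ((2 ^ k + X + 3) * ℓ) ω)) :
    A1 K ℓ (XX f ε ω) + (w - 1 - Oc + 2 * Real.log (c1 * c2 / 2) -
      (1 + α) * (Real.log ((2 ^ (k + 1) : ℕ)) + Real.log ((k + 4 : ℕ)))) +
      A3 ℓ (XX f ε (shift t ω)) + qq K ℓ (R - t) (XX f ε (shift t ω)) ≤ qq K ℓ R (XX f ε ω) := by
  have hℓ0 : (0:ℝ) < ℓ := by exact_mod_cast hℓ
  have h2k : 4 ≤ 2 ^ k := by
    calc 4 = 2 ^ 2 := by norm_num
      _ ≤ 2 ^ k := Nat.pow_le_pow_right (by norm_num) hk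
  set b0 := (2 ^ k + X) * ℓ with hb0
  have hb0t : b0 + 3 * ℓ + n = t := by rw [← ht, hb0]; ring
  have hpow : (2:ℕ) ^ (k + 1) = 2 ^ k + 2 ^ k := by rw [pow_succ]; ring
  have hr1 : ∀ a b : ℕ, 1 ≤ b → b ≤ a → (a : ℝ) ^ (-(1 + α)) ≤ (b : ℝ) ^ (-(1 + α)) := by
    intro a b hb hab
    apply Real.rpow_le_rpow_of_nonpos (by exact_mod_cast hb) (by exact_mod_cast hab) (by linarith)
  have hκ : 0 < c2 * ((2 ^ (k + 1) * ℓ : ℕ) : ℝ) ^ (-(1 + α)) := by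
    have : (0:ℝ) < ((2 ^ (k + 1) * ℓ : ℕ) : ℝ) := by
      have : 0 < 2 ^ (k + 1) * ℓ := by positivity
      exact_mod_cast this
    have := Real.rpow_pos_of_pos this (-(1 + α))
    positivity
  have hκ' : 0 < c2 * (((k + 4) * ℓ : ℕ) : ℝ) ^ (-(1 + α)) := by
    have : (0:ℝ) < (((k + 4) * ℓ : ℕ) : ℝ) := by
      have : 0 < (k + 4) * ℓ := by positivity
      exact_mod_cast this
    have := Real.rpow_pos_of_pos this (-(1 + α))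
    positivity
  have hfs := full_step K hK0 R (XX f ε ω) ℓ hℓ b0 t
    (by
      have : 2 * ℓ ≤ (2 ^ k + X) * ℓ := Nat.mul_le_mul_right _ (by omega)
      exact this)
    (by omega) hR _ _ hκ hκ'
    (by
      intro m hm1 hm2
      have e1 : ℓ ≤ m := by
        have : 3 * ℓ ≤ (2 ^ k + X) * ℓ := Nat.mul_le_mul_right _ (by omega)
        omega
      have e2 : m ≤ 2 ^ (k + 1) * ℓ := by
        have : (2 ^ k + X) * ℓ + ℓ ≤ 2 ^ (k + 1) * ℓ := by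
          calc (2 ^ k + X) * ℓ + ℓ = (2 ^ k + X + 1) * ℓ := by ring
            _ ≤ _ := Nat.mul_le_mul_right _ (by omega)
        omega
      refine le_trans ?_ (hlow m (hn0.trans e1))
      exact mul_le_mul_of_nonneg_left (hr1 _ _ (hℓ.trans e1) e2) hc2.le)
    (by
      intro m hm1 hm2
      have e1 : ℓ ≤ m := by omega
      have e2 : m ≤ (k + 4) * ℓ := by
        have : (k + 4) * ℓ = k * ℓ + 4 * ℓ := by ring
        omega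
      refine le_trans ?_ (hlow m (hn0.trans e1))
      exact mul_le_mul_of_nonneg_left (hr1 _ _ (hℓ.trans e1) e2) hc2.le)
  have hl1 := log_leg K α c1 c2 hc1 hc2 ℓ hℓ hUU (2 ^ (k + 1)) (Nat.one_le_two_pow)
  have hl2 := log_leg K α c1 c2 hc1 hc2 ℓ hℓ hUU (k + 4) (by omega)
  have hH : H (XX f ε ω) (b0 + 3 * ℓ) t = S f n (shift ((2 ^ k + X + 3) * ℓ) ω) - n * ε := by
    have e : b0 + 3 * ℓ = (2 ^ k + X + 3) * ℓ := by rw [hb0]; ring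
    rw [← hb0t, H_XX, e]
  have hnε : (n : ℝ) * ε ≤ 1 := by
    have : (n : ℝ) ≤ ((k * ℓ : ℕ) : ℝ) := by exact_mod_cast hn
    nlinarith
  rw [hH, shift_XX, shift_XX] at hfs
  linarith

/-- crude step -/
lemma step_crude (K : PMF ℕ) (hK0 : K 0 = 0) (α : ℝ) (hα : 0 < α) (c1 c2 : ℝ) (hc1 : 0 < c1)
    (hc2 : 0 < c2) (ℓ : ℕ) (hℓ : 1 ≤ ℓ) (hUU : c1 * (ℓ : ℝ) ^ α ≤ UU K ℓ) (n0 : ℕ) (hn0 : n0 ≤ ℓ)
    (hlow : ∀ n : ℕ, n0 ≤ n → c2 * (n : ℝ) ^ (-(1 + α)) ≤ kk K n) (f : ℝ → ℝ) (ε : ℝ)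
    (k R : ℕ) (hk : 2 ≤ k) (hR : 2 ^ k * ℓ + ℓ ≤ R) (ω : ℕ → ℝ) :
    A1 K ℓ (XX f ε ω) + (Real.log (c1 * c2 / 2) - (1 + α) * Real.log ((2 ^ (k + 1) : ℕ))) +
      qq K ℓ (R - 2 ^ k * ℓ) (XX f ε (shift (2 ^ k * ℓ) ω)) ≤ qq K ℓ R (XX f ε ω) := by
  have hℓ0 : (0:ℝ) < ℓ := by exact_mod_cast hℓ
  have h2k : 4 ≤ 2 ^ k := by
    calc 4 = 2 ^ 2 := by norm_num
      _ ≤ 2 ^ k := Nat.pow_le_pow_right (by norm_num) hk
  have hpow : (2:ℕ) ^ (k + 1) = 2 ^ k + 2 ^ k := by rw [pow_succ]; ring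
  have hr1 : ∀ a b : ℕ, 1 ≤ b → b ≤ a → (a : ℝ) ^ (-(1 + α)) ≤ (b : ℝ) ^ (-(1 + α)) := by
    intro a b hb hab
    apply Real.rpow_le_rpow_of_nonpos (by exact_mod_cast hb) (by exact_mod_cast hab) (by linarith)
  have hκ : 0 < c2 * ((2 ^ (k + 1) * ℓ : ℕ) : ℝ) ^ (-(1 + α)) := by
    have : (0:ℝ) < ((2 ^ (k + 1) * ℓ : ℕ) : ℝ) := by
      have : 0 < 2 ^ (k + 1) * ℓ := by positivity
      exact_mod_cast this
    have := Real.rpow_pos_of_pos this (-(1 + α))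
    positivity
  have hlu := leg_upper K hK0 R (XX f ε ω) ℓ hℓ (2 ^ k * ℓ)
    (Nat.mul_le_mul_right _ (by omega)) hR _ hκ
    (by
      intro m hm1 hm2
      have e1 : ℓ ≤ m := by
        have : 3 * ℓ ≤ 2 ^ k * ℓ := Nat.mul_le_mul_right _ (by omega)
        omega
      have e2 : m ≤ 2 ^ (k + 1) * ℓ := by
        have : 2 ^ k * ℓ + ℓ ≤ 2 ^ (k + 1) * ℓ := by
          calc 2 ^ k * ℓ + ℓ = (2 ^ k + 1) * ℓ := by ring
            _ ≤ _ := Nat.mul_le_mul_right _ (by omega)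
        omega
      refine le_trans ?_ (hlow m (hn0.trans e1))
      exact mul_le_mul_of_nonneg_left (hr1 _ _ (hℓ.trans e1) e2) hc2.le)
  have hl1 := log_leg K α c1 c2 hc1 hc2 ℓ hℓ hUU (2 ^ (k + 1)) (Nat.one_le_two_pow)
  rw [shift_XX] at hlu
  linarith

end Pool.Agent.H95.Cop
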