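import Mathlib
import Pool.Agent.H95.Cop.Multi

open MeasureTheory ProbabilityTheory Filter Topology
open scoped ENNReal

namespace Pool.Agent.H95.Cop

open Pool.Agent.H95

variable (μ : Measure ℝ) [IsProbabilityMeasure μ]

/-- completions at time `t` -/
def St (Win : Set (ℕ → ℝ)) (f : ℝ → ℝ) (ℓ : ℕ) (w : ℕ → ℝ) (k0 k1 t : ℕ) : Set (ℕ → ℝ) :=
  {ω | ∃ k X n, k0 ≤ k ∧ k ≤ k1 ∧ X + k + 3 < 2 ^ k ∧ n ≤ k * ℓ ∧ (2 ^ k + X + 3) * ℓ + n = t ∧
    shift ((2 ^ k + X) * ℓ) ω ∈ Win ∧ shift ((2 ^ k + X + 3) * ℓ) ω ∈ Cset f ℓ (w k) n}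

lemma St_dep (Win : Set (ℕ → ℝ)) (f : ℝ → ℝ) (ℓ : ℕ) (w : ℕ → ℝ) (k0 k1 t : ℕ)
    (hWd : DepLt (3 * ℓ) (fun ω => ω ∈ Win)) : DepLt t (fun ω => ω ∈ St Win f ℓ w k0 k1 t) := by
  have key : ∀ x x' : ℕ → ℝ, (∀ i < t, x i = x' i) → x ∈ St Win f ℓ w k0 k1 t →
      x' ∈ St Win f ℓ w k0 k1 t := by
    rintro x x' h ⟨k, X, n, h1, h2, h3, h4, h5, h6, h7⟩
    refine ⟨k, X, n, h1, h2, h3, h4, h5, ?_, ?_⟩
    · have e : (2 ^ k + X + 3) * ℓ = (2 ^ k + X) * ℓ + 3 * ℓ := by ring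
      have := hWd (shift ((2 ^ k + X) * ℓ) x) (shift ((2 ^ k + X) * ℓ) x') (fun i hi => by
        rw [shift_apply, shift_apply]; exact h _ (by omega))
      simp only [eq_iff_iff] at this
      exact this.mp h6
    · have := Cset_dep f ℓ (w k) n (shift ((2 ^ k + X + 3) * ℓ) x) (shift ((2 ^ k + X + 3) * ℓ) x')
        (fun i hi => by rw [shift_apply, shift_apply]; exact h _ (by omega))
      simp only [eq_iff_iff] at this
      exact this.mp h7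
  intro x x' h
  simp only [eq_iff_iff]
  exact ⟨key x x' h, key x' x (fun i hi => (h i hi).symm)⟩

lemma measurableSet_St {Win : Set (ℕ → ℝ)} (hWm : MeasurableSet Win) {f : ℝ → ℝ} (hf : Measurable f)
    (ℓ : ℕ) (w : ℕ → ℝ) (k0 k1 t : ℕ) : MeasurableSet (St Win f ℓ w k0 k1 t) := by
  have : St Win f ℓ w k0 k1 t = ⋃ k : ℕ, ⋃ X : ℕ, ⋃ n : ℕ, ⋃ (_ : k0 ≤ k ∧ k ≤ k1 ∧ X + k + 3 < 2 ^ k ∧
      n ≤ k * ℓ ∧ (2 ^ k + X + 3) * ℓ + n = t), (shift ((2 ^ k + X) * ℓ) ⁻¹' Win ∩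
      shift ((2 ^ k + X + 3) * ℓ) ⁻¹' Cset f ℓ (w k) n) := by
    ext ω
    simp only [St, Set.mem_ofPred_eq, Set.mem_iUnion, exists_prop, Set.mem_inter_iff, Set.mem_preimage,
      and_assoc]
  rw [this]
  exact MeasurableSet.iUnion (fun k => MeasurableSet.iUnion (fun X => MeasurableSet.iUnion
    (fun n => MeasurableSet.iUnion (fun _ => (measurable_shift _ hWm).inter
      (measurable_shift _ (measurableSet_Cset hf ℓ (w k) n))))))

lemma SucAbs_sub_St (Win : Set (ℕ → ℝ)) (f : ℝ → ℝ) (ℓ : ℕ) (hℓ : 1 ≤ ℓ) (w : ℕ → ℝ) (k0 k1 k : ℕ)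
    (hk : k0 ≤ k) (hk1 : k ≤ k1) (ω : ℕ → ℝ) (h : ω ∈ SucAbs Win f ℓ w k) :
    ∃ t < 2 ^ (k + 1) * ℓ, ω ∈ St Win f ℓ w k0 k1 t := by
  simp only [SucAbs, Suc, Set.mem_preimage, Set.mem_iUnion, Finset.mem_range, EX, Set.mem_inter_iff,
    shift_shift, PS, Set.mem_ofPred_eq] at h
  obtain ⟨X, hX, h1, n, hn, h2⟩ := h
  have e1 : X * ℓ + 2 ^ k * ℓ = (2 ^ k + X) * ℓ := by ring
  have e2 : 3 * ℓ + (X * ℓ + 2 ^ k * ℓ) = (2 ^ k + X + 3) * ℓ := by ring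
  have e3 : 3 * ℓ + X * ℓ + 2 ^ k * ℓ = (2 ^ k + X + 3) * ℓ := by ring
  refine ⟨(2 ^ k + X + 3) * ℓ + n, ?_, k, X, n, hk, hk1, by omega, hn, rfl, ?_, ?_⟩
  · calc (2 ^ k + X + 3) * ℓ + n ≤ (2 ^ k + X + 3) * ℓ + k * ℓ := by omega
      _ = (2 ^ k + X + 3 + k) * ℓ := by ring
      _ < 2 ^ (k + 1) * ℓ := by
        apply Nat.mul_lt_mul_of_pos_right _ (by omega)
        rw [pow_succ]; omega
  · rw [e1] at h1; exact h1
  · rw [e2] at h2; exact h2

theorem main_growth (K : PMF ℕ) (hK0 : K 0 = 0) (α : ℝ) (hα : 0 < α) (c1 c2 : ℝ) (hc1 : 0 < c1)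
    (hc2 : 0 < c2) (ℓ : ℕ) (hℓ : 1 ≤ ℓ) (hUU : c1 * (ℓ : ℝ) ^ α ≤ UU K ℓ) (n0 : ℕ) (hn0 : n0 ≤ ℓ)
    (hlow : ∀ n : ℕ, n0 ≤ n → c2 * (n : ℝ) ^ (-(1 + α)) ≤ kk K n)
    (f : ℝ → ℝ) (hf : Measurable f) (hfi : Integrable f μ) (ε : ℝ) (hε : 0 ≤ ε)
    (Cm : ℝ) (hCm : ℓ * |∫ z, f z ∂μ - ε| ≤ Cm) (Oc : ℝ)
    (Win : Set (ℕ → ℝ)) (hWm : MeasurableSet Win) (hWd : DepLt (3 * ℓ) (fun ω => ω ∈ Win))
    (hWin : ∀ ω ∈ Win, -Oc ≤ A2 K ℓ (XX f ε ω))
    (G Λ Γ : ℝ) (hG : G = 3 / 2 * Cm + 2) (hGΛ : 0 ≤ G + Λ) (hΓ : 0 ≤ Γ)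
    (k0 κ : ℕ) (hk02 : 2 ≤ k0) (hk0 : ∀ k, k0 ≤ k → k + 3 ≤ 2 ^ k) (hk0κ : k0 ≤ 2 * κ)
    (w : ℕ → ℝ) (hw : ∀ k, w k = Oc + 1 - 2 * Real.log (c1 * c2 / 2) +
      (1 + α) * (Real.log ((2 ^ (k + 1) : ℕ)) + Real.log ((k + 4 : ℕ))) + (if k ≤ κ then G else -Λ))
    (q : ℕ → ℝ)
    (hq : ∀ k, k0 ≤ k → k ≤ 2 * κ → q k ≤ (iid μ).real (Suc Win f ℓ (w k) k (2 ^ k - k - 3)))
    (hq1 : ∀ k, k0 ≤ k → k ≤ 2 * κ → q k ≤ 1)
    (hnum : (G + Λ) * ∏ k ∈ Finset.Ico k0 (κ + 1), (1 - q k) +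
      Γ * ∏ k ∈ Finset.Ico k0 (2 * κ + 1), (1 - q k) ≤ 1)
    (hcrude : -Λ - Γ ≤ Real.log (c1 * c2 / 2) - (1 + α) * Real.log ((2 ^ (2 * κ + 1 + 1) : ℕ)))
    (hεκ : ε * ((2 * κ * ℓ : ℕ) : ℝ) ≤ 1) :
    ∃ C : ℝ, ∀ R : ℕ, (R : ℝ) / ((2 ^ (2 * κ + 1) * ℓ : ℕ) : ℝ) - C ≤
      ∫ ω, qq K ℓ R (XX f ε ω) ∂(iid μ) := by
  have hCm0 : 0 ≤ Cm := le_trans (by positivity) hCm
  have hG0 : 0 ≤ G := by rw [hG]; positivity
  have hκ1 : 1 ≤ κ := by omega
  set D := 2 ^ (2 * κ + 1) * ℓ with hD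
  have hDpos : 1 ≤ D := Nat.mul_pos (by positivity) hℓ
  set F1 := Fail Win f ℓ w k0 (κ + 1) with hF1
  set F2 := Fail Win f ℓ w k0 (2 * κ + 1) with hF2
  have hF1m : MeasurableSet F1 := measurableSet_Fail hWm hf ℓ w k0 _
  have hF2m : MeasurableSet F2 := measurableSet_Fail hWm hf ℓ w k0 _
  have hF21 : F2 ⊆ F1 := fun ω h k hk hk2 => h k hk (by omega)
  set S' := St Win f ℓ w k0 (2 * κ) with hS'
  set A : ℕ → Set (ℕ → ℝ) := fun t => if t < D then {ω | ω ∈ S' t ∧ ∀ t' < t, ω ∉ S' t'} else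
    {ω | ∀ t' < D, ω ∉ S' t'} with hA
  have hSm : ∀ t, MeasurableSet (S' t) := fun t => measurableSet_St hWm hf ℓ w k0 _ t
  have hSd : ∀ t, DepLt t (fun ω => ω ∈ S' t) := fun t => St_dep Win f ℓ w k0 _ t hWd
  have hnot : ∀ T, MeasurableSet {ω : ℕ → ℝ | ∀ t' < T, ω ∉ S' t'} := by
    intro T
    have : {ω : ℕ → ℝ | ∀ t' < T, ω ∉ S' t'} = ⋂ t' ∈ Finset.range T, (S' t')ᶜ := by
      ext ω
      simp only [Set.mem_ofPred_eq, Set.mem_iInter, Finset.mem_range, Set.mem_compl_iff]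
    rw [this]
    exact Finset.measurableSet_biInter _ (fun t' _ => (hSm t').compl)
  have hnotd : ∀ T x x', (∀ i < T, x i = x' i) → ∀ t' < T, (x ∈ S' t' ↔ x' ∈ S' t') := by
    intro T x x' h t' ht'
    have := hSd t' x x' (fun i hi => h i (by omega))
    simpa using this
  -- basic facts on S'
  have hSlow : ∀ t ω, ω ∈ S' t → 1 ≤ t := by
    rintro t ω ⟨k, X, n, h1, h2, h3, h4, h5, h6, h7⟩
    have : 1 ≤ (2 ^ k + X + 3) * ℓ := Nat.mul_pos (by omega) hℓ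
    omega
  have hGi : Integrable (fun ω => A1 K ℓ (XX f ε ω) + (G - (G + Λ) * F1.indicator (fun _ => (1:ℝ)) ω -
      Γ * F2.indicator (fun _ => (1:ℝ)) ω)) (iid μ) := by
    refine (integrable_A1 μ K ℓ hfi ε).add ?_
    exact ((integrable_const G).sub (((integrable_const _).indicator hF1m).const_mul _)).sub
      (((integrable_const _).indicator hF2m).const_mul _)
  refine linear_growth μ (fun R ω => qq K ℓ R (XX f ε ω)) (fun R => integrable_qq μ K ℓ R hf hfi ε)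
    D hDpos (D + ℓ) (by omega) A ?_ ?_ ?_ ?_
    (fun ω => A1 K ℓ (XX f ε ω) + (G - (G + Λ) * F1.indicator (fun _ => (1:ℝ)) ω -
      Γ * F2.indicator (fun _ => (1:ℝ)) ω)) hGi
    (fun t ω => if t < D then A3 ℓ (XX f ε ω) else 0) ?_ Cm ?_ ?_ ?_
  · -- measurability of A
    intro t
    simp only [hA]
    split_ifs
    · exact (hSm t).inter (hnot t)
    · exact hnot D
  · -- dependence
    intro t x x' h
    simp only [hA, eq_iff_iff]
    split_ifs with htD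
    · simp only [Set.mem_ofPred_eq]
      have h1 := hSd t x x' h
      simp only [eq_iff_iff] at h1
      rw [h1]
      have h2 : (∀ t' < t, x ∉ S' t') ↔ (∀ t' < t, x' ∉ S' t') := by
        constructor
        · intro h3 t' ht' h4; exact h3 t' ht' ((hnotd t x x' h t' ht').mpr h4)
        · intro h3 t' ht' h4; exact h3 t' ht' ((hnotd t x x' h t' ht').mp h4)
      rw [h2]
    · simp only [Set.mem_ofPred_eq]
      constructor
      · intro h3 t' ht' h4; exact h3 t' ht' ((hnotd t x x' h t' (by omega)).mpr h4)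
      · intro h3 t' ht' h4; exact h3 t' ht' ((hnotd t x x' h t' (by omega)).mp h4)
  · -- covering
    intro ω
    by_cases h : ∃ t, t < D ∧ ω ∈ S' t
    · classical
      have hs := Nat.find_spec h
      refine ⟨Nat.find h, ?_, ?_⟩
      · rw [Finset.mem_Icc]
        exact ⟨hSlow _ ω hs.2, hs.1.le⟩
      · simp only [hA]
        rw [if_pos hs.1]
        refine ⟨hs.2, fun t' ht' hc => ?_⟩
        exact Nat.find_min h ht' ⟨by omega, hc⟩
    · push Not at h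
      refine ⟨D, Finset.mem_Icc.mpr ⟨hDpos, le_rfl⟩, ?_⟩
      simp only [hA]
      rw [if_neg (lt_irrefl D)]
      exact h
  · -- disjointness
    have aux : ∀ t t' : ℕ, t < t' → t' ≤ D → ∀ ω, ω ∈ A t → ω ∉ A t' := by
      intro t t' htt ht' ω h1 h2
      simp only [hA] at h1 h2
      rw [if_pos (by omega)] at h1
      split_ifs at h2 with h3
      · exact h2.2 t htt h1.1
      · exact h2 t (by omega) h1.1
    intro t ht t' ht' hne ω h1 h2
    rw [Finset.mem_Icc] at ht ht'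
    rcases lt_or_gt_of_ne hne with h | h
    · exact aux t t' h ht'.2 ω h1 h2
    · exact aux t' t h ht.2 ω h2 h1
  · -- integrability of B
    intro t
    split_ifs
    · exact integrable_A3 μ ℓ hfi ε
    · exact integrable_zero _ _ _
  · -- lower bound for B
    intro t
    by_cases h : t < D
    · simp only [h, if_true]
      exact integral_A3_ge μ ℓ hℓ hfi ε Cm hCm
    · simp only [h, if_false]
      simp only [integral_zero]
      linarith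
  · -- the step
    intro R hR t ht ω hωt
    rw [Finset.mem_Icc] at ht
    simp only [hA] at hωt
    by_cases htD : t < D
    · rw [if_pos htD] at hωt
      simp only [htD, if_true]
      obtain ⟨⟨k, X, n, h1, h2, h3, h4, h5, h6, h7⟩, hfirst⟩ := hωt
      have hεk : ε * ((k * ℓ : ℕ) : ℝ) ≤ 1 := by
        refine le_trans ?_ hεκ
        apply mul_le_mul_of_nonneg_left _ hε
        exact_mod_cast Nat.mul_le_mul_right ℓ h2
      have hst := step_success K hK0 α hα c1 c2 hc1 hc2 ℓ hℓ hUU n0 hn0 hlow f ε hε k X n t R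
        (by omega) h3 h4 h5 (by omega) hεk Oc ω (hWin _ h6) (w k) h7.1
      refine le_trans ?_ hst
      have hwk := hw k
      have hval : w k - 1 - Oc + 2 * Real.log (c1 * c2 / 2) -
          (1 + α) * (Real.log ((2 ^ (k + 1) : ℕ)) + Real.log ((k + 4 : ℕ))) =
          if k ≤ κ then G else -Λ := by
        rw [hwk]; ring
      rw [hval]
      have hi1 : 0 ≤ F1.indicator (fun _ => (1:ℝ)) ω := Set.indicator_nonneg (fun _ _ => zero_le_one) _
      have hi2 : 0 ≤ F2.indicator (fun _ => (1:ℝ)) ω := Set.indicator_nonneg (fun _ _ => zero_le_one) _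
      have hm1 : 0 ≤ (G + Λ) * F1.indicator (fun _ => (1:ℝ)) ω := mul_nonneg hGΛ hi1
      have hm2 : 0 ≤ Γ * F2.indicator (fun _ => (1:ℝ)) ω := mul_nonneg hΓ hi2
      by_cases hkκ : k ≤ κ
      · rw [if_pos hkκ]
        linarith
      · rw [if_neg hkκ]
        have hmem : ω ∈ F1 := by
          intro k' hk' hk'2 hs
          obtain ⟨t', ht', hω'⟩ := SucAbs_sub_St Win f ℓ hℓ w k0 (2 * κ) k' hk' (by omega) ω hs
          refine hfirst t' ?_ hω'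
          calc t' < 2 ^ (k' + 1) * ℓ := ht'
            _ ≤ 2 ^ k * ℓ := Nat.mul_le_mul_right _ (Nat.pow_le_pow_right (by norm_num) (by omega))
            _ ≤ (2 ^ k + X + 3) * ℓ := Nat.mul_le_mul_right _ (by omega)
            _ ≤ t := by omega
        rw [Set.indicator_of_mem hmem]
        linarith
    · rw [if_neg htD] at hωt
      simp only [htD, if_false]
      have htD' : t = D := by omega
      have hmem : ω ∈ F2 := by
        intro k' hk' hk'2 hs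
        obtain ⟨t', ht', hω'⟩ := SucAbs_sub_St Win f ℓ hℓ w k0 (2 * κ) k' hk' (by omega) ω hs
        refine hωt t' ?_ hω'
        calc t' < 2 ^ (k' + 1) * ℓ := ht'
          _ ≤ 2 ^ (2 * κ + 1) * ℓ := Nat.mul_le_mul_right _ (Nat.pow_le_pow_right (by norm_num) (by omega))
      rw [Set.indicator_of_mem hmem, Set.indicator_of_mem (hF21 hmem), htD']
      have hcs := step_crude K hK0 α hα c1 c2 hc1 hc2 ℓ hℓ hUU n0 hn0 hlow f ε (2 * κ + 1) R
        (by omega) hR ω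
      refine le_trans ?_ hcs
      rw [hD]
      linarith
  · -- the gain
    have hI1 : ∫ ω, F1.indicator (fun _ => (1:ℝ)) ω ∂(iid μ) = (iid μ).real F1 := by
      rw [integral_indicator hF1m, setIntegral_const, smul_eq_mul, mul_one]
    have hI2 : ∫ ω, F2.indicator (fun _ => (1:ℝ)) ω ∂(iid μ) = (iid μ).real F2 := by
      rw [integral_indicator hF2m, setIntegral_const, smul_eq_mul, mul_one]
    have hi1 : Integrable (fun ω => (G + Λ) * F1.indicator (fun _ => (1:ℝ)) ω) (iid μ) :=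
      ((integrable_const _).indicator hF1m).const_mul _
    have hi2 : Integrable (fun ω => Γ * F2.indicator (fun _ => (1:ℝ)) ω) (iid μ) :=
      ((integrable_const _).indicator hF2m).const_mul _
    have e1 : ∫ ω, (A1 K ℓ (XX f ε ω) + (G - (G + Λ) * F1.indicator (fun _ => (1:ℝ)) ω -
      Γ * F2.indicator (fun _ => (1:ℝ)) ω)) ∂(iid μ) = ∫ ω, A1 K ℓ (XX f ε ω) ∂(iid μ) +
      ∫ ω, (G - (G + Λ) * F1.indicator (fun _ => (1:ℝ)) ω -
      Γ * F2.indicator (fun _ => (1:ℝ)) ω) ∂(iid μ) :=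
      integral_add (integrable_A1 μ K ℓ hfi ε) (((integrable_const G).sub hi1).sub hi2)
    have e2 : ∫ ω, (G - (G + Λ) * F1.indicator (fun _ => (1:ℝ)) ω -
      Γ * F2.indicator (fun _ => (1:ℝ)) ω) ∂(iid μ) =
      ∫ ω, (G - (G + Λ) * F1.indicator (fun _ => (1:ℝ)) ω) ∂(iid μ) -
      ∫ ω, Γ * F2.indicator (fun _ => (1:ℝ)) ω ∂(iid μ) :=
      integral_sub ((integrable_const G).sub hi1) hi2
    have e3 : ∫ ω, (G - (G + Λ) * F1.indicator (fun _ => (1:ℝ)) ω) ∂(iid μ) =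
      ∫ ω, G ∂(iid μ) - ∫ ω, (G + Λ) * F1.indicator (fun _ => (1:ℝ)) ω ∂(iid μ) :=
      integral_sub (integrable_const G) hi1
    rw [e1, e2, e3, integral_const_mul, integral_const_mul, hI1, hI2]
    simp only [integral_const, probReal_univ, smul_eq_mul, one_mul]
    have hP1 := Fail_prob μ hWm hf ℓ w k0 (κ + 1) hWd hk0 q
      (fun k hk hk2 => hq k hk (by omega)) (fun k hk hk2 => hq1 k hk (by omega))
    have hP2 := Fail_prob μ hWm hf ℓ w k0 (2 * κ + 1) hWd hk0 q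
      (fun k hk hk2 => hq k hk (by omega)) (fun k hk hk2 => hq1 k hk (by omega))
    have hm1 := mul_le_mul_of_nonneg_left hP1 hGΛ
    have hm2 := mul_le_mul_of_nonneg_left hP2 hΓ
    have hA1 := integral_A1_ge μ K ℓ hℓ hfi ε Cm hCm
    linarith

end Pool.Agent.H95.Cop
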