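import Mathlib
import Pool.Agent.H95.Cop.MainGrowth

open MeasureTheory ProbabilityTheory Filter Topology
open scoped ENNReal

namespace Pool.Agent.H95.Cop

open Pool.Agent.H95

lemma prod_bound (c : ℝ) (hc0 : 0 < c) (hc1 : c ≤ 1) (k0 n : ℕ) (hn : k0 ≤ n) :
    ∏ k ∈ Finset.Ico k0 n, (1 - c / ((k : ℝ) + 4)) ≤ (((k0 : ℝ) + 4) / ((n : ℝ) + 4)) ^ c := by
  induction n, hn using Nat.le_induction with
  | base =>
    simp only [Finset.Ico_self, Finset.prod_empty]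
    have : ((k0 : ℝ) + 4) / ((k0 : ℝ) + 4) = 1 := div_self (by positivity)
    rw [this, Real.one_rpow]
  | succ n hn ih =>
    rw [Finset.prod_Ico_succ_top hn]
    have hn4 : (0:ℝ) < (n:ℝ) + 4 := by positivity
    have hn5 : (0:ℝ) < (n:ℝ) + 1 + 4 := by positivity
    have h1 : (((k0 : ℝ) + 4) / (((n + 1 : ℕ) : ℝ) + 4)) ^ c =
        (((k0 : ℝ) + 4) / ((n : ℝ) + 4)) ^ c * (((n : ℝ) + 4) / ((n : ℝ) + 1 + 4)) ^ c := by
      rw [← Real.mul_rpow (by positivity) (by positivity)]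
      congr 1
      push_cast
      field_simp
    rw [h1]
    have hle1 : c / ((n : ℝ) + 4) ≤ 1 := by
      rw [div_le_one hn4]; linarith [Nat.cast_nonneg (α := ℝ) n]
    apply mul_le_mul ih _ (by linarith) (by positivity)
    have h2 : (1 + 1 / ((n : ℝ) + 4)) ^ c ≤ 1 + c * (1 / ((n : ℝ) + 4)) :=
      rpow_one_add_le_one_add_mul_self (by
        have : 0 ≤ 1 / ((n : ℝ) + 4) := by positivity
        linarith) hc0.le hc1
    have h3 : (((n : ℝ) + 4) / ((n : ℝ) + 1 + 4)) ^ c = ((1 + 1 / ((n : ℝ) + 4)) ^ c)⁻¹ := by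
      rw [← Real.inv_rpow (by positivity)]
      congr 1
      field_simp
      ring
    rw [h3]
    have h4 : 0 < (1 + 1 / ((n : ℝ) + 4)) ^ c := by positivity
    have h5 : (1 + c * (1 / ((n : ℝ) + 4)))⁻¹ ≤ ((1 + 1 / ((n : ℝ) + 4)) ^ c)⁻¹ :=
      inv_anti₀ h4 h2
    refine le_trans ?_ h5
    have e : c * (1 / ((n : ℝ) + 4)) = c / ((n:ℝ) + 4) := by ring
    have hx : 0 < c / ((n:ℝ) + 4) := by positivity
    rw [e, inv_eq_one_div, le_div_iff₀ (by positivity)]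
    nlinarith [sq_nonneg (c / ((n:ℝ) + 4))]

lemma tendsto_aux1 (c : ℝ) (hc : 0 < c) (a b : ℝ) :
    Tendsto (fun x : ℝ => (a + b * Real.log x) * x ^ (-c)) atTop (𝓝 0) := by
  have h1 : Tendsto (fun x : ℝ => x ^ (-c)) atTop (𝓝 0) := tendsto_rpow_neg_atTop hc
  have h2 : Tendsto (fun x : ℝ => Real.log x / x ^ c) atTop (𝓝 0) :=
    (isLittleO_log_rpow_atTop hc).tendsto_div_nhds_zero
  have h3 : Tendsto (fun x : ℝ => a * x ^ (-c) + b * (Real.log x / x ^ c)) atTop (𝓝 (a * 0 + b * 0)) :=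
    (h1.const_mul a).add (h2.const_mul b)
  rw [mul_zero, mul_zero, add_zero] at h3
  refine h3.congr' ?_
  filter_upwards [eventually_gt_atTop 0] with x hx
  rw [Real.rpow_neg hx.le]
  field_simp

lemma exists_kappa (c : ℝ) (hc0 : 0 < c) (hc1 : c ≤ 1) (k0 kmin : ℕ) (A B E : ℝ) (hA : 0 ≤ A)
    (hB : 0 ≤ B) :
    ∃ κ : ℕ, kmin ≤ κ ∧ k0 ≤ κ ∧
      (A + B * Real.log (16 * (2 * (κ : ℝ) + 4))) *
        ∏ k ∈ Finset.Ico k0 (κ + 1), (1 - c / ((k : ℝ) + 4)) +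
      (B * Real.log ((2 ^ (2 * κ + 1 + 1) : ℕ)) + E) * (5 / 6 : ℝ) ^ κ ≤ 1 := by
  -- first term
  have t1 : Tendsto (fun κ : ℕ => ((k0 : ℝ) + 4) ^ c *
      (((A + B * Real.log 32) + B * Real.log ((κ : ℝ) + 5)) * ((κ : ℝ) + 5) ^ (-c))) atTop (𝓝 0) := by
    have h1 := tendsto_aux1 c hc0 (A + B * Real.log 32) B
    have h2 : Tendsto (fun κ : ℕ => (κ : ℝ) + 5) atTop atTop :=
      tendsto_atTop_add_const_right _ _ tendsto_natCast_atTop_atTop
    have h3 := (h1.comp h2).const_mul (((k0 : ℝ) + 4) ^ c)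
    rw [mul_zero] at h3
    exact h3
  have t2 : Tendsto (fun κ : ℕ => (B * Real.log ((2 ^ (2 * κ + 1 + 1) : ℕ)) + E) * (5 / 6 : ℝ) ^ κ)
      atTop (𝓝 0) := by
    have h1 : Tendsto (fun κ : ℕ => (κ : ℝ) * (5 / 6 : ℝ) ^ κ) atTop (𝓝 0) :=
      tendsto_self_mul_const_pow_of_abs_lt_one (by rw [abs_of_pos] <;> norm_num)
    have h2 : Tendsto (fun κ : ℕ => (5 / 6 : ℝ) ^ κ) atTop (𝓝 0) :=
      tendsto_pow_atTop_nhds_zero_of_lt_one (by norm_num) (by norm_num)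
    have h3 := (h1.const_mul (2 * B * Real.log 2)).add (h2.const_mul (2 * B * Real.log 2 + E))
    rw [mul_zero, mul_zero, add_zero] at h3
    refine h3.congr (fun κ => ?_)
    push_cast
    rw [Real.log_pow]
    push_cast
    ring
  have t3 := t1.add t2
  rw [add_zero] at t3
  have hev := t3.eventually (ge_mem_nhds (show (0:ℝ) < 1 by norm_num))
  obtain ⟨κ, h1, h2, h3⟩ := (hev.and ((eventually_ge_atTop kmin).and (eventually_ge_atTop k0))).exists
  refine ⟨κ, h2, h3, ?_⟩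
  refine le_trans (add_le_add_left ?_ _) h1
  have hκ5 : (0:ℝ) < (κ:ℝ) + 5 := by positivity
  have hpb := prod_bound c hc0 hc1 k0 (κ + 1) (by omega)
  have hlog : Real.log (16 * (2 * (κ : ℝ) + 4)) ≤ Real.log 32 + Real.log ((κ : ℝ) + 5) := by
    rw [← Real.log_mul (by norm_num) hκ5.ne']
    apply Real.log_le_log (by positivity)
    linarith
  have hlog0 : 0 ≤ Real.log (16 * (2 * (κ : ℝ) + 4)) := by
    apply Real.log_nonneg
    have : (0:ℝ) ≤ κ := Nat.cast_nonneg κ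
    linarith
  have hprod0 : 0 ≤ ∏ k ∈ Finset.Ico k0 (κ + 1), (1 - c / ((k : ℝ) + 4)) := by
    apply Finset.prod_nonneg
    intro k _
    have : c / ((k : ℝ) + 4) ≤ 1 := by
      rw [div_le_one (by positivity)]
      have : (0:ℝ) ≤ k := Nat.cast_nonneg k
      linarith
    linarith
  have e1 : (((k0 : ℝ) + 4) / (((κ + 1 : ℕ) : ℝ) + 4)) ^ c = ((k0 : ℝ) + 4) ^ c * ((κ : ℝ) + 5) ^ (-c) := by
    rw [Real.div_rpow (by positivity) (by positivity), Real.rpow_neg hκ5.le, div_eq_mul_inv]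
    congr 3
    push_cast; ring
  rw [e1] at hpb
  have hA1 : 0 ≤ A + B * Real.log (16 * (2 * (κ : ℝ) + 4)) := by positivity
  calc (A + B * Real.log (16 * (2 * (κ : ℝ) + 4))) *
        ∏ k ∈ Finset.Ico k0 (κ + 1), (1 - c / ((k : ℝ) + 4))
      ≤ (A + B * Real.log (16 * (2 * (κ : ℝ) + 4))) * (((k0 : ℝ) + 4) ^ c * ((κ : ℝ) + 5) ^ (-c)) :=
        mul_le_mul_of_nonneg_left hpb hA1
    _ ≤ (A + B * (Real.log 32 + Real.log ((κ : ℝ) + 5))) *
        (((k0 : ℝ) + 4) ^ c * ((κ : ℝ) + 5) ^ (-c)) := by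
        apply mul_le_mul_of_nonneg_right _ (by positivity)
        have := mul_le_mul_of_nonneg_left hlog hB
        linarith
    _ = _ := by ring

end Pool.Agent.H95.Cop
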