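import Mathlib
import Pool.Agent.H95.Cop.Params

open MeasureTheory ProbabilityTheory Filter Topology
open scoped ENNReal

namespace Pool.Agent.H95.Cop

open Pool.Agent.H95

lemma two_pow_aux (k : ℕ) (hk : 4 ≤ k) : 2 * (k + 3) ≤ 2 ^ k := by
  induction k, hk using Nat.le_induction with
  | base => norm_num
  | succ n hn ih => rw [pow_succ]; omega

lemma Suc_lower (μ : Measure ℝ) [IsProbabilityMeasure μ] {f : ℝ → ℝ} (hf : Measurable f) (γ : ℝ)
    (hγ : 0 < γ) (hi1 : Integrable (fun z => Real.exp (γ * f z)) μ)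
    (h1 : ∫ z, Real.exp (γ * f z) ∂μ = 1)
    (hi2 : Integrable (fun z => Real.exp (γ / 2 * f z)) μ) (ℓ : ℕ) (w : ℝ) (hw : 0 < w) (k : ℕ)
    (hk : 4 ≤ k)
    (Win : Set (ℕ → ℝ)) (hWm : MeasurableSet Win) (hWd : DepLt (3 * ℓ) (fun ω => ω ∈ Win))
    (hW : 1 / 2 ≤ (iid μ).real Win) (hρ : (∫ z, Real.exp (γ / 2 * f z) ∂μ) ^ ℓ ≤ 1 / 8)
    (hwk : Real.exp (γ / 2 * w) * (1 / 8 : ℝ) ^ k ≤ 1 / 7)
    (hκ : ((k * ℓ : ℕ) : ℝ) * ∫ z, ({z : ℝ | 1 < f z}).indicator (fun z => Real.exp (γ * f z)) z ∂μ ≤ 1 / 7)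
    (a : ℝ) (ha0 : 0 ≤ a) (ha : a ≤ 2 ^ k / 8 * Real.exp (-(γ * (w + 1)))) :
    a / (2 + 4 * a) ≤ (iid μ).real (Suc Win f ℓ w k (2 ^ k - k - 3)) := by
  set ρ := (∫ z, Real.exp (γ / 2 * f z) ∂μ) ^ ℓ with hρdef
  have hρ0 : 0 ≤ ρ := by
    have : 0 ≤ ∫ z, Real.exp (γ / 2 * f z) ∂μ := integral_nonneg (fun z => (Real.exp_pos _).le)
    positivity
  have hPS := PS_lower μ hf γ hγ hi1 h1 hi2 ℓ w hw k
  rw [← hρdef] at hPS
  have hg := geom_small ρ hρ0 hρ k
  have h2 : Real.exp (γ / 2 * w) * ρ ^ k ≤ 1 / 7 := by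
    refine le_trans ?_ hwk
    exact mul_le_mul_of_nonneg_left (pow_le_pow_left₀ hρ0 hρ k) (Real.exp_pos _).le
  have hE := Real.exp_pos (-(γ * (w + 1)))
  have hPSl : 1 / 2 * Real.exp (-(γ * (w + 1))) ≤ (iid μ).real (PS f ℓ w k) := by
    refine le_trans ?_ hPS
    rw [mul_comm]
    apply mul_le_mul_of_nonneg_left _ hE.le
    linarith
  have hM : (2:ℝ) ^ k / 2 ≤ ((2 ^ k - k - 3 : ℕ) : ℝ) := by
    have h3 := two_pow_aux k hk
    have h4 : 2 ^ k ≤ 2 * (2 ^ k - k - 3) := by omega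
    have h5 : ((2 ^ k : ℕ) : ℝ) ≤ ((2 * (2 ^ k - k - 3) : ℕ) : ℝ) := by exact_mod_cast h4
    push_cast at h5
    linarith
  apply Suc_prob μ hf γ hγ hi2 ℓ w k _ Win hWm hWd hW hρ a ha0
  refine ha.trans ?_
  calc 2 ^ k / 8 * Real.exp (-(γ * (w + 1)))
      = (2 ^ k / 2) * ((1 / 2) * (1 / 2 * Real.exp (-(γ * (w + 1))))) := by ring
    _ ≤ _ := by
      apply mul_le_mul hM _ (by positivity) (Nat.cast_nonneg _)
      exact mul_le_mul hW hPSl (by positivity) measureReal_nonneg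

set_option maxHeartbeats 2000000 in
theorem exists_scale (α γ : ℝ) (hα : 0 < α) (hγα : γ * (1 + α) = 1) (c12 : ℝ) (hc12 : 0 < c12)
    (hc12' : c12 ≤ 1) (Oc Cm : ℝ) (hOc : 0 ≤ Oc) (hCm0 : 0 ≤ Cm) :
    ∃ κ : ℕ, 1 ≤ κ ∧ ∀ (μ : Measure ℝ) [IsProbabilityMeasure μ] (K : PMF ℕ) (_hK0 : K 0 = 0)
      (c1 c2 : ℝ) (_hc1 : 0 < c1) (_hc2 : 0 < c2) (_hc : c1 * c2 / 2 = c12)
      (ℓ : ℕ) (_hℓ : 1 ≤ ℓ) (_hUU : c1 * (ℓ : ℝ) ^ α ≤ UU K ℓ) (n0 : ℕ) (_hn0 : n0 ≤ ℓ)
      (_hlow : ∀ n : ℕ, n0 ≤ n → c2 * (n : ℝ) ^ (-(1 + α)) ≤ kk K n)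
      (f : ℝ → ℝ) (_hf : Measurable f) (_hfi : Integrable f μ) (ε : ℝ) (_hε : 0 ≤ ε)
      (_hi1 : Integrable (fun z => Real.exp (γ * f z)) μ)
      (_h1 : ∫ z, Real.exp (γ * f z) ∂μ = 1)
      (_hi2 : Integrable (fun z => Real.exp (γ / 2 * f z)) μ)
      (_hρ : (∫ z, Real.exp (γ / 2 * f z) ∂μ) ^ ℓ ≤ 1 / 8)
      (_hCm : ℓ * |∫ z, f z ∂μ - ε| ≤ Cm)
      (Win : Set (ℕ → ℝ)) (_hWm : MeasurableSet Win) (_hWd : DepLt (3 * ℓ) (fun ω => ω ∈ Win))
      (_hWin : ∀ ω ∈ Win, -Oc ≤ A2 K ℓ (XX f ε ω)) (_hW : 1 / 2 ≤ (iid μ).real Win)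
      (_hκ : ((2 * κ * ℓ : ℕ) : ℝ) *
        ∫ z, ({z : ℝ | 1 < f z}).indicator (fun z => Real.exp (γ * f z)) z ∂μ ≤ 1 / 7)
      (_hεκ : ε * ((2 * κ * ℓ : ℕ) : ℝ) ≤ 1),
      ∃ C : ℝ, ∀ R : ℕ, (R : ℝ) / ((2 ^ (2 * κ + 1) * ℓ : ℕ) : ℝ) - C ≤
        ∫ ω, qq K ℓ R (XX f ε ω) ∂(iid μ) := by
  have hγ : 0 < γ := by
    by_contra h
    push Not at h
    nlinarith
  have hγ1 : γ ≤ 1 := by nlinarith
  have hlogc : Real.log c12 ≤ 0 := Real.log_nonpos hc12.le hc12'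
  set B0 : ℝ := Oc + 1 - 2 * Real.log c12 with hB0
  have hB01 : 1 ≤ B0 := by rw [hB0]; linarith
  set G : ℝ := 3 / 2 * Cm + 2 with hG
  have hG0 : 0 ≤ G := by positivity
  set c : ℝ := Real.exp (-(γ * (1 + B0 + G))) / 96 with hc
  have hc0 : 0 < c := by positivity
  have hcle : c ≤ 1 := by
    rw [hc, div_le_one (by norm_num)]
    have : Real.exp (-(γ * (1 + B0 + G))) ≤ 1 := by
      rw [Real.exp_le_one_iff]
      have : 0 ≤ γ * (1 + B0 + G) := by positivity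
      linarith
    linarith
  -- choice of k0
  have hk0ex : ∀ᶠ k : ℕ in atTop, 2 * Real.exp (γ / 2 * (B0 + G)) * (((k:ℝ) + 4) * (1 / 4 : ℝ) ^ k) ≤ 1 / 7 := by
    have t1 : Tendsto (fun k : ℕ => (k : ℝ) * (1 / 4 : ℝ) ^ k) atTop (𝓝 0) :=
      tendsto_self_mul_const_pow_of_abs_lt_one (by rw [abs_of_pos] <;> norm_num)
    have t2 : Tendsto (fun k : ℕ => (1 / 4 : ℝ) ^ k) atTop (𝓝 0) :=
      tendsto_pow_atTop_nhds_zero_of_lt_one (by norm_num) (by norm_num)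
    have t3 := (t1.add (t2.const_mul 4)).const_mul (2 * Real.exp (γ / 2 * (B0 + G)))
    rw [mul_zero, add_zero, mul_zero] at t3
    have t4 := t3.eventually (ge_mem_nhds (show (0:ℝ) < 1 / 7 by norm_num))
    filter_upwards [t4] with k hk
    refine le_trans (le_of_eq ?_) hk
    ring
  obtain ⟨k1, hk1⟩ := eventually_atTop.mp hk0ex
  set k0 := max k1 4 with hk0
  obtain ⟨κ, hκ6, hκk0, hκnum⟩ := exists_kappa c hc0 hcle k0 6 (G + 1 + B0) (1 + α) (-Real.log c12)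
    (by linarith) (by linarith)
  refine ⟨κ, by omega, ?_⟩
  intro μ _ K hK0 c1 c2 hc1 hc2 hcc ℓ hℓ hUU n0 hn0 hlow f hf hfi ε hε hi1 h1 hi2 hρ hCm Win hWm hWd
    hWin hW hκμ hεκ
  set Λ : ℝ := (1 + α) * Real.log (16 * (2 * (κ : ℝ) + 4)) + 1 + B0 with hΛ
  set Γ : ℝ := (1 + α) * Real.log ((2 ^ (2 * κ + 1 + 1) : ℕ)) - Real.log c12 with hΓ
  have hκ0 : (0:ℝ) ≤ κ := Nat.cast_nonneg κ
  have hlog16 : 0 ≤ Real.log (16 * (2 * (κ : ℝ) + 4)) := Real.log_nonneg (by linarith)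
  have hΛ0 : 0 ≤ Λ := by positivity
  have hlog2 : 0 ≤ Real.log ((2 ^ (2 * κ + 1 + 1) : ℕ)) := Real.log_natCast_nonneg _
  have hΓ0 : 0 ≤ Γ := by
    rw [hΓ]
    have : 0 ≤ (1 + α) * Real.log ((2 ^ (2 * κ + 1 + 1) : ℕ)) := by positivity
    linarith
  set w : ℕ → ℝ := fun k => Oc + 1 - 2 * Real.log (c1 * c2 / 2) +
      (1 + α) * (Real.log ((2 ^ (k + 1) : ℕ)) + Real.log ((k + 4 : ℕ))) + (if k ≤ κ then G else -Λ)
    with hw
  set q : ℕ → ℝ := fun k => if k ≤ κ then c / ((k : ℝ) + 4) else 1 / 6 with hq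
  have hwval : ∀ k, w k = B0 + (1 + α) * (Real.log ((2 ^ (k + 1) : ℕ)) + Real.log ((k + 4 : ℕ))) +
      (if k ≤ κ then G else -Λ) := by
    intro k; simp only [hw]; rw [hcc]
  have hkappa_int : 0 ≤ ∫ z, ({z : ℝ | 1 < f z}).indicator (fun z => Real.exp (γ * f z)) z ∂μ :=
    integral_nonneg (fun z => Set.indicator_nonneg (fun _ _ => (Real.exp_pos _).le) _)
  refine main_growth μ K hK0 α hα c1 c2 hc1 hc2 ℓ hℓ hUU n0 hn0 hlow f hf hfi ε hε Cm hCm Oc Win hWm hWd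
    hWin G Λ Γ hG (by linarith) hΓ0 k0 κ (by omega) (fun k hk => by
      have := two_pow_aux k (by omega)
      omega) (by omega) w (fun k => rfl) q ?_ ?_ ?_ ?_ hεκ
  · -- success probabilities
    intro k hk hk2
    have hk4 : 4 ≤ k := by omega
    have hkk1 : k1 ≤ k := by omega
    have hL1 : (0:ℝ) < ((2 ^ (k + 1) : ℕ) : ℝ) := by positivity
    have hL2 : (0:ℝ) < ((k + 4 : ℕ) : ℝ) := by positivity
    have hl1 : 0 ≤ Real.log ((2 ^ (k + 1) : ℕ)) := Real.log_natCast_nonneg _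
    have hl2 : 0 ≤ Real.log ((k + 4 : ℕ)) := Real.log_natCast_nonneg _
    set g : ℝ := if k ≤ κ then G else -Λ with hg
    have hgG : g ≤ G := by
      rw [hg]; split_ifs
      · exact le_rfl
      · linarith
    have hkκμ : ((k * ℓ : ℕ) : ℝ) *
        ∫ z, ({z : ℝ | 1 < f z}).indicator (fun z => Real.exp (γ * f z)) z ∂μ ≤ 1 / 7 := by
      refine le_trans ?_ hκμ
      apply mul_le_mul_of_nonneg_right _ hkappa_int
      exact_mod_cast Nat.mul_le_mul_right ℓ hk2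
    have hprodlog : Real.log ((2 ^ (k + 1) : ℕ)) + Real.log ((k + 4 : ℕ)) =
        Real.log (((2 ^ (k + 1) : ℕ) : ℝ) * ((k + 4 : ℕ) : ℝ)) := by
      rw [Real.log_mul hL1.ne' hL2.ne']
    -- w k > 0
    have hwpos : 0 < w k := by
      rw [hwval k]
      by_cases hkκ : k ≤ κ
      · rw [if_pos hkκ]
        have : 0 ≤ (1 + α) * (Real.log ((2 ^ (k + 1) : ℕ)) + Real.log ((k + 4 : ℕ))) := by positivity
        linarith
      · rw [if_neg hkκ]
        push Not at hkκ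
        have h2 : Real.log (16 * (2 * (κ : ℝ) + 4)) + 2 ≤
            Real.log ((2 ^ (k + 1) : ℕ)) + Real.log ((k + 4 : ℕ)) := by
          rw [hprodlog]
          have h3 : (2:ℝ) ≤ Real.log 8 := by
            have := Real.log_two_gt_d9
            have e : (8:ℝ) = 2 ^ 3 := by norm_num
            rw [e, Real.log_pow]
            push_cast
            linarith
          have h4 : Real.log (16 * (2 * (κ : ℝ) + 4)) + Real.log 8 =
              Real.log ((16 * (2 * (κ : ℝ) + 4)) * 8) := by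
            have hne : (16 * (2 * (κ : ℝ) + 4)) ≠ 0 := by positivity
            rw [Real.log_mul hne (show (8:ℝ) ≠ 0 by norm_num)]
          have h5 : Real.log ((16 * (2 * (κ : ℝ) + 4)) * 8) ≤
              Real.log (((2 ^ (k + 1) : ℕ) : ℝ) * ((k + 4 : ℕ) : ℝ)) := by
            apply Real.log_le_log (by positivity)
            have h6 : (256 : ℝ) ≤ ((2 ^ (k + 1) : ℕ) : ℝ) := by
              have : 2 ^ 8 ≤ 2 ^ (k + 1) := Nat.pow_le_pow_right (by norm_num) (by omega)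
              exact_mod_cast this
            have h7 : (κ : ℝ) + 5 ≤ ((k + 4 : ℕ) : ℝ) := by
              have : κ + 5 ≤ k + 4 := by omega
              exact_mod_cast this
            calc 16 * (2 * (κ : ℝ) + 4) * 8 ≤ 256 * ((κ : ℝ) + 5) := by linarith
              _ ≤ _ := mul_le_mul h6 h7 (by positivity) (by positivity)
          linarith
        have h8 : (1 + α) * (Real.log (16 * (2 * (κ : ℝ) + 4)) + 2) ≤
            (1 + α) * (Real.log ((2 ^ (k + 1) : ℕ)) + Real.log ((k + 4 : ℕ))) :=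
          mul_le_mul_of_nonneg_left h2 (by linarith)
        have h9 : (1 + α) * (Real.log (16 * (2 * (κ : ℝ) + 4)) + 2) =
            (1 + α) * Real.log (16 * (2 * (κ : ℝ) + 4)) + 2 * (1 + α) := by ring
        rw [hΛ]
        linarith
    -- exponential bound
    have hwk : Real.exp (γ / 2 * w k) * (1 / 8 : ℝ) ^ k ≤ 1 / 7 := by
      refine le_trans ?_ (hk1 k hkk1)
      have h2 : γ / 2 * w k ≤ γ / 2 * (B0 + G) +
          (Real.log ((2 ^ (k + 1) : ℕ)) + Real.log ((k + 4 : ℕ))) := by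
        rw [hwval k]
        have h3 : γ / 2 * (B0 + (1 + α) * (Real.log ((2 ^ (k + 1) : ℕ)) + Real.log ((k + 4 : ℕ))) + g) =
            γ / 2 * (B0 + g) + (γ * (1 + α)) / 2 * (Real.log ((2 ^ (k + 1) : ℕ)) +
            Real.log ((k + 4 : ℕ))) := by ring
        rw [h3, hγα]
        have h4 : γ / 2 * (B0 + g) ≤ γ / 2 * (B0 + G) :=
          mul_le_mul_of_nonneg_left (by linarith) (by positivity)
        linarith
      have h5 : Real.exp (γ / 2 * w k) ≤ Real.exp (γ / 2 * (B0 + G)) *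
          (((2 ^ (k + 1) : ℕ) : ℝ) * ((k + 4 : ℕ) : ℝ)) := by
        refine (Real.exp_le_exp.mpr h2).trans (le_of_eq ?_)
        rw [hprodlog, Real.exp_add, Real.exp_log (by positivity)]
      calc Real.exp (γ / 2 * w k) * (1 / 8 : ℝ) ^ k
          ≤ (Real.exp (γ / 2 * (B0 + G)) * (((2 ^ (k + 1) : ℕ) : ℝ) * ((k + 4 : ℕ) : ℝ))) *
            (1 / 8 : ℝ) ^ k := mul_le_mul_of_nonneg_right h5 (by positivity)
        _ = 2 * Real.exp (γ / 2 * (B0 + G)) * (((k:ℝ) + 4) * ((2:ℝ) ^ k * (1 / 8 : ℝ) ^ k)) := by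
            push_cast; ring
        _ = 2 * Real.exp (γ / 2 * (B0 + G)) * (((k:ℝ) + 4) * (1 / 4 : ℝ) ^ k) := by
            rw [← mul_pow]; norm_num
    -- value of the exponential
    have hval : 2 ^ k / 8 * Real.exp (-(γ * (w k + 1))) =
        Real.exp (-(γ * (1 + B0 + g))) / (16 * ((k:ℝ) + 4)) := by
      have h2 : γ * (w k + 1) = γ * (1 + B0 + g) +
          Real.log (((2 ^ (k + 1) : ℕ) : ℝ) * ((k + 4 : ℕ) : ℝ)) := by
        rw [hwval k, ← hprodlog]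
        have : γ * (B0 + (1 + α) * (Real.log ((2 ^ (k + 1) : ℕ)) + Real.log ((k + 4 : ℕ))) + g + 1) =
            γ * (1 + B0 + g) + (γ * (1 + α)) * (Real.log ((2 ^ (k + 1) : ℕ)) +
            Real.log ((k + 4 : ℕ))) := by ring
        rw [this, hγα, one_mul]
      rw [h2, neg_add, Real.exp_add, Real.exp_neg (Real.log _), Real.exp_log (by positivity)]
      push_cast
      rw [pow_succ]
      field_simp
      norm_num
    have hmain := Suc_lower μ hf γ hγ hi1 h1 hi2 ℓ (w k) hwpos k hk4 Win hWm hWd hW hρ hwk hkκμ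
    by_cases hkκ : k ≤ κ
    · have h2 := hmain (6 * c / ((k:ℝ) + 4)) (by positivity) (by
        rw [hval, hg, if_pos hkκ, hc]
        apply le_of_eq
        field_simp
        norm_num)
      refine le_trans ?_ h2
      simp only [hq, if_pos hkκ]
      have hk0' : (0:ℝ) < (k:ℝ) + 4 := by positivity
      have h3 : 6 * c / ((k:ℝ) + 4) ≤ 1 := by
        rw [div_le_one hk0']
        have : c ≤ 1 / 96 := by
          rw [hc]
          apply div_le_div_of_nonneg_right _ (by norm_num)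
          rw [Real.exp_le_one_iff]
          have : 0 ≤ γ * (1 + B0 + G) := by positivity
          linarith
        have : (0:ℝ) ≤ k := Nat.cast_nonneg k
        linarith
      rw [le_div_iff₀ (by positivity)]
      have h4 : 0 < c / ((k:ℝ) + 4) := by positivity
      have e : 6 * c / ((k:ℝ) + 4) = 6 * (c / ((k:ℝ) + 4)) := by ring
      rw [e] at h3 ⊢
      calc c / ((k:ℝ) + 4) * (2 + 4 * (6 * (c / ((k:ℝ) + 4)))) ≤ c / ((k:ℝ) + 4) * 6 :=
            mul_le_mul_of_nonneg_left (by linarith) h4.le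
        _ = _ := by ring
    · have h2 := hmain 1 (by norm_num) (by
        rw [hval, hg, if_neg hkκ]
        have h3 : -(γ * (1 + B0 + -Λ)) = Real.log (16 * (2 * (κ : ℝ) + 4)) := by
          rw [hΛ]
          have : -(γ * (1 + B0 + -((1 + α) * Real.log (16 * (2 * (κ : ℝ) + 4)) + 1 + B0))) =
            (γ * (1 + α)) * Real.log (16 * (2 * (κ : ℝ) + 4)) := by ring
          rw [this, hγα, one_mul]
        rw [h3, Real.exp_log (by positivity), le_div_iff₀ (by positivity)]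
        have : (k:ℝ) ≤ 2 * κ := by exact_mod_cast hk2
        linarith)
      refine le_trans ?_ h2
      simp only [hq, if_neg hkκ]
      norm_num
  · intro k _ _
    simp only [hq]
    split_ifs
    · rw [div_le_one (by positivity)]
      have : (0:ℝ) ≤ k := Nat.cast_nonneg k
      linarith
    · norm_num
  · -- numeric inequality
    have hP1 : ∏ k ∈ Finset.Ico k0 (κ + 1), (1 - q k) = ∏ k ∈ Finset.Ico k0 (κ + 1), (1 - c / ((k : ℝ) + 4)) := by
      apply Finset.prod_congr rfl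
      intro k hk
      rw [Finset.mem_Ico] at hk
      simp only [hq]
      rw [if_pos (by omega)]
    have hfac : ∀ k : ℕ, 0 ≤ 1 - c / ((k : ℝ) + 4) ∧ 1 - c / ((k : ℝ) + 4) ≤ 1 := by
      intro k
      have h2 : c / ((k : ℝ) + 4) ≤ 1 := by
        rw [div_le_one (by positivity)]
        have : (0:ℝ) ≤ k := Nat.cast_nonneg k
        linarith
      have h3 : 0 ≤ c / ((k : ℝ) + 4) := by positivity
      constructor <;> linarith
    have hP2 : ∏ k ∈ Finset.Ico k0 (2 * κ + 1), (1 - q k) ≤ (5 / 6 : ℝ) ^ κ := by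
      rw [← Finset.prod_Ico_consecutive _ (show k0 ≤ κ + 1 by omega) (show κ + 1 ≤ 2 * κ + 1 by omega),
        hP1]
      have h2 : ∏ k ∈ Finset.Ico (κ + 1) (2 * κ + 1), (1 - q k) = (5 / 6 : ℝ) ^ κ := by
        have : ∀ k ∈ Finset.Ico (κ + 1) (2 * κ + 1), (1 - q k) = 5 / 6 := by
          intro k hk
          rw [Finset.mem_Ico] at hk
          simp only [hq]
          rw [if_neg (by omega)]
          norm_num
        rw [Finset.prod_congr rfl this, Finset.prod_const, Nat.card_Ico]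
        congr 1
        omega
      rw [h2]
      have h3 : ∏ k ∈ Finset.Ico k0 (κ + 1), (1 - c / ((k : ℝ) + 4)) ≤ 1 :=
        Finset.prod_le_one (fun k _ => (hfac k).1) (fun k _ => (hfac k).2)
      have h4 : (0:ℝ) ≤ (5 / 6 : ℝ) ^ κ := by positivity
      exact mul_le_of_le_one_left h4 h3
    rw [hP1]
    refine le_trans ?_ hκnum
    apply add_le_add
    · apply le_of_eq
      congr 1
      rw [hΛ]; ring
    · have e : (1 + α) * Real.log ((2 ^ (2 * κ + 1 + 1) : ℕ)) + -Real.log c12 = Γ := by rw [hΓ]; ring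
      rw [e]
      exact mul_le_mul_of_nonneg_left hP2 hΓ0
  · rw [hcc, hΓ]
    linarith

end Pool.Agent.H95.Cop
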