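import Mathlib
import Pool.Agent.H95.Cop.Asym2
import Pool.Agent.H95.Cop.Scale

open MeasureTheory ProbabilityTheory Filter Topology
open scoped ENNReal

namespace Pool.Agent.H95.Cop

open Pool.Agent.H95

variable (μ : Measure ℝ) [IsProbabilityMeasure μ]

lemma integral_abs_A2_le (K : PMF ℕ) (ℓ : ℕ) (hℓ : 1 ≤ ℓ) {f : ℝ → ℝ} (hfi : Integrable f μ) (ε CH : ℝ)
    (hH : ∀ a n : ℕ, n ≤ 3 * ℓ → ∫ ω, |H (XX f ε ω) a (a + n)| ∂(iid μ) ≤ CH) :
    ∫ ω, |A2 K ℓ (XX f ε ω)| ∂(iid μ) ≤ 3 / 2 * CH := by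
  have hℓ0 : (0:ℝ) < ℓ := by exact_mod_cast hℓ
  have hU := uu_pos_UU K ℓ hℓ
  have hu : ∀ j, 0 ≤ uu (kk K) j / UU K ℓ := fun j => div_nonneg (uu_nonneg _ (kk_nonneg K) j) hU.le
  have hHi : ∀ a b, Integrable (fun ω => |H (XX f ε ω) a b|) (iid μ) :=
    fun a b => (integrable_H μ hfi ε a b).abs
  have hterm : ∀ i j, Integrable (fun ω => uu (kk K) j / UU K ℓ *
      (|H (XX f ε ω) i (i + j)| / 2 + |H (XX f ε ω) (i + j) (3 * ℓ)|)) (iid μ) :=
    fun i j => (((hHi _ _).div_const 2).add (hHi _ _)).const_mul _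
  have h1 : ∫ ω, |A2 K ℓ (XX f ε ω)| ∂(iid μ) ≤ ∫ ω, (1 / (ℓ : ℝ)) * ∑ i ∈ Finset.range ℓ,
      ∑ j ∈ Finset.range ℓ, uu (kk K) j / UU K ℓ *
      (|H (XX f ε ω) i (i + j)| / 2 + |H (XX f ε ω) (i + j) (3 * ℓ)|) ∂(iid μ) := by
    apply integral_mono (integrable_A2 μ K ℓ hfi ε).abs
    · exact (integrable_finsetSum _ (fun i _ => integrable_finsetSum _ (fun j _ => hterm i j))).const_mul _
    · intro ω
      simp only
      unfold A2
      rw [abs_mul, abs_of_pos (show (0:ℝ) < 1 / (ℓ:ℝ) by positivity)]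
      apply mul_le_mul_of_nonneg_left _ (by positivity)
      refine (Finset.abs_sum_le_sum_abs _ _).trans (Finset.sum_le_sum (fun i _ => ?_))
      refine (Finset.abs_sum_le_sum_abs _ _).trans (Finset.sum_le_sum (fun j _ => ?_))
      rw [abs_mul, abs_of_nonneg (hu j)]
      apply mul_le_mul_of_nonneg_left _ (hu j)
      refine (abs_add_le _ _).trans ?_
      rw [abs_div, abs_of_pos (show (0:ℝ) < 2 by norm_num)]
  refine h1.trans ?_
  rw [integral_const_mul, integral_finsetSum _ (fun i _ => integrable_finsetSum _ (fun j _ => hterm i j))]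
  have h2 : ∀ i ∈ Finset.range ℓ, ∫ ω, ∑ j ∈ Finset.range ℓ, uu (kk K) j / UU K ℓ *
      (|H (XX f ε ω) i (i + j)| / 2 + |H (XX f ε ω) (i + j) (3 * ℓ)|) ∂(iid μ) ≤ 3 / 2 * CH := by
    intro i hi
    rw [Finset.mem_range] at hi
    rw [integral_finsetSum _ (fun j _ => hterm i j)]
    calc ∑ j ∈ Finset.range ℓ, ∫ ω, uu (kk K) j / UU K ℓ *
          (|H (XX f ε ω) i (i + j)| / 2 + |H (XX f ε ω) (i + j) (3 * ℓ)|) ∂(iid μ)
        ≤ ∑ j ∈ Finset.range ℓ, uu (kk K) j / UU K ℓ * (3 / 2 * CH) := by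
          apply Finset.sum_le_sum
          intro j hj
          rw [Finset.mem_range] at hj
          rw [integral_const_mul]
          apply mul_le_mul_of_nonneg_left _ (hu j)
          have e : ∫ ω, (|H (XX f ε ω) i (i + j)| / 2 + |H (XX f ε ω) (i + j) (3 * ℓ)|) ∂(iid μ) =
              ∫ ω, |H (XX f ε ω) i (i + j)| / 2 ∂(iid μ) + ∫ ω, |H (XX f ε ω) (i + j) (3 * ℓ)| ∂(iid μ) :=
            integral_add ((hHi _ _).div_const 2) (hHi _ _)
          rw [e, integral_div]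
          have h3 := hH i j (by omega)
          have h4 := hH (i + j) (3 * ℓ - (i + j)) (by omega)
          have e2 : i + j + (3 * ℓ - (i + j)) = 3 * ℓ := by omega
          rw [e2] at h4
          linarith
      _ = 3 / 2 * CH := by rw [← Finset.sum_mul, sum_uu_div K ℓ hℓ, one_mul]
  have h3 := Finset.sum_le_sum h2
  rw [Finset.sum_const, Finset.card_range, nsmul_eq_mul] at h3
  have h4 := mul_le_mul_of_nonneg_left h3 (show (0:ℝ) ≤ 1 / (ℓ:ℝ) by positivity)
  refine h4.trans (le_of_eq ?_)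
  field_simp

lemma A2_dep (K : PMF ℕ) (ℓ : ℕ) (f : ℝ → ℝ) (ε : ℝ) :
    DepLt (3 * ℓ) (fun ω => A2 K ℓ (XX f ε ω)) := by
  intro x x' h
  beta_reduce
  have hH : ∀ a b, b ≤ 3 * ℓ → H (XX f ε x) a b = H (XX f ε x') a b := by
    intro a b hb
    unfold H XX
    apply Finset.sum_congr rfl
    intro i hi
    rw [Finset.mem_Ico] at hi
    rw [h i (by omega)]
  unfold A2
  congr 1
  apply Finset.sum_congr rfl
  intro i hi
  apply Finset.sum_congr rfl
  intro j hj
  rw [Finset.mem_range] at hi hj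
  rw [hH i (i + j) (by omega), hH (i + j) (3 * ℓ) le_rfl]

lemma measurable_A2 (K : PMF ℕ) (ℓ : ℕ) {f : ℝ → ℝ} (hf : Measurable f) (ε : ℝ) :
    Measurable (fun ω => A2 K ℓ (XX f ε ω)) := by
  have hH : ∀ a b, Measurable (fun ω => H (XX f ε ω) a b) := by
    intro a b
    unfold H
    apply Finset.measurable_sum
    intro i _
    exact (measurable_pi_apply i).comp (measurable_XX hf ε)
  unfold A2
  apply Measurable.const_mul
  apply Finset.measurable_sum
  intro i _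
  apply Finset.measurable_sum
  intro j _
  exact (((hH _ _).div_const 2).add (hH _ _)).const_mul _

lemma win_prob (K : PMF ℕ) (ℓ : ℕ) (hℓ : 1 ≤ ℓ) {f : ℝ → ℝ} (hf : Measurable f) (hfi : Integrable f μ)
    (ε CH : ℝ) (hCH : 0 < CH)
    (hH : ∀ a n : ℕ, n ≤ 3 * ℓ → ∫ ω, |H (XX f ε ω) a (a + n)| ∂(iid μ) ≤ CH) :
    1 / 2 ≤ (iid μ).real {ω | -(3 * CH) ≤ A2 K ℓ (XX f ε ω)} := by
  have h1 := integral_abs_A2_le μ K ℓ hℓ hfi ε CH hH
  have h2 := mul_meas_ge_le_integral_of_nonneg (μ := iid μ) (f := fun ω => |A2 K ℓ (XX f ε ω)|)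
    (Filter.Eventually.of_forall (fun ω => abs_nonneg _)) (integrable_A2 μ K ℓ hfi ε).abs (3 * CH)
  have h3 : (iid μ).real {ω | 3 * CH ≤ |A2 K ℓ (XX f ε ω)|} ≤ 1 / 2 := by
    have h4 : 3 * CH * (iid μ).real {ω | 3 * CH ≤ |A2 K ℓ (XX f ε ω)|} ≤ 3 / 2 * CH := h2.trans h1
    have h5 : 3 * CH * (iid μ).real {ω | 3 * CH ≤ |A2 K ℓ (XX f ε ω)|} ≤ 3 * CH * (1 / 2) := by linarith
    exact le_of_mul_le_mul_left h5 (by positivity)
  have hm : MeasurableSet {ω | -(3 * CH) ≤ A2 K ℓ (XX f ε ω)} :=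
    measurableSet_le measurable_const (measurable_A2 K ℓ hf ε)
  have h6 : (iid μ).real ({ω | -(3 * CH) ≤ A2 K ℓ (XX f ε ω)}ᶜ) ≤ 1 / 2 := by
    refine le_trans (measureReal_mono ?_ (measure_ne_top _ _)) h3
    intro ω hω
    simp only [Set.mem_compl_iff, Set.mem_ofPred_eq, not_le] at hω ⊢
    have := neg_abs_le (A2 K ℓ (XX f ε ω))
    linarith
  rw [measureReal_compl hm] at h6
  simp only [probReal_univ] at h6
  linarith

lemma H_abs_bound (hexp : ∀ t : ℝ, Integrable (fun z => Real.exp (t * z)) μ)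
    (hmean : ∫ z, z ∂μ = 0) (hvar : ∫ z, z ^ 2 ∂μ = 1) (γ lam ε : ℝ) (hγ : 0 < γ) (hlam : 0 < lam)
    (hε : 0 ≤ ε) (a n : ℕ) :
    ∫ ω, |H (XX (fs μ γ lam) ε ω) a (a + n)| ∂(iid μ) ≤
      2 * lam * Real.sqrt n + n * (2 * lam * h0 μ γ lam + ε) := by
  have hh0 := h0_nonneg μ hexp hmean γ lam hγ hlam
  obtain ⟨i1, _, _, _⟩ := integral_S_sq μ hexp hmean hvar n
  have hS : ∀ ω, S (fs μ γ lam) n ω = -2 * lam * S (fun z => z) n ω - n * (2 * lam * h0 μ γ lam) := by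
    intro ω
    unfold S fs
    rw [← Finset.mul_sum, Finset.sum_add_distrib, Finset.sum_const, Finset.card_range, nsmul_eq_mul]
    ring
  have h1 : ∀ ω, |H (XX (fs μ γ lam) ε ω) a (a + n)| ≤
      2 * lam * (fun ω' => |S (fun z => z) n ω'|) (shift a ω) + n * (2 * lam * h0 μ γ lam + ε) := by
    intro ω
    rw [H_XX, hS]
    have h2 := abs_le.mp (le_refl |S (fun z => z) n (shift a ω)|)
    have hn : (0:ℝ) ≤ n := Nat.cast_nonneg n
    have h3 : 0 ≤ n * (2 * lam * h0 μ γ lam) := by positivity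
    have h4 : 0 ≤ n * ε := by positivity
    simp only
    rw [abs_le]
    constructor
    · nlinarith [h2.1, h2.2]
    · nlinarith [h2.1, h2.2]
  have hsh : Integrable (fun ω => (fun ω' => |S (fun z => z) n ω'|) (shift a ω)) (iid μ) :=
    integrable_comp_shift μ i1.abs
  calc ∫ ω, |H (XX (fs μ γ lam) ε ω) a (a + n)| ∂(iid μ)
      ≤ ∫ ω, (2 * lam * (fun ω' => |S (fun z => z) n ω'|) (shift a ω) +
          n * (2 * lam * h0 μ γ lam + ε)) ∂(iid μ) := by
        apply integral_mono (integrable_H μ (integrable_fs μ hexp γ lam) ε a (a + n)).abs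
          ((hsh.const_mul _).add (integrable_const _)) h1
    _ = 2 * lam * ∫ ω, |S (fun z => z) n ω| ∂(iid μ) + n * (2 * lam * h0 μ γ lam + ε) := by
        have e1 : ∫ ω, (2 * lam * (fun ω' => |S (fun z => z) n ω'|) (shift a ω) +
          n * (2 * lam * h0 μ γ lam + ε)) ∂(iid μ) =
          ∫ ω, 2 * lam * (fun ω' => |S (fun z => z) n ω'|) (shift a ω) ∂(iid μ) +
          ∫ ω, (n * (2 * lam * h0 μ γ lam + ε)) ∂(iid μ) :=
          integral_add (hsh.const_mul _) (integrable_const _)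
        rw [e1, integral_const_mul, integral_comp_shift μ i1.abs]
        simp only [integral_const, probReal_univ, smul_eq_mul, one_mul]
    _ ≤ _ := by
        have := integral_abs_S μ hexp hmean hvar n
        have := mul_le_mul_of_nonneg_left this (show (0:ℝ) ≤ 2 * lam by positivity)
        linarith

end Pool.Agent.H95.Cop
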