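import Mathlib
import Pool.Agent.H95.Cop.Small

open MeasureTheory ProbabilityTheory Filter Topology
open scoped ENNReal

namespace Pool.Agent.H95.Cop

open Pool.Agent.H95

set_option maxHeartbeats 1000000 in
theorem exists_delta (α : ℝ) (hα : 0 < α) (hα1 : α < 1) (K : PMF ℕ) (hK0 : K 0 = 0) (cK : ℝ)
    (hcK : 0 < cK)
    (hK : Tendsto (fun n : ℕ => (K n).toReal * (n : ℝ) ^ (1 + α)) atTop (𝓝 cK))
    (μ : Measure ℝ) [IsProbabilityMeasure μ]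
    (hexp : ∀ t : ℝ, Integrable (fun z => Real.exp (t * z)) μ)
    (hmean : ∫ z, z ∂μ = 0) (hvar : ∫ z, z ^ 2 ∂μ = 1) :
    ∃ m : ℝ, 1 / (1 + α) < m ∧ ∀ᶠ lam in 𝓝[>] (0:ℝ), ∃ h : ℝ, m * lam ≤ h ∧
      ∃ D ℓ : ℕ, 1 ≤ D ∧ 1 ≤ ℓ ∧ ∃ C : ℝ, ∀ R : ℕ, (R : ℝ) / (D : ℝ) - C ≤
        ∫ ω, qq K ℓ R (fun i => -2 * lam * (ω i + h)) ∂(iid μ) := by
  -- basic constants
  set γ : ℝ := 1 / (1 + α) with hγdef
  have h1α : 0 < 1 + α := by linarith
  have hγ : 0 < γ := by positivity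
  have hγ1 : γ ≤ 1 := by rw [hγdef, div_le_one h1α]; linarith
  have hγα : γ * (1 + α) = 1 := by rw [hγdef]; field_simp
  set B : ℝ := 9 / γ ^ 2 with hB
  have hB9 : 9 ≤ B := by
    rw [hB, le_div_iff₀ (by positivity)]
    nlinarith
  have hB0 : 0 < B := by linarith
  obtain ⟨c1, hc1, hUU⟩ := exists_UU α hα hα1 K hK0 cK hK
  obtain ⟨c2, hc2, n0, hn01, hlow⟩ := exists_lower α K cK hcK hK
  set d1 := min c1 1 with hd1
  set d2 := min c2 1 with hd2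
  have hd1p : 0 < d1 := lt_min hc1 one_pos
  have hd2p : 0 < d2 := lt_min hc2 one_pos
  have hd1l : d1 ≤ 1 := min_le_right _ _
  have hd2l : d2 ≤ 1 := min_le_right _ _
  have hUU' : ∀ L : ℕ, 1 ≤ L → d1 * (L : ℝ) ^ α ≤ UU K L := by
    intro L hL
    refine le_trans ?_ (hUU L hL)
    exact mul_le_mul_of_nonneg_right (min_le_left _ _) (Real.rpow_nonneg (Nat.cast_nonneg _) _)
  have hlow' : ∀ n : ℕ, n0 ≤ n → d2 * (n : ℝ) ^ (-(1 + α)) ≤ kk K n := by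
    intro n hn
    refine le_trans ?_ (hlow n hn)
    exact mul_le_mul_of_nonneg_right (min_le_left _ _) (Real.rpow_nonneg (Nat.cast_nonneg _) _)
  set CH : ℝ := 2 * Real.sqrt (6 * B) + 36 * B with hCH
  have hCHp : 0 < CH := by positivity
  obtain ⟨κ, hκ1, hscale⟩ := exists_scale α γ hα hγα (d1 * d2 / 2) (by positivity)
    (by nlinarith) (3 * CH) (12 * B) (by positivity) (by positivity)
  have hκ0 : (1:ℝ) ≤ κ := by exact_mod_cast hκ1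
  set δ : ℝ := 1 / (8 * κ * B) with hδ
  have hδ0 : 0 < δ := by positivity
  have hδ1 : δ ≤ 1 := by
    rw [hδ, div_le_one (by positivity)]
    nlinarith
  refine ⟨γ + δ / 2, by linarith, ?_⟩
  -- eventual conditions
  have ev1 : ∀ᶠ lam in 𝓝[>] (0:ℝ), lam ≤ 1 := by
    have : ∀ᶠ lam in 𝓝 (0:ℝ), lam ≤ 1 := ge_mem_nhds (by norm_num)
    exact this.filter_mono nhdsWithin_le_nhds
  have evpos : ∀ᶠ lam in 𝓝[>] (0:ℝ), 0 < lam := self_mem_nhdsWithin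
  have hth := tendsto_h0 μ hexp hmean hvar γ hγ
  have ev2 : ∀ᶠ lam in 𝓝[>] (0:ℝ), h0 μ γ lam / lam ≤ 2 :=
    hth.eventually (ge_mem_nhds (by linarith))
  have ev3 : ∀ᶠ lam in 𝓝[>] (0:ℝ), γ - δ / 2 ≤ h0 μ γ lam / lam :=
    hth.eventually (le_mem_nhds (by linarith))
  have ev4 : ∀ᶠ lam in 𝓝[>] (0:ℝ),
      (LM μ (-(lam * γ)) - LM μ (-(2 * lam * γ)) / 2) / lam ^ 2 ≤ -(γ ^ 2 / 4) :=
    (tendsto_rho μ hexp hmean hvar γ hγ).eventually (ge_mem_nhds (by nlinarith [sq_pos_of_pos hγ]))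
  set M2 : ℝ := (∫ z, Real.exp (-(2 * (0 * γ + 1)) * z) ∂μ) + 1 with hM2
  have hM2p : 0 < M2 := by
    have := M_pos μ hexp (-(2 * (0 * γ + 1)))
    linarith
  have ev5 : ∀ᶠ lam in 𝓝[>] (0:ℝ), ∫ z, Real.exp (-(2 * (lam * γ + 1)) * z) ∂μ ≤ M2 := by
    have hc : Continuous (fun lam : ℝ => mgf id μ (-(2 * (lam * γ + 1)))) :=
      (continuous_mgf (X := id) hexp).comp (by fun_prop)
    have h1 : Tendsto (fun lam : ℝ => mgf id μ (-(2 * (lam * γ + 1)))) (𝓝[>] 0)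
        (𝓝 (mgf id μ (-(2 * (0 * γ + 1))))) := (hc.tendsto 0).mono_left nhdsWithin_le_nhds
    exact h1.eventually (ge_mem_nhds (by rw [hM2]; exact lt_add_one _))
  have ev6 : ∀ᶠ lam in 𝓝[>] (0:ℝ), (1 / lam ^ 2) * Real.exp (-(1 / lam)) ≤ 1 / (28 * κ * B * M2) :=
    tendsto_exp_small.eventually (ge_mem_nhds (by positivity))
  have ev7 : ∀ᶠ lam in 𝓝[>] (0:ℝ), (n0 : ℝ) ≤ lam⁻¹ :=
    tendsto_inv_nhdsGT_zero.eventually (eventually_ge_atTop _)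
  filter_upwards [ev1, evpos, ev2, ev3, ev4, ev5, ev6, ev7] with lam hl1 hl0 hl2 hl3 hl4 hl5 hl6 hl7
  have hlsq : lam ^ 2 ≤ 1 := by nlinarith
  have hlsq0 : 0 < lam ^ 2 := by positivity
  have hh0 := h0_nonneg μ hexp hmean γ lam hγ hl0
  have hh0le : h0 μ γ lam ≤ 2 * lam := by
    rw [div_le_iff₀ hl0] at hl2; exact hl2
  refine ⟨h0 μ γ lam + δ * lam, ?_, ?_⟩
  · rw [le_div_iff₀ hl0] at hl3
    linarith
  set ℓ : ℕ := ⌈B / lam ^ 2⌉₊ with hℓ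
  have hℓlow : B / lam ^ 2 ≤ ℓ := Nat.le_ceil _
  have hℓup : (ℓ : ℝ) ≤ 2 * B / lam ^ 2 := by
    have h1 : (ℓ : ℝ) < B / lam ^ 2 + 1 := Nat.ceil_lt_add_one (by positivity)
    have h2 : 1 ≤ B / lam ^ 2 := by
      rw [le_div_iff₀ hlsq0]; linarith
    have h3 : 2 * B / lam ^ 2 = B / lam ^ 2 + B / lam ^ 2 := by ring
    linarith
  have hℓup' : (ℓ : ℝ) * lam ^ 2 ≤ 2 * B := by
    rwa [le_div_iff₀ hlsq0] at hℓup
  have hℓ1 : 1 ≤ ℓ := by
    have : 0 < B / lam ^ 2 := by positivity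
    exact Nat.one_le_iff_ne_zero.mpr (Nat.pos_iff_ne_zero.mp (Nat.ceil_pos.mpr this))
  have hℓn0 : n0 ≤ ℓ := by
    have h1 : lam⁻¹ ≤ B / lam ^ 2 := by
      rw [inv_eq_one_div, div_le_div_iff₀ hl0 hlsq0]
      nlinarith
    have : (n0 : ℝ) ≤ ℓ := hl7.trans (h1.trans hℓlow)
    exact_mod_cast this
  have hℓR : (0:ℝ) < ℓ := by exact_mod_cast hℓ1
  set ε : ℝ := 2 * δ * lam ^ 2 with hε
  have hε0 : 0 ≤ ε := by positivity
  have hfi := integrable_fs μ hexp γ lam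
  have hint := integral_fs μ hexp hmean γ lam
  -- rho
  have hρ : (∫ z, Real.exp (γ / 2 * fs μ γ lam z) ∂μ) ^ ℓ ≤ 1 / 8 := by
    rw [integral_exp_half_fs μ hexp γ lam hγ hl0, ← Real.exp_nat_mul]
    set x := LM μ (-(lam * γ)) - LM μ (-(2 * lam * γ)) / 2 with hx
    rw [div_le_iff₀ hlsq0] at hl4
    have h1 : (ℓ : ℝ) * x ≤ -(9 / 4) := by
      calc (ℓ : ℝ) * x ≤ ℓ * (-(γ ^ 2 / 4) * lam ^ 2) := mul_le_mul_of_nonneg_left hl4 hℓR.le
        _ = -(ℓ * (γ ^ 2 / 4 * lam ^ 2)) := by ring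
        _ ≤ -(B / lam ^ 2 * (γ ^ 2 / 4 * lam ^ 2)) := by
          apply neg_le_neg
          exact mul_le_mul_of_nonneg_right hℓlow (by positivity)
        _ = -(9 / 4) := by rw [hB]; field_simp
    have h2 : Real.exp (ℓ * x) ≤ Real.exp (-(Real.log 8)) := by
      apply Real.exp_le_exp.mpr
      have h3 := Real.log_two_lt_d9
      have e : (8:ℝ) = 2 ^ 3 := by norm_num
      rw [e, Real.log_pow]
      push_cast
      linarith
    refine h2.trans (le_of_eq ?_)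
    rw [Real.exp_neg, Real.exp_log (by norm_num)]
    norm_num
  -- mean
  have hCm : (ℓ : ℝ) * |∫ z, fs μ γ lam z ∂μ - ε| ≤ 12 * B := by
    rw [hint]
    have h1 : |-2 * lam * h0 μ γ lam - ε| ≤ 6 * lam ^ 2 := by
      rw [abs_le]
      have h2 : lam * h0 μ γ lam ≤ lam * (2 * lam) := mul_le_mul_of_nonneg_left hh0le hl0.le
      have h3 : 0 ≤ lam * h0 μ γ lam := by positivity
      have h4 : ε ≤ 2 * lam ^ 2 := by
        rw [hε]
        nlinarith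
      constructor
      · nlinarith
      · nlinarith
    calc (ℓ : ℝ) * |-2 * lam * h0 μ γ lam - ε| ≤ ℓ * (6 * lam ^ 2) :=
          mul_le_mul_of_nonneg_left h1 hℓR.le
      _ = 6 * (ℓ * lam ^ 2) := by ring
      _ ≤ 12 * B := by linarith
  -- window
  have hH : ∀ a n : ℕ, n ≤ 3 * ℓ → ∫ ω, |H (XX (fs μ γ lam) ε ω) a (a + n)| ∂(iid μ) ≤ CH := by
    intro a n hn
    refine (H_abs_bound μ hexp hmean hvar γ lam ε hγ hl0 hε0 a n).trans ?_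
    have hnR : (n:ℝ) ≤ 3 * ℓ := by exact_mod_cast hn
    have h1 : (n:ℝ) * lam ^ 2 ≤ 6 * B := by nlinarith
    have h2 : lam * Real.sqrt n ≤ Real.sqrt (6 * B) := by
      have e1 : lam * Real.sqrt n = Real.sqrt (n * lam ^ 2) := by
        rw [Real.sqrt_mul (Nat.cast_nonneg n), Real.sqrt_sq hl0.le, mul_comm]
      rw [e1]
      exact Real.sqrt_le_sqrt h1
    have h3 : 2 * lam * h0 μ γ lam + ε ≤ 6 * lam ^ 2 := by
      have h4 : lam * h0 μ γ lam ≤ lam * (2 * lam) := mul_le_mul_of_nonneg_left hh0le hl0.le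
      have h5 : ε ≤ 2 * lam ^ 2 := by rw [hε]; nlinarith
      nlinarith
    have h6 : (n:ℝ) * (2 * lam * h0 μ γ lam + ε) ≤ 36 * B := by
      calc (n:ℝ) * (2 * lam * h0 μ γ lam + ε) ≤ n * (6 * lam ^ 2) :=
            mul_le_mul_of_nonneg_left h3 (Nat.cast_nonneg n)
        _ = 6 * (n * lam ^ 2) := by ring
        _ ≤ 36 * B := by linarith
    rw [hCH]
    nlinarith
  have hW := win_prob μ K ℓ hℓ1 (measurable_fs μ γ lam) hfi ε CH hCHp hH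
  have hWm : MeasurableSet {ω | -(3 * CH) ≤ A2 K ℓ (XX (fs μ γ lam) ε ω)} :=
    measurableSet_le measurable_const (measurable_A2 K ℓ (measurable_fs μ γ lam) ε)
  have hWd : DepLt (3 * ℓ) (fun ω => ω ∈ {ω | -(3 * CH) ≤ A2 K ℓ (XX (fs μ γ lam) ε ω)}) := by
    intro x x' h
    have := A2_dep K ℓ (fs μ γ lam) ε x x' h
    simp only at this
    simp only [Set.mem_ofPred_eq, this]
  -- kappa
  have hκμ : ((2 * κ * ℓ : ℕ) : ℝ) * ∫ z, ({z : ℝ | 1 < fs μ γ lam z}).indicator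
      (fun z => Real.exp (γ * fs μ γ lam z)) z ∂μ ≤ 1 / 7 := by
    have h1 := kappa_le μ hexp hmean γ lam hγ hl0
    have h2 : ∫ z, ({z : ℝ | 1 < fs μ γ lam z}).indicator
      (fun z => Real.exp (γ * fs μ γ lam z)) z ∂μ ≤ Real.exp (-(1 / lam)) * M2 :=
      h1.trans (mul_le_mul_of_nonneg_left hl5 (Real.exp_pos _).le)
    calc ((2 * κ * ℓ : ℕ) : ℝ) * ∫ z, ({z : ℝ | 1 < fs μ γ lam z}).indicator
          (fun z => Real.exp (γ * fs μ γ lam z)) z ∂μ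
        ≤ ((2 * κ * ℓ : ℕ) : ℝ) * (Real.exp (-(1 / lam)) * M2) :=
          mul_le_mul_of_nonneg_left h2 (Nat.cast_nonneg _)
      _ = 2 * κ * M2 * (ℓ * Real.exp (-(1 / lam))) := by push_cast; ring
      _ ≤ 2 * κ * M2 * ((2 * B / lam ^ 2) * Real.exp (-(1 / lam))) := by
          apply mul_le_mul_of_nonneg_left _ (by positivity)
          exact mul_le_mul_of_nonneg_right hℓup (Real.exp_pos _).le
      _ = 4 * κ * M2 * B * ((1 / lam ^ 2) * Real.exp (-(1 / lam))) := by ring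
      _ ≤ 4 * κ * M2 * B * (1 / (28 * κ * B * M2)) :=
          mul_le_mul_of_nonneg_left hl6 (by positivity)
      _ = 1 / 7 := by field_simp; norm_num
  have hεκ : ε * ((2 * κ * ℓ : ℕ) : ℝ) ≤ 1 := by
    have e : ε * ((2 * κ * ℓ : ℕ) : ℝ) = 4 * δ * κ * (ℓ * lam ^ 2) := by
      rw [hε]; push_cast; ring
    rw [e]
    calc 4 * δ * κ * (ℓ * lam ^ 2) ≤ 4 * δ * κ * (2 * B) :=
          mul_le_mul_of_nonneg_left hℓup' (by positivity)
      _ = 1 := by rw [hδ]; field_simp; norm_num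
  obtain ⟨C, hC⟩ := hscale μ K hK0 d1 d2 hd1p hd2p rfl ℓ hℓ1 (hUU' ℓ hℓ1) n0 hℓn0 hlow'
    (fs μ γ lam) (measurable_fs μ γ lam) hfi ε hε0 (integrable_exp_fs μ hexp γ lam γ)
    (integral_exp_fs μ hexp γ lam hγ hl0) (integrable_exp_fs μ hexp γ lam (γ / 2)) hρ hCm
    {ω | -(3 * CH) ≤ A2 K ℓ (XX (fs μ γ lam) ε ω)} hWm hWd (fun ω hω => hω) hW hκμ hεκ
  refine ⟨2 ^ (2 * κ + 1) * ℓ, ℓ, Nat.mul_pos (by positivity) hℓ1, hℓ1, C, fun R => ?_⟩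
  have hR := hC R
  have hXX : ∀ ω : ℕ → ℝ, XX (fs μ γ lam) ε ω = fun i => -2 * lam * (ω i + (h0 μ γ lam + δ * lam)) := by
    intro ω
    funext i
    unfold XX fs
    rw [hε]; ring
  simp_rw [hXX] at hR
  exact hR

end Pool.Agent.H95.Cop
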