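import Mathlib
import Pool.Agent.H95.Cop.Asym2

open MeasureTheory ProbabilityTheory Filter Topology
open scoped ENNReal

namespace Pool.Agent.H95.Cop

open Pool.Agent.H95

variable (μ : Measure ℝ) [IsProbabilityMeasure μ]

/-- total charges in the normalisation of the problem -/
def ch (lam h : ℝ) (ω : ℕ → ℝ) : ℕ → ℝ := fun i => -2 * lam * (ω i + h)

lemma ch_eq_XX (lam h : ℝ) (ω : ℕ → ℝ) : ch lam h ω = XX (fun z => -2 * lam * (z + h)) 0 ω := by
  funext i; simp [ch, XX]

/-- product of independent weights -/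
lemma integral_exp_weighted (f : ℝ → ℝ)
    (hi : Integrable (fun z => Real.exp (f z)) μ) (c : ℕ → ℝ) (hc : ∀ i, c i = 0 ∨ c i = 1) (N : ℕ) :
    Integrable (fun ω : ℕ → ℝ => Real.exp (∑ i ∈ Finset.range N, c i * f (ω i))) (iid μ) ∧
    ∫ ω : ℕ → ℝ, Real.exp (∑ i ∈ Finset.range N, c i * f (ω i)) ∂(iid μ) =
      ∏ i ∈ Finset.range N, (if c i = 1 then ∫ z, Real.exp (f z) ∂μ else 1) := by
  induction N with
  | zero => simp
  | succ n ih =>
    obtain ⟨i1, i2⟩ := ih
    have hdep : DepLt n (fun ω : ℕ → ℝ => Real.exp (∑ i ∈ Finset.range n, c i * f (ω i))) := by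
      intro x x' h
      beta_reduce
      congr 1
      apply Finset.sum_congr rfl
      intro i hi
      rw [h i (Finset.mem_range.mp hi)]
    rcases hc n with h0 | h1
    · have e : ∀ ω : ℕ → ℝ, Real.exp (∑ i ∈ Finset.range (n + 1), c i * f (ω i)) =
          Real.exp (∑ i ∈ Finset.range n, c i * f (ω i)) := by
        intro ω; rw [Finset.sum_range_succ, h0]; simp
      simp_rw [e]
      rw [Finset.prod_range_succ, if_neg (by rw [h0]; norm_num), mul_one]
      exact ⟨i1, i2⟩
    · have e : ∀ ω : ℕ → ℝ, Real.exp (∑ i ∈ Finset.range (n + 1), c i * f (ω i)) =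
          Real.exp (∑ i ∈ Finset.range n, c i * f (ω i)) *
          (fun ω' : ℕ → ℝ => Real.exp (f (ω' 0))) (shift n ω) := by
        intro ω
        simp only [shift_apply, zero_add]
        rw [Finset.sum_range_succ, h1, one_mul, Real.exp_add]
      simp_rw [e]
      rw [Finset.prod_range_succ, if_pos h1]
      constructor
      · exact integrable_mul_shift μ hdep i1 (integrable_eval μ hi 0)
      · rw [integral_mul_shift μ hdep i1.aestronglyMeasurable
          (integrable_eval μ hi 0).aestronglyMeasurable, i2, integral_eval μ hi 0]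

/-- annealed bound: `E W ≤ 1` if the one-step exponential moment is `≤ 1`. -/
lemma annealed (K : PMF ℕ) (f : ℝ → ℝ) (hf : Measurable f) (hi : Integrable (fun z => Real.exp (f z)) μ)
    (h1 : ∫ z, Real.exp (f z) ∂μ ≤ 1) (N : ℕ) :
    Integrable (fun ω => W K N (XX f 0 ω)) (iid μ) ∧ ∫ ω, W K N (XX f 0 ω) ∂(iid μ) ≤ 1 := by
  have hM0 : 0 ≤ ∫ z, Real.exp (f z) ∂μ := integral_nonneg (fun z => (Real.exp_pos _).le)
  have hexpo : ∀ (p : Traj) (ω : ℕ → ℝ), expo N (XX f 0 ω) p =
      ∑ i ∈ Finset.range N, Delta p (i + 1) * f (ω i) := by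
    intro p ω
    unfold expo XX
    simp
  have hmeas : Measurable (fun q : Traj × (ℕ → ℝ) => Real.exp (expo N (XX f 0 q.2) q.1)) := by
    apply Real.measurable_exp.comp
    exact (measurable_expo N).comp (((measurable_XX hf 0).comp measurable_snd).prodMk measurable_fst)
  have hin : ∀ p : Traj, Integrable (fun ω => Real.exp (expo N (XX f 0 ω) p)) (iid μ) ∧
      ∫ ω, Real.exp (expo N (XX f 0 ω) p) ∂(iid μ) ≤ 1 := by
    intro p
    obtain ⟨j1, j2⟩ := integral_exp_weighted μ f hi (fun i => Delta p (i + 1))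
      (fun i => Delta_mem p (i + 1)) N
    simp_rw [hexpo]
    refine ⟨j1, ?_⟩
    rw [j2]
    apply Finset.prod_le_one
    · intro i _
      split_ifs
      · exact hM0
      · norm_num
    · intro i _
      split_ifs
      · exact h1
      · norm_num
  have hprod : Integrable (fun q : Traj × (ℕ → ℝ) => Real.exp (expo N (XX f 0 q.2) q.1))
      ((trajLaw K).prod (iid μ)) := by
    rw [integrable_prod_iff hmeas.aestronglyMeasurable]
    refine ⟨Filter.Eventually.of_forall (fun p => (hin p).1), ?_⟩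
    refine Integrable.of_bound (C := 1) ?_ ?_
    · exact (hmeas.norm.stronglyMeasurable.integral_prod_right (ν := iid μ)).aestronglyMeasurable
    · refine Filter.Eventually.of_forall (fun p => ?_)
      have e : ∫ ω, ‖Real.exp (expo N (XX f 0 ω) p)‖ ∂(iid μ) =
          ∫ ω, Real.exp (expo N (XX f 0 ω) p) ∂(iid μ) := by
        congr 1
        funext ω
        rw [Real.norm_eq_abs, abs_of_pos (Real.exp_pos _)]
      simp only
      rw [e, Real.norm_eq_abs, abs_of_nonneg (integral_nonneg (fun ω => (Real.exp_pos _).le))]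
      exact (hin p).2
  have hW : ∀ ω, W K N (XX f 0 ω) = ∫ p, Real.exp (expo N (XX f 0 ω) p) ∂(trajLaw K) := fun ω => rfl
  constructor
  · simp_rw [hW]
    exact hprod.integral_prod_right
  · simp_rw [hW]
    rw [← integral_integral_swap hprod]
    calc ∫ p, ∫ ω, Real.exp (expo N (XX f 0 ω) p) ∂(iid μ) ∂(trajLaw K)
        ≤ ∫ _p : Traj, (1:ℝ) ∂(trajLaw K) := by
          apply integral_mono hprod.integral_prod_left (integrable_const _)
          intro p
          exact (hin p).2
      _ = 1 := by simp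

lemma log_W_mean_nonpos (K : PMF ℕ) (f : ℝ → ℝ) (hf : Measurable f) (hfi : Integrable f μ)
    (hi : Integrable (fun z => Real.exp (f z)) μ)
    (h1 : ∫ z, Real.exp (f z) ∂μ ≤ 1) (N : ℕ) :
    ∫ ω, Real.log (W K N (XX f 0 ω)) ∂(iid μ) ≤ 0 := by
  obtain ⟨j1, j2⟩ := annealed μ K f hf hi h1 N
  have hl := integrable_logW μ K N 0 hf hfi 0
  simp only [shift_zero] at hl
  have h2 : ∫ ω, Real.log (W K N (XX f 0 ω)) ∂(iid μ) ≤ ∫ ω, (W K N (XX f 0 ω) - 1) ∂(iid μ) := by
    apply integral_mono hl (j1.sub (integrable_const 1))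
    intro ω
    exact Real.log_le_sub_one_of_pos (W_pos K N _)
  have h3 : ∫ ω, (W K N (XX f 0 ω) - 1) ∂(iid μ) = ∫ ω, W K N (XX f 0 ω) ∂(iid μ) - 1 := by
    rw [integral_sub j1 (integrable_const 1)]; simp
  linarith

end Pool.Agent.H95.Cop
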