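import Mathlib
import Pool.Agent.H95.Cop.Upper

open MeasureTheory ProbabilityTheory Filter Topology
open scoped ENNReal

namespace Pool.Agent.H95.Cop

open Pool.Agent.H95

/-- approximate superadditivity implies existence of the limit -/
lemma exists_limit (e : ℕ → ℝ) (C : ℝ) (hC0 : 0 ≤ C) (hC : ∀ n, |e n| ≤ C * n) (n1 : ℕ) (r : ℕ → ℝ)
    (hr : Tendsto (fun n : ℕ => r n / n) atTop (𝓝 0))
    (hsup : ∀ N M : ℕ, e N + e M - r N ≤ e (N + n1 + M)) :
    ∃ F : ℝ, Tendsto (fun n : ℕ => e n / n) atTop (𝓝 F) := by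
  set a : ℕ → ℝ := fun n => e n / n with ha
  have habs : ∀ n, |a n| ≤ C := by
    intro n
    simp only [ha]
    rcases Nat.eq_zero_or_pos n with h | h
    · subst h; simpa using hC0
    · have hn : (0:ℝ) < n := by exact_mod_cast h
      rw [abs_div, abs_of_pos hn, div_le_iff₀ hn]
      exact hC n
  have hbdd1 : IsBoundedUnder (· ≤ ·) atTop a :=
    isBoundedUnder_of ⟨C, fun n => (abs_le.mp (habs n)).2⟩
  have hbdd2 : IsBoundedUnder (· ≥ ·) atTop a :=
    isBoundedUnder_of ⟨-C, fun n => (abs_le.mp (habs n)).1⟩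
  refine ⟨limsup a atTop, ?_⟩
  rw [tendsto_order]
  constructor
  · intro b hb
    obtain ⟨b', hb1, hb2⟩ := exists_between hb
    obtain ⟨b'', hb3, hb4⟩ := exists_between hb1
    have hfreq : ∃ᶠ n in atTop, b' < a n := frequently_lt_of_lt_limsup hbdd2.isCoboundedUnder_le hb2
    have hev1 : ∀ᶠ n : ℕ in atTop, C * n1 / n + |r n / n| < b' - b'' := by
      have t1 : Tendsto (fun n : ℕ => C * n1 / (n:ℝ)) atTop (𝓝 0) :=
        tendsto_const_div_atTop_nhds_zero_nat _
      have t2 := t1.add hr.abs
      rw [abs_zero, add_zero] at t2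
      exact t2.eventually (gt_mem_nhds (by linarith))
    obtain ⟨N, hN1, hN2, hN3⟩ := (hfreq.and_eventually (hev1.and (eventually_ge_atTop 1))).exists
    have hNpos : (0:ℝ) < N := by exact_mod_cast hN3
    set P := N + n1 with hP
    have hPpos : (0:ℝ) < P := by rw [hP]; push_cast; positivity
    set Q := e N - r N with hQ
    have hQP : b'' < Q / P := by
      rw [lt_div_iff₀ hPpos]
      have h1 : e N = a N * N := by simp only [ha]; field_simp
      have h2 : C * n1 / N + |r N / N| < b' - b'' := hN2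
      have h3 : C * n1 + |r N| < (b' - b'') * N := by
        have := mul_lt_mul_of_pos_right h2 hNpos
        have e1 : (C * n1 / N + |r N / N|) * N = C * n1 + |r N| := by
          rw [abs_div, abs_of_pos hNpos]; field_simp
        linarith
      have h4 := le_abs_self (r N)
      have h5 : b'' ≤ C := by
        have := (abs_le.mp (habs N)).2
        linarith
      have h6 : b'' * n1 ≤ C * n1 := mul_le_mul_of_nonneg_right h5 (Nat.cast_nonneg _)
      have h7 : b' * N < a N * N := mul_lt_mul_of_pos_right hN1 hNpos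
      rw [hQ, hP]
      push_cast
      nlinarith
    -- iterate
    have hiter : ∀ k s : ℕ, k * Q + e s ≤ e (k * P + s) := by
      intro k
      induction k with
      | zero => intro s; simp
      | succ k ih =>
        intro s
        have h1 := hsup N (k * P + s)
        have e1 : N + n1 + (k * P + s) = (k + 1) * P + s := by rw [hP]; ring
        rw [e1] at h1
        have h2 := ih s
        push_cast
        rw [hQ] at h2 ⊢
        linarith
    have hev2 : ∀ᶠ n : ℕ in atTop, (|Q| + C * P) / n < b'' - b := by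
      have t1 : Tendsto (fun n : ℕ => (|Q| + C * P) / (n:ℝ)) atTop (𝓝 0) :=
        tendsto_const_div_atTop_nhds_zero_nat _
      exact t1.eventually (gt_mem_nhds (by linarith))
    filter_upwards [hev2, eventually_ge_atTop 1] with n hn hn1
    have hnpos : (0:ℝ) < n := by exact_mod_cast hn1
    have hPn : 0 < P := by exact_mod_cast hPpos
    have hdm : n / P * P + n % P = n := Nat.div_add_mod' n P
    have h1 := hiter (n / P) (n % P)
    rw [hdm] at h1
    have hmod : ((n % P : ℕ) : ℝ) ≤ P := by exact_mod_cast (Nat.mod_lt n hPn).le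
    have h2 : -(C * P) ≤ e (n % P) := by
      have := (abs_le.mp (hC (n % P))).1
      have : C * ((n % P : ℕ) : ℝ) ≤ C * P := mul_le_mul_of_nonneg_left hmod hC0
      linarith
    have h3 : ((n / P : ℕ) : ℝ) = (n - ((n % P : ℕ) : ℝ)) / P := by
      rw [eq_div_iff hPpos.ne']
      have : ((n / P * P + n % P : ℕ) : ℝ) = n := by exact_mod_cast hdm
      push_cast at this ⊢
      linarith
    have h4 : (n:ℝ) * (Q / P) - |Q| ≤ ((n / P : ℕ) : ℝ) * Q := by
      rw [h3]
      have e1 : ((n:ℝ) - ((n % P : ℕ) : ℝ)) / P * Q = n * (Q / P) - ((n % P : ℕ) : ℝ) / P * Q := by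
        field_simp
      rw [e1]
      have h5 : ((n % P : ℕ) : ℝ) / P * Q ≤ |Q| := by
        have h6 : ((n % P : ℕ) : ℝ) / P ≤ 1 := by rw [div_le_one hPpos]; exact hmod
        have h7 : 0 ≤ ((n % P : ℕ) : ℝ) / P := by positivity
        calc ((n % P : ℕ) : ℝ) / P * Q ≤ ((n % P : ℕ) : ℝ) / P * |Q| :=
              mul_le_mul_of_nonneg_left (le_abs_self Q) h7
          _ ≤ 1 * |Q| := mul_le_mul_of_nonneg_right h6 (abs_nonneg Q)
          _ = |Q| := one_mul _
      linarith
    show b < e n / n
    rw [lt_div_iff₀ hnpos]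
    rw [div_lt_iff₀ hnpos] at hn
    have h8 : b'' * n < Q / P * n := mul_lt_mul_of_pos_right hQP hnpos
    nlinarith
  · intro b hb
    exact eventually_lt_of_limsup_lt hb hbdd1

lemma W_ge_sum (K : PMF ℕ) (hK0 : K 0 = 0) (L : ℕ) (x : ℕ → ℝ) :
    ∑ n ∈ Finset.range (L + 1), kk K n * ((1 + Real.exp (H x 0 n)) / 2) * W K (L - n) (shift n x)
      ≤ W K L x := by
  rw [W_sum K hK0 L x, Finset.sum_range_succ]
  have h1 : kk K L ≤ tailK K L := by
    have := tailK_succ K L
    have := tailK_nonneg K (L + 1)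
    linarith
  rw [Nat.sub_self, W_zero, mul_one]
  have : 0 ≤ (1 + Real.exp (H x 0 L)) / 2 := by positivity
  have := mul_le_mul_of_nonneg_right h1 this
  linarith

lemma W_superadd (K : PMF ℕ) (hK0 : K 0 = 0) (n1 M : ℕ) (c : ℕ → ℝ) (hc0 : ∀ N, 0 ≤ c N)
    (hcm : ∀ N N', N ≤ N' → c N' ≤ c N) (hck : ∀ N, c N ≤ kk K (N + n1)) :
    ∀ N : ℕ, ∀ x : ℕ → ℝ, c N * Real.exp (-∑ i ∈ Finset.Ico N (N + n1), |x i|) * W K N x *
      W K M (shift (N + n1) x) ≤ W K (N + n1 + M) x := by
  intro N
  induction N using Nat.strong_induction_on with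
  | _ N ih =>
    intro x
    set E := Real.exp (-∑ i ∈ Finset.Ico N (N + n1), |x i|) with hE
    have hEp : 0 < E := Real.exp_pos _
    have hE1 : E ≤ 1 := by
      rw [hE, Real.exp_le_one_iff]
      have := Finset.sum_nonneg (fun i (_ : i ∈ Finset.Ico N (N + n1)) => abs_nonneg (x i))
      linarith
    refine le_trans ?_ (W_ge_sum K hK0 (N + n1 + M) x)
    have hWM := W_pos K M (shift (N + n1) x)
    -- lower bound by sub-sum
    have hsub : ∑ n ∈ Finset.range N, kk K n * ((1 + Real.exp (H x 0 n)) / 2) *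
        W K (N + n1 + M - n) (shift n x) + kk K (N + n1) * ((1 + Real.exp (H x 0 (N + n1))) / 2) *
        W K M (shift (N + n1) x) ≤ ∑ n ∈ Finset.range (N + n1 + M + 1),
        kk K n * ((1 + Real.exp (H x 0 n)) / 2) * W K (N + n1 + M - n) (shift n x) := by
      have hnot : N + n1 ∉ Finset.range N := by simp
      have e1 : ∑ n ∈ insert (N + n1) (Finset.range N), kk K n * ((1 + Real.exp (H x 0 n)) / 2) *
          W K (N + n1 + M - n) (shift n x) = kk K (N + n1) * ((1 + Real.exp (H x 0 (N + n1))) / 2) *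
          W K M (shift (N + n1) x) + ∑ n ∈ Finset.range N, kk K n * ((1 + Real.exp (H x 0 n)) / 2) *
          W K (N + n1 + M - n) (shift n x) := by
        rw [Finset.sum_insert hnot]
        congr 3
        omega
      rw [add_comm, ← e1]
      apply Finset.sum_le_sum_of_subset_of_nonneg
      · intro i hi
        rw [Finset.mem_insert, Finset.mem_range] at hi
        rw [Finset.mem_range]
        omega
      · intro i _ _
        have := kk_nonneg K i
        have := W_pos K (N + n1 + M - i) (shift i x)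
        positivity
    refine le_trans ?_ hsub
    rw [W_sum K hK0 N x, mul_add, add_mul]
    apply add_le_add
    · rw [Finset.mul_sum, Finset.sum_mul]
      apply Finset.sum_le_sum
      intro n hn
      rw [Finset.mem_range] at hn
      rcases Nat.eq_zero_or_pos n with h0 | hpos
      · subst h0
        rw [kk_zero K hK0]; simp
      · have h1 := ih (N - n) (by omega) (shift n x)
        have e1 : N - n + n1 + M = N + n1 + M - n := by omega
        have e2 : ∑ i ∈ Finset.Ico (N - n) (N - n + n1), |shift n x i| =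
            ∑ i ∈ Finset.Ico N (N + n1), |x i| := by
          simp only [shift_apply]
          rw [Finset.sum_Ico_add' (fun i => |x i|) (N - n) (N - n + n1) n]
          congr 2 <;> omega
        rw [e1, e2, ← hE, shift_shift] at h1
        have e3 : N - n + n1 + n = N + n1 := by omega
        rw [e3] at h1
        have h2 : c N * E * W K (N - n) (shift n x) * W K M (shift (N + n1) x) ≤
            W K (N + n1 + M - n) (shift n x) := by
          refine le_trans ?_ h1
          have hcc := hcm (N - n) N (by omega)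
          have := W_pos K (N - n) (shift n x)
          gcongr
        have h3 : 0 ≤ kk K n * ((1 + Real.exp (H x 0 n)) / 2) := by
          have := kk_nonneg K n
          positivity
        calc c N * E * (kk K n * ((1 + Real.exp (H x 0 n)) / 2) * W K (N - n) (shift n x)) *
              W K M (shift (N + n1) x)
            = kk K n * ((1 + Real.exp (H x 0 n)) / 2) *
              (c N * E * W K (N - n) (shift n x) * W K M (shift (N + n1) x)) := by ring
          _ ≤ _ := mul_le_mul_of_nonneg_left h2 h3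
    · apply mul_le_mul_of_nonneg_right _ hWM.le
      have h1 : E * ((1 + Real.exp (H x 0 N)) / 2) ≤ (1 + Real.exp (H x 0 (N + n1))) / 2 := by
        have h2 : E ≤ Real.exp (H x N (N + n1)) := by
          rw [hE]
          apply Real.exp_le_exp.mpr
          unfold H
          have := Finset.abs_sum_le_sum_abs x (Finset.Ico N (N + n1))
          have := neg_abs_le (∑ i ∈ Finset.Ico N (N + n1), x i)
          linarith
        have h3 : Real.exp (H x 0 (N + n1)) = Real.exp (H x 0 N) * Real.exp (H x N (N + n1)) := by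
          rw [← Real.exp_add, H_add x (Nat.zero_le N) (by omega)]
        rw [h3]
        have h4 := mul_le_mul_of_nonneg_left h2 (Real.exp_pos (H x 0 N)).le
        linarith
      have h2 : tailK K N ≤ 1 := tailK_le_one K N
      have h2' : 0 ≤ tailK K N := tailK_nonneg K N
      have h3 := hck N
      have h4 : 0 ≤ (1 + Real.exp (H x 0 N)) / 2 := by positivity
      calc c N * E * (tailK K N * ((1 + Real.exp (H x 0 N)) / 2))
          = c N * tailK K N * (E * ((1 + Real.exp (H x 0 N)) / 2)) := by ring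
        _ ≤ kk K (N + n1) * 1 * ((1 + Real.exp (H x 0 (N + n1))) / 2) := by
          have := hc0 N
          have := kk_nonneg K (N + n1)
          gcongr
        _ = _ := by ring

variable (μ : Measure ℝ) [IsProbabilityMeasure μ]

/-- the averaged log partition function -/
noncomputable def ee (K : PMF ℕ) (lam h : ℝ) (N : ℕ) : ℝ :=
  ∫ ω, Real.log (W K N (ch lam h ω)) ∂(iid μ)

lemma ee_superadd (K : PMF ℕ) (hK0 : K 0 = 0) (hid : Integrable (fun z : ℝ => z) μ) (lam h : ℝ)
    (n1 : ℕ) (c : ℕ → ℝ) (hc0 : ∀ N, 0 < c N)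
    (hcm : ∀ N N', N ≤ N' → c N' ≤ c N) (hck : ∀ N, c N ≤ kk K (N + n1)) (N M : ℕ) :
    ee μ K lam h N + ee μ K lam h M - (n1 * ∫ z, |(-2 * lam * (z + h))| ∂μ - Real.log (c N)) ≤
      ee μ K lam h (N + n1 + M) := by
  set f : ℝ → ℝ := fun z => -2 * lam * (z + h) with hf
  have hfm : Measurable f := by rw [hf]; fun_prop
  have hfi : Integrable f μ := (hid.add (integrable_const h)).const_mul _
  have hlogi : ∀ (L i : ℕ), Integrable (fun ω => Real.log (W K L (shift i (ch lam h ω)))) (iid μ) := by
    intro L i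
    have := integrable_logW μ K L i hfm hfi 0
    simp_rw [ch_eq_XX]
    exact this
  have habsi : ∀ i, Integrable (fun ω : ℕ → ℝ => |ch lam h ω i|) (iid μ) := by
    intro i
    have := (integrable_XX μ hfi 0 i).abs
    simp_rw [ch_eq_XX]
    exact this
  have hpt : ∀ ω : ℕ → ℝ, Real.log (c N) - ∑ i ∈ Finset.Ico N (N + n1), |ch lam h ω i| +
      Real.log (W K N (ch lam h ω)) + Real.log (W K M (shift (N + n1) (ch lam h ω))) ≤
      Real.log (W K (N + n1 + M) (ch lam h ω)) := by
    intro ω
    have h1 := W_superadd K hK0 n1 M c (fun N => (hc0 N).le) hcm hck N (ch lam h ω)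
    have hw1 := W_pos K N (ch lam h ω)
    have hw2 := W_pos K M (shift (N + n1) (ch lam h ω))
    have hE := Real.exp_pos (-∑ i ∈ Finset.Ico N (N + n1), |ch lam h ω i|)
    have h2 := Real.log_le_log (by have := hc0 N; positivity) h1
    rw [Real.log_mul (by have := hc0 N; positivity) hw2.ne',
      Real.log_mul (by have := hc0 N; positivity) hw1.ne',
      Real.log_mul (hc0 N).ne' hE.ne', Real.log_exp] at h2
    linarith
  have hI1 : Integrable (fun ω : ℕ → ℝ => ∑ i ∈ Finset.Ico N (N + n1), |ch lam h ω i|) (iid μ) :=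
    integrable_finsetSum _ (fun i _ => habsi i)
  have hI2 : Integrable (fun ω => Real.log (W K N (ch lam h ω))) (iid μ) := by
    have := hlogi N 0
    simpa only [shift_zero] using this
  have hI3 := hlogi M (N + n1)
  have hI4 : Integrable (fun ω => Real.log (W K (N + n1 + M) (ch lam h ω))) (iid μ) := by
    have := hlogi (N + n1 + M) 0
    simpa only [shift_zero] using this
  have h1 : ∫ ω, (Real.log (c N) - ∑ i ∈ Finset.Ico N (N + n1), |ch lam h ω i| +
      Real.log (W K N (ch lam h ω)) + Real.log (W K M (shift (N + n1) (ch lam h ω)))) ∂(iid μ) ≤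
      ∫ ω, Real.log (W K (N + n1 + M) (ch lam h ω)) ∂(iid μ) :=
    integral_mono ((((integrable_const _).sub hI1).add hI2).add hI3) hI4 hpt
  have e1 : ∫ ω, (Real.log (c N) - ∑ i ∈ Finset.Ico N (N + n1), |ch lam h ω i| +
      Real.log (W K N (ch lam h ω)) + Real.log (W K M (shift (N + n1) (ch lam h ω)))) ∂(iid μ) =
      ∫ ω, (Real.log (c N) - ∑ i ∈ Finset.Ico N (N + n1), |ch lam h ω i| +
      Real.log (W K N (ch lam h ω))) ∂(iid μ) +
      ∫ ω, Real.log (W K M (shift (N + n1) (ch lam h ω))) ∂(iid μ) :=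
    integral_add (((integrable_const _).sub hI1).add hI2) hI3
  have e2 : ∫ ω, (Real.log (c N) - ∑ i ∈ Finset.Ico N (N + n1), |ch lam h ω i| +
      Real.log (W K N (ch lam h ω))) ∂(iid μ) =
      ∫ ω, (Real.log (c N) - ∑ i ∈ Finset.Ico N (N + n1), |ch lam h ω i|) ∂(iid μ) +
      ∫ ω, Real.log (W K N (ch lam h ω)) ∂(iid μ) :=
    integral_add ((integrable_const _).sub hI1) hI2
  have e3 : ∫ ω, (Real.log (c N) - ∑ i ∈ Finset.Ico N (N + n1), |ch lam h ω i|) ∂(iid μ) =
      Real.log (c N) - ∫ ω, ∑ i ∈ Finset.Ico N (N + n1), |ch lam h ω i| ∂(iid μ) := by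
    rw [integral_sub (integrable_const _) hI1]; simp
  have e4 : ∫ ω, ∑ i ∈ Finset.Ico N (N + n1), |ch lam h ω i| ∂(iid μ) =
      n1 * ∫ z, |(-2 * lam * (z + h))| ∂μ := by
    rw [integral_finsetSum _ (fun i _ => habsi i)]
    have : ∀ i ∈ Finset.Ico N (N + n1), ∫ ω : ℕ → ℝ, |ch lam h ω i| ∂(iid μ) =
        ∫ z, |(-2 * lam * (z + h))| ∂μ := fun i _ => integral_eval μ hfi.abs i
    rw [Finset.sum_congr rfl this, Finset.sum_const, Nat.card_Ico, nsmul_eq_mul]
    congr 1
    simp
  have e5 : ∫ ω, Real.log (W K M (shift (N + n1) (ch lam h ω))) ∂(iid μ) = ee μ K lam h M := by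
    have hg : Integrable (fun ω => Real.log (W K M (ch lam h ω))) (iid μ) := by
      have := hlogi M 0
      simpa only [shift_zero] using this
    exact integral_comp_shift μ (t := N + n1) hg
  unfold ee at e5 ⊢
  linarith

lemma abs_ee_le (K : PMF ℕ) (hid : Integrable (fun z : ℝ => z) μ) (lam h : ℝ) (N : ℕ) :
    |ee μ K lam h N| ≤ (∫ z, |(-2 * lam * (z + h))| ∂μ) * N := by
  set f : ℝ → ℝ := fun z => -2 * lam * (z + h) with hf
  have hfm : Measurable f := by rw [hf]; fun_prop
  have hfi : Integrable f μ := (hid.add (integrable_const h)).const_mul _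
  have habsi : ∀ i, Integrable (fun ω : ℕ → ℝ => |ch lam h ω i|) (iid μ) := by
    intro i
    have := (integrable_XX μ hfi 0 i).abs
    simp_rw [ch_eq_XX]
    exact this
  have hlogi : Integrable (fun ω => Real.log (W K N (ch lam h ω))) (iid μ) := by
    have := integrable_logW μ K N 0 hfm hfi 0
    simp_rw [ch_eq_XX]
    simpa only [shift_zero] using this
  unfold ee
  calc |∫ ω, Real.log (W K N (ch lam h ω)) ∂(iid μ)|
      ≤ ∫ ω, |Real.log (W K N (ch lam h ω))| ∂(iid μ) := abs_integral_le_integral_abs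
    _ ≤ ∫ ω, ∑ i ∈ Finset.range N, |ch lam h ω i| ∂(iid μ) :=
        integral_mono hlogi.abs (integrable_finsetSum _ (fun i _ => habsi i))
          (fun ω => abs_log_W_le K N _)
    _ = _ := by
        rw [integral_finsetSum _ (fun i _ => habsi i)]
        have : ∀ i ∈ Finset.range N, ∫ ω : ℕ → ℝ, |ch lam h ω i| ∂(iid μ) =
            ∫ z, |(-2 * lam * (z + h))| ∂μ := fun i _ => integral_eval μ hfi.abs i
        rw [Finset.sum_congr rfl this, Finset.sum_const, Finset.card_range, nsmul_eq_mul]
        ring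

theorem ee_limit (α : ℝ) (hα : 0 < α) (K : PMF ℕ) (hK0 : K 0 = 0) (cK : ℝ)
    (hcK : 0 < cK)
    (hK : Tendsto (fun n : ℕ => (K n).toReal * (n : ℝ) ^ (1 + α)) atTop (𝓝 cK))
    (hid : Integrable (fun z : ℝ => z) μ) (lam h : ℝ) :
    ∃ F : ℝ, Tendsto (fun n : ℕ => ee μ K lam h n / n) atTop (𝓝 F) := by
  obtain ⟨c2, hc2, n0, hn01, hlow⟩ := exists_lower α K cK hcK hK
  set A : ℝ := ∫ z, |(-2 * lam * (z + h))| ∂μ with hA
  have hA0 : 0 ≤ A := integral_nonneg (fun z => abs_nonneg _)
  set c : ℕ → ℝ := fun N => c2 * ((N + n0 : ℕ) : ℝ) ^ (-(1 + α)) with hc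
  have hbase : ∀ N : ℕ, (1:ℝ) ≤ ((N + n0 : ℕ) : ℝ) := by
    intro N
    have : 1 ≤ N + n0 := by omega
    exact_mod_cast this
  have hc0 : ∀ N, 0 < c N := by
    intro N
    have := Real.rpow_pos_of_pos (lt_of_lt_of_le one_pos (hbase N)) (-(1 + α))
    simp only [hc]; positivity
  have hcm : ∀ N N', N ≤ N' → c N' ≤ c N := by
    intro N N' hNN
    simp only [hc]
    apply mul_le_mul_of_nonneg_left _ hc2.le
    apply Real.rpow_le_rpow_of_nonpos (lt_of_lt_of_le one_pos (hbase N)) _ (by linarith)
    have : N + n0 ≤ N' + n0 := by omega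
    exact_mod_cast this
  have hck : ∀ N, c N ≤ kk K (N + n0) := fun N => hlow (N + n0) (by omega)
  apply exists_limit (fun n => ee μ K lam h n) A hA0 (fun n => abs_ee_le μ K hid lam h n) n0
    (fun N => n0 * A - Real.log (c N))
  · have hlogc : ∀ N : ℕ, Real.log (c N) = Real.log c2 - (1 + α) * Real.log ((N + n0 : ℕ) : ℝ) := by
      intro N
      have hb := lt_of_lt_of_le one_pos (hbase N)
      simp only [hc]
      rw [Real.log_mul hc2.ne' (Real.rpow_pos_of_pos hb _).ne', Real.log_rpow hb]
      ring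
    have t1 : Tendsto (fun N : ℕ => (n0 * A - Real.log c2) / (N:ℝ)) atTop (𝓝 0) :=
      tendsto_const_div_atTop_nhds_zero_nat _
    have t2 : Tendsto (fun N : ℕ => Real.log ((N + n0 : ℕ) : ℝ) / (N:ℝ)) atTop (𝓝 0) := by
      have s1 : Tendsto (fun x : ℝ => Real.log x / x) atTop (𝓝 0) := by
        have := (isLittleO_log_rpow_atTop (show (0:ℝ) < 1 by norm_num)).tendsto_div_nhds_zero
        simpa using this
      have s2 : Tendsto (fun N : ℕ => ((N + n0 : ℕ) : ℝ)) atTop atTop :=
        tendsto_natCast_atTop_atTop.comp (tendsto_add_atTop_nat n0)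
      have s3 := s1.comp s2
      have s4 : Tendsto (fun N : ℕ => ((N + n0 : ℕ) : ℝ) / (N:ℝ)) atTop (𝓝 1) := by
        have : Tendsto (fun N : ℕ => 1 + (n0:ℝ) / (N:ℝ)) atTop (𝓝 (1 + 0)) :=
          tendsto_const_nhds.add (tendsto_const_div_atTop_nhds_zero_nat _)
        rw [add_zero] at this
        refine this.congr' ?_
        filter_upwards [eventually_ge_atTop 1] with N hN
        have : (0:ℝ) < N := by exact_mod_cast hN
        push_cast; field_simp
      have s5 := s3.mul s4
      rw [zero_mul] at s5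
      refine s5.congr' ?_
      filter_upwards [eventually_ge_atTop 1] with N hN
      have h1 : (0:ℝ) < N := by exact_mod_cast hN
      have h2 : (0:ℝ) < ((N + n0 : ℕ) : ℝ) := lt_of_lt_of_le one_pos (hbase N)
      simp only [Function.comp_apply]
      field_simp
    have t3 := t1.add (t2.const_mul (1 + α))
    rw [mul_zero, add_zero] at t3
    refine t3.congr (fun N => ?_)
    rw [hlogc]
    ring
  · intro N M
    exact ee_superadd μ K hK0 hid lam h n0 c hc0 hcm hck N M

end Pool.Agent.H95.Cop
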