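import Mathlib
import Pool.Agent.H95.Cop.Limit
import Pool.Agent.H95.Cop.Delta

open MeasureTheory ProbabilityTheory Filter Topology
open scoped ENNReal

namespace Pool.Agent.H95.Cop

open Pool.Agent.H95

variable (μ : Measure ℝ) [IsProbabilityMeasure μ]

lemma integrable_log_ch (K : PMF ℕ) (hid : Integrable (fun z : ℝ => z) μ) (lam h : ℝ) (N i : ℕ) :
    Integrable (fun ω => Real.log (W K N (shift i (ch lam h ω)))) (iid μ) := by
  have hfm : Measurable (fun z : ℝ => -2 * lam * (z + h)) := by fun_prop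
  have hfi : Integrable (fun z : ℝ => -2 * lam * (z + h)) μ := (hid.add (integrable_const h)).const_mul _
  have := integrable_logW μ K N i hfm hfi 0
  simp_rw [ch_eq_XX]
  exact this

lemma integral_log_ch (K : PMF ℕ) (hid : Integrable (fun z : ℝ => z) μ) (lam h : ℝ) (N i : ℕ) :
    ∫ ω, Real.log (W K N (shift i (ch lam h ω))) ∂(iid μ) = ee μ K lam h N := by
  have hg := integrable_log_ch μ K hid lam h N 0
  simp only [shift_zero] at hg
  exact integral_comp_shift μ (t := i) hg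

lemma finiteFreeEnergy_eq (K : PMF ℕ) (hid : Integrable (fun z : ℝ => z) μ) (lam h : ℝ) (N : ℕ) :
    finiteFreeEnergy K μ lam h N = ee μ K lam h N / N := by
  unfold finiteFreeEnergy
  rw [one_div, inv_mul_eq_div]
  congr 1
  have h1 : ∀ ω : ℕ → ℝ, partitionFunction K lam h N ω = W K N (shift 1 (ch lam h ω)) := by
    intro ω
    rw [partitionFunction_eq]
    rfl
  simp_rw [h1]
  exact integral_log_ch μ K hid lam h N 1

/-- The limit defining the free energy exists, for all `λ` and `h`. -/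
theorem exists_freeEnergy (α : ℝ) (hα : 0 < α) (K : PMF ℕ) (hK0 : K 0 = 0) (cK : ℝ)
    (hcK : 0 < cK)
    (hK : Tendsto (fun n : ℕ => (K n).toReal * (n : ℝ) ^ (1 + α)) atTop (𝓝 cK))
    (hexp : ∀ t : ℝ, Integrable (fun z => Real.exp (t * z)) μ) (lam h : ℝ) :
    ∃ f : ℝ, HasFreeEnergy K μ lam h f := by
  have hid := integrable_id' μ hexp
  obtain ⟨F, hF⟩ := ee_limit μ α hα K hK0 cK hcK hK hid lam h
  refine ⟨F, hF.congr (fun N => ?_)⟩
  rw [finiteFreeEnergy_eq μ K hid]

/-- For `λ > 0` the localised set of `h` is bounded above (annealed bound). -/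
theorem localized_bddAbove (K : PMF ℕ)
    (hexp : ∀ t : ℝ, Integrable (fun z => Real.exp (t * z)) μ) (lam : ℝ) (hlam : 0 < lam) :
    BddAbove {h : ℝ | 0 ≤ h ∧ ∃ f : ℝ, 0 < f ∧ HasFreeEnergy K μ lam h f} := by
  have hid := integrable_id' μ hexp
  refine ⟨LM μ (-(2 * lam)) / (2 * lam), ?_⟩
  rintro h ⟨_, f, hpos, hF⟩
  by_contra hcon
  push Not at hcon
  have hle : ∀ N : ℕ, finiteFreeEnergy K μ lam h N ≤ 0 := by
    intro N
    rw [finiteFreeEnergy_eq μ K hid]
    apply div_nonpos_of_nonpos_of_nonneg _ (Nat.cast_nonneg N)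
    have hfm : Measurable (fun z : ℝ => -2 * lam * (z + h)) := by fun_prop
    have hfi : Integrable (fun z : ℝ => -2 * lam * (z + h)) μ :=
      (hid.add (integrable_const h)).const_mul _
    have e1 : ∀ z : ℝ, Real.exp (-2 * lam * (z + h)) =
        Real.exp (-(2 * lam) * z) * Real.exp (-(2 * lam * h)) := by
      intro z
      rw [← Real.exp_add]; congr 1; ring
    have hi : Integrable (fun z : ℝ => Real.exp (-2 * lam * (z + h))) μ := by
      simp_rw [e1]
      exact (hexp _).mul_const _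
    have h1 : ∫ z, Real.exp (-2 * lam * (z + h)) ∂μ ≤ 1 := by
      simp_rw [e1]
      rw [integral_mul_const, ← exp_LM μ hexp, ← Real.exp_add, Real.exp_le_one_iff]
      rw [div_lt_iff₀ (by positivity)] at hcon
      linarith
    have h2 := log_W_mean_nonpos μ K _ hfm hfi hi h1 N
    unfold ee
    simp_rw [ch_eq_XX]
    exact h2
  have := le_of_tendsto hF (Filter.Eventually.of_forall hle)
  linarith

theorem slope_gt (α : ℝ) (hα : 0 < α) (hα1 : α < 1) (K : PMF ℕ) (hK0 : K 0 = 0) (cK : ℝ)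
    (hcK : 0 < cK)
    (hK : Tendsto (fun n : ℕ => (K n).toReal * (n : ℝ) ^ (1 + α)) atTop (𝓝 cK))
    (hexp : ∀ t : ℝ, Integrable (fun z => Real.exp (t * z)) μ)
    (hmean : ∫ z, z ∂μ = 0) (hvar : ∫ z, z ^ 2 ∂μ = 1) :
    ∃ m : ℝ, 1 / (1 + α) < m ∧ ∀ᶠ lam in 𝓝[>] (0:ℝ), m ≤ criticalCurve K μ lam / lam := by
  have hid := integrable_id' μ hexp
  obtain ⟨m, hm, hev⟩ := exists_delta α hα hα1 K hK0 cK hcK hK μ hexp hmean hvar
  have hm0 : 0 < m := lt_trans (by positivity) hm
  refine ⟨m, hm, ?_⟩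
  filter_upwards [hev, self_mem_nhdsWithin] with lam hlam hpos
  have hlam0 : 0 < lam := hpos
  obtain ⟨h, hmh, D, ℓ, hD, hℓ, C, hC⟩ := hlam
  have hh0 : 0 ≤ h := le_trans (by positivity) hmh
  have hD0 : (0:ℝ) < D := by exact_mod_cast hD
  have hℓ0 : (0:ℝ) < ℓ := by exact_mod_cast hℓ
  -- limit of the averaged quantity
  obtain ⟨F, hF⟩ := exists_freeEnergy μ α hα K hK0 cK hcK hK hexp lam h
  have hF' : Tendsto (fun N : ℕ => ee μ K lam h N / N) atTop (𝓝 F) := by
    refine Tendsto.congr (fun N => ?_) hF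
    rw [finiteFreeEnergy_eq μ K hid]
  have hqq : ∀ R : ℕ, ∫ ω, qq K ℓ R (fun i => -2 * lam * (ω i + h)) ∂(iid μ) =
      (1 / (ℓ : ℝ)) * ∑ i ∈ Finset.range ℓ, ee μ K lam h (R - i) := by
    intro R
    have e1 : ∀ ω : ℕ → ℝ, qq K ℓ R (fun i => -2 * lam * (ω i + h)) =
        (1 / (ℓ : ℝ)) * ∑ i ∈ Finset.range ℓ, Real.log (W K (R - i) (shift i (ch lam h ω))) :=
      fun ω => rfl
    simp_rw [e1]
    rw [integral_const_mul, integral_finsetSum _ (fun i _ => integrable_log_ch μ K hid lam h (R - i) i)]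
    congr 1
    apply Finset.sum_congr rfl
    intro i _
    exact integral_log_ch μ K hid lam h (R - i) i
  have hterm : ∀ i : ℕ, Tendsto (fun R : ℕ => ee μ K lam h (R - i) / R) atTop
      (𝓝 F) := by
    intro i
    have t1 : Tendsto (fun R : ℕ => ee μ K lam h (R - i) / ((R - i : ℕ) : ℝ)) atTop
        (𝓝 F) := hF'.comp (tendsto_sub_atTop_nat i)
    have t2 : Tendsto (fun R : ℕ => ((R - i : ℕ) : ℝ) / (R:ℝ)) atTop (𝓝 1) := by
      have : Tendsto (fun N : ℕ => 1 - (i:ℝ) / (N:ℝ)) atTop (𝓝 (1 - 0)) :=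
        tendsto_const_nhds.sub (tendsto_const_div_atTop_nhds_zero_nat _)
      rw [sub_zero] at this
      refine this.congr' ?_
      filter_upwards [eventually_ge_atTop (i + 1)] with N hN
      have : (0:ℝ) < N := by
        have : 0 < N := by omega
        exact_mod_cast this
      rw [Nat.cast_sub (by omega)]
      field_simp
    have t3 := t1.mul t2
    rw [mul_one] at t3
    refine t3.congr' ?_
    filter_upwards [eventually_ge_atTop (i + 1)] with N hN
    have h1 : (0:ℝ) < N := by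
      have : 0 < N := by omega
      exact_mod_cast this
    have h2 : (0:ℝ) < ((N - i : ℕ) : ℝ) := by
      have : 0 < N - i := by omega
      exact_mod_cast this
    field_simp
  have hlim : Tendsto (fun R : ℕ => (1 / (ℓ : ℝ)) * ∑ i ∈ Finset.range ℓ, ee μ K lam h (R - i) / R) atTop
      (𝓝 ((1 / (ℓ : ℝ)) * ∑ i ∈ Finset.range ℓ, F)) :=
    (tendsto_finsetSum _ (fun i _ => hterm i)).const_mul _
  have hval : (1 / (ℓ : ℝ)) * ∑ i ∈ Finset.range ℓ, F = F := by
    rw [Finset.sum_const, Finset.card_range, nsmul_eq_mul]; field_simp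
  rw [hval] at hlim
  have hlow : Tendsto (fun R : ℕ => 1 / (D:ℝ) - C / (R:ℝ)) atTop (𝓝 (1 / (D:ℝ) - 0)) :=
    tendsto_const_nhds.sub (tendsto_const_div_atTop_nhds_zero_nat _)
  rw [sub_zero] at hlow
  have hge : 1 / (D:ℝ) ≤ F := by
    refine le_of_tendsto_of_tendsto hlow hlim ?_
    filter_upwards [eventually_ge_atTop 1] with R hR
    have hR0 : (0:ℝ) < R := by exact_mod_cast hR
    have h1 := hC R
    rw [hqq R] at h1
    have h2 := div_le_div_of_nonneg_right h1 hR0.le
    have e1 : ((R:ℝ) / D - C) / R = 1 / D - C / R := by field_simp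
    have e2 : (1 / (ℓ : ℝ)) * (∑ i ∈ Finset.range ℓ, ee μ K lam h (R - i)) / R =
        (1 / (ℓ : ℝ)) * ∑ i ∈ Finset.range ℓ, ee μ K lam h (R - i) / R := by
      rw [mul_div_assoc, Finset.sum_div]
    rw [e1, e2] at h2
    exact h2
  have hfe : 0 < F := lt_of_lt_of_le (by positivity) hge
  have hsup : h ≤ criticalCurve K μ lam :=
    le_csSup (localized_bddAbove μ K hexp lam hlam0) ⟨hh0, F, hfe, hF⟩
  rw [le_div_iff₀ hlam0]
  exact hmh.trans hsup

end Pool.Agent.H95.Cop
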