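import Mathlib
import Pool.Agent.H95.Cop.Defs
import Pool.Agent.H95.Cop.Final

/-!
# `MP_65efe8_pr`: the slope at the origin of the copolymer critical curve is not `1/(1+α)`

The definitions of the model (law of the polymer, `Δ_n`, partition function, free energy, critical
curve) are in `Pool.Agent.H95.Cop.Defs`; they are those of the problem.

The objects are well behaved under the hypotheses of the theorem:
* `Pool.Agent.H95.Cop.exists_freeEnergy`: the free energy `f(λ,h) = lim (1/N) E log Z_{N,ω}` exists,
  for all `λ` and `h`;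
* `Pool.Agent.H95.Cop.localized_bddAbove`: for `λ > 0` the set `{h ≥ 0 : f(λ,h) > 0}` is bounded
  above, so that `criticalCurve` is really its supremum (the proof of the theorem shows that it is
  not empty for small `λ > 0`).

The theorem holds for all `α ∈ (0,1)`. It says that `liminf h_c(λ)/λ > 1/(1+α)`, so that
`m_α > 1/(1+α)`. The proof builds, for `h` slightly above `λ/(1+α)`, a hierarchy of favourable
stretches of the environment at all dyadic scales: the expected gain collected at distance of
order `2^k` is of order `1/k`, and the sum of `1/k` diverges.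
-/

open MeasureTheory Filter Topology

namespace Pool.Agent.H95.Cop.SlopeStrict

open Pool.Agent.H95.Cop

/-- For every `α ∈ (0,1)`, every inter-arrival law `K` with `K(n) ~ c_K n^{-(1+α)}` and every law `μ`
of the charges with mean `0`, variance `1` and all exponential moments, there is `m > 1/(1+α)` with
`h_c(λ)/λ ≥ m` for all small `λ > 0`; that is, `liminf_{λ ↓ 0} h_c(λ)/λ > 1/(1+α)`. -/
theorem result (α : ℝ) (hα : 0 < α) (hα1 : α < 1)
    (K : PMF ℕ) (hK0 : K 0 = 0) (cK : ℝ) (hcK : 0 < cK)
    (hK : Tendsto (fun n : ℕ => (K n).toReal * (n : ℝ) ^ (1 + α)) atTop (𝓝 cK))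
    (μ : Measure ℝ) [IsProbabilityMeasure μ]
    (hexp : ∀ t : ℝ, Integrable (fun z => Real.exp (t * z)) μ)
    (hmean : ∫ z, z ∂μ = 0) (hvar : ∫ z, z ^ 2 ∂μ = 1) :
    ∃ m : ℝ, 1 / (1 + α) < m ∧ ∀ᶠ lam in 𝓝[>] (0 : ℝ), m ≤ criticalCurve K μ lam / lam :=
  slope_gt μ α hα hα1 K hK0 cK hcK hK hexp hmean hvar

end Pool.Agent.H95.Cop.SlopeStrict
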